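import Pool.Agent.Lib.MP_7710ee_inv.Extremal

/-!
# The extremal sets: from the shape to the count (MP_7710ee_co)
-/

set_option linter.style.longLine false
set_option linter.unusedSectionVars false

namespace Pool.Agent.Lib.MP_ee6709_co

open Finset

universe u

section
variable {G : Type u} [AddCommGroup G] [DecidableEq G] [Fintype G]

open Classical in
/-- The coset `i g + T`. -/
noncomputable def cos' (T : AddSubgroup G) (g : G) (i : ℕ) : Finset G :=
  univ.filter (fun x => x - i • g ∈ T)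

lemma mem_cos' {T : AddSubgroup G} {g : G} {i : ℕ} {x : G} : x ∈ cos' T g i ↔ x - i • g ∈ T := by
  classical
  simp [cos']

lemma card_cos' (T : AddSubgroup G) (g : G) (i : ℕ) : (cos' T g i).card = Nat.card T := by
  classical
  rw [Nat.card_eq_fintype_card, ← Finset.card_univ]
  symm
  refine Finset.card_bij (fun t _ => (t : G) + i • g) ?_ ?_ ?_
  · intro t _
    rw [mem_cos', add_sub_cancel_right]
    exact t.2
  · intro a _ b _ h
    exact Subtype.ext (add_right_cancel h)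
  · intro x hx
    rw [mem_cos'] at hx
    exact ⟨⟨_, hx⟩, mem_univ _, sub_add_cancel _ _⟩

/-- The weight of an element: the least `i` with `x ∈ i g + T`. -/
noncomputable def wt' (T : AddSubgroup G) (g : G) (x : G) : ℕ := sInf {i : ℕ | x - i • g ∈ T}

lemma wt'_mem {T : AddSubgroup G} {g x : G} {i : ℕ} (h : x - i • g ∈ T) :
    x - wt' T g x • g ∈ T := Nat.sInf_mem (s := {i : ℕ | x - i • g ∈ T}) ⟨i, h⟩

lemma wt'_eq {T : AddSubgroup G} {g x : G} {i H : ℕ} (hH : ∀ j : ℕ, 1 ≤ j → j ≤ H → j • g ∉ T)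
    (hi : i ≤ H) (h : x - i • g ∈ T) : wt' T g x = i := by
  have h1 : wt' T g x ≤ i := Nat.sInf_le (s := {i : ℕ | x - i • g ∈ T}) h
  by_contra hne
  apply hH (i - wt' T g x) (by omega) (by omega)
  have h2 := wt'_mem h
  have h3 := T.sub_mem h2 h
  have h4 : i • g = wt' T g x • g + (i - wt' T g x) • g := by
    rw [← add_nsmul, Nat.add_sub_cancel' h1]
  have h5 : x - wt' T g x • g - (x - i • g) = (i - wt' T g x) • g := by
    rw [h4]; abel
  rwa [h5] at h3

/-- Distinct cosets. -/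
lemma cos'_disjoint {T : AddSubgroup G} {g : G} {i j H : ℕ}
    (hH : ∀ j : ℕ, 1 ≤ j → j ≤ H → j • g ∉ T) (hi : i ≤ H) (hj : j ≤ H) (hij : i ≠ j) :
    Disjoint (cos' T g i) (cos' T g j) := by
  rw [disjoint_left]
  intro x hx hx'
  rw [mem_cos'] at hx hx'
  exact hij ((wt'_eq hH hi hx).symm.trans (wt'_eq hH hj hx'))

lemma card_biUnion_cos' {T : AddSubgroup G} {g : G} {n H : ℕ}
    (hH : ∀ j : ℕ, 1 ≤ j → j ≤ H → j • g ∉ T) (hn : n ≤ H) :
    ((Icc 1 n).biUnion (cos' T g)).card = n * Nat.card T := by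
  rw [card_biUnion]
  · rw [sum_congr rfl fun i _ => card_cos' T g i, sum_const, Nat.card_Icc, smul_eq_mul,
      Nat.add_sub_cancel]
  · intro i hi j hj hij
    rw [mem_coe, mem_Icc] at hi hj
    exact cos'_disjoint hH (by omega) (by omega) hij

/-- The set `B ∪ (g + T) ∪ ... ∪ (k g + T) ∪ E`. -/
noncomputable def shp (T : AddSubgroup G) (g : G) (k : ℕ) (B E : Finset G) : Finset G :=
  B ∪ (Icc 1 k).biUnion (cos' T g) ∪ E

lemma mem_shp {T : AddSubgroup G} {g : G} {k : ℕ} {B E : Finset G} {x : G} :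
    x ∈ shp T g k B E ↔ (x ∈ B ∨ ∃ i, 1 ≤ i ∧ i ≤ k ∧ x - i • g ∈ T) ∨ x ∈ E := by
  rw [shp, mem_union, mem_union, mem_biUnion]
  constructor
  · rintro ((h | ⟨i, hi, h⟩) | h)
    · exact Or.inl (Or.inl h)
    · rw [mem_Icc] at hi
      exact Or.inl (Or.inr ⟨i, hi.1, hi.2, mem_cos'.1 h⟩)
    · exact Or.inr h
  · rintro ((h | ⟨i, hi1, hi2, h⟩) | h)
    · exact Or.inl (Or.inl h)
    · exact Or.inl (Or.inr ⟨i, mem_Icc.2 ⟨hi1, hi2⟩, mem_cos'.2 h⟩)
    · exact Or.inr h

lemma card_shp {T : AddSubgroup G} {g : G} {k H : ℕ} {B E : Finset G}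
    (hB : ∀ x ∈ B, x ∈ T) (hE : ∀ x ∈ E, x - (k + 1) • g ∈ T)
    (hH : ∀ j : ℕ, 1 ≤ j → j ≤ H → j • g ∉ T) (hk : k + 1 ≤ H) :
    (shp T g k B E).card = B.card + k * Nat.card T + E.card := by
  have hB' : B ⊆ cos' T g 0 := by
    intro x hx
    rw [mem_cos', zero_nsmul, sub_zero]; exact hB x hx
  have hE' : E ⊆ cos' T g (k + 1) := fun x hx => mem_cos'.2 (hE x hx)
  rw [shp, card_union_of_disjoint, card_union_of_disjoint, card_biUnion_cos' hH (by omega)]
  · rw [disjoint_biUnion_right]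
    intro i hi
    rw [mem_Icc] at hi
    exact disjoint_of_subset_left hB' (cos'_disjoint hH (by omega) (by omega) (by omega))
  · rw [disjoint_union_left, disjoint_biUnion_left]
    constructor
    · exact disjoint_of_subset_left hB' (disjoint_of_subset_right hE'
        (cos'_disjoint hH (by omega) (by omega) (by omega)))
    · intro i hi
      rw [mem_Icc] at hi
      exact disjoint_of_subset_right hE' (cos'_disjoint hH (by omega) (by omega) (by omega))

/-- The sums of subsets of the shape. -/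
lemma shp_sums {T : AddSubgroup G} {g : G} {k H : ℕ} {B E : Finset G}
    (hB : ∀ x ∈ B, x ∈ T) (hE : ∀ x ∈ E, x - (k + 1) • g ∈ T)
    (hH : ∀ j : ℕ, 1 ≤ j → j ≤ H → j • g ∉ T) (hk : k + 1 ≤ H)
    (S : Finset G) (hS : S ⊆ shp T g k B E) :
    (∑ x ∈ S, x) - (∑ x ∈ S, wt' T g x) • g ∈ T ∧ (∀ x ∈ S, wt' T g x = 0 → x ∈ B) ∧
      2 * (∑ x ∈ S, wt' T g x) ≤ Nat.card T * (k * (k + 1)) + 2 * (E.card * (k + 1)) := by
  classical
  refine ⟨?_, ?_, ?_⟩
  · rw [← Finset.sum_nsmul_assoc, ← sum_sub_distrib]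
    refine T.sum_mem fun x hx => ?_
    rcases mem_shp.1 (hS hx) with (h | ⟨i, _, _, h⟩) | h
    · apply wt'_mem (i := 0)
      rw [zero_nsmul, sub_zero]; exact hB x h
    · exact wt'_mem h
    · exact wt'_mem (hE x h)
  · intro x hx h0
    rcases mem_shp.1 (hS hx) with (h | ⟨i, hi1, hi2, h⟩) | h
    · exact h
    · have := wt'_eq hH (by omega : i ≤ H) h
      omega
    · have := wt'_eq hH hk (hE x h)
      omega
  · have h1 : ∑ x ∈ S, wt' T g x ≤ ∑ x ∈ shp T g k B E, wt' T g x := sum_le_sum_of_subset hS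
    have h2 : ∑ x ∈ shp T g k B E, wt' T g x ≤
        (∑ x ∈ B, wt' T g x + ∑ x ∈ (Icc 1 k).biUnion (cos' T g), wt' T g x) +
          ∑ x ∈ E, wt' T g x := by
      rw [shp]
      have e1 : ∑ x ∈ B ∪ (Icc 1 k).biUnion (cos' T g) ∪ E, wt' T g x ≤
          ∑ x ∈ B ∪ (Icc 1 k).biUnion (cos' T g), wt' T g x + ∑ x ∈ E, wt' T g x := by
        rw [← sum_union_inter]; exact Nat.le_add_right _ _
      have e2 : ∑ x ∈ B ∪ (Icc 1 k).biUnion (cos' T g), wt' T g x ≤
          ∑ x ∈ B, wt' T g x + ∑ x ∈ (Icc 1 k).biUnion (cos' T g), wt' T g x := by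
        rw [← sum_union_inter]; exact Nat.le_add_right _ _
      omega
    have h3 : ∑ x ∈ B, wt' T g x = 0 := by
      apply sum_eq_zero
      intro x hx
      exact wt'_eq hH (Nat.zero_le _) (by rw [zero_nsmul, sub_zero]; exact hB x hx)
    have h4 : ∑ x ∈ E, wt' T g x = E.card * (k + 1) := by
      rw [sum_congr rfl fun x hx => wt'_eq hH hk (hE x hx), sum_const, smul_eq_mul]
    have h5 : ∑ x ∈ (Icc 1 k).biUnion (cos' T g), wt' T g x = ∑ i ∈ Icc 1 k, i * Nat.card T := by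
      rw [sum_biUnion]
      · refine sum_congr rfl fun i hi => ?_
        rw [mem_Icc] at hi
        rw [sum_congr rfl fun x hx => wt'_eq hH (by omega : i ≤ H) (mem_cos'.1 hx), sum_const,
          card_cos', smul_eq_mul, mul_comm]
      · intro i hi j hj hij
        rw [mem_coe, mem_Icc] at hi hj
        exact cos'_disjoint hH (by omega) (by omega) hij
    have h6 := sum_id_le (Nat.card T) k
    rw [h3, h4, h5] at h2
    have h7 : Nat.card T * (k * (k + 1)) = k * (k + 1) * Nat.card T := by ring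
    omega

end

end Pool.Agent.Lib.MP_ee6709_co
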