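import Pool.Agent.Lib.MP_7710ee_inv.Class1

/-!
# The classification of the extremal sets (MP_7710ee_co)
-/

set_option linter.style.longLine false
set_option linter.unusedSectionVars false

namespace Pool.Agent.Lib.MP_ee6709_co

open Finset

universe u

/-- Arithmetic of the shape. -/
lemma shp_num {a e k m : ℕ} (ha : 1 ≤ a) (ha3 : a ≤ 3) (he : e ≤ 1) (hea : e = 1 → a = 1)
    (hm : m = a + k * (2 * a) + e) :
    m ^ 2 / (2 * (2 * a)) = (k + 1) * (a * k + e) ∧
      2 * a * (m ^ 2 / (2 * (2 * a)) + 1) ≤ m ^ 2 / 2 + 2 := by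
  have h4 : a = 1 ∨ a = 2 ∨ a = 3 := by omega
  have h5 : e = 0 ∨ e = 1 := by omega
  have key : m ^ 2 / (2 * (2 * a)) = (k + 1) * (a * k + e) := by
    rcases h4 with h | h | h <;> rcases h5 with h' | h' <;> subst h <;> subst h'
    · have : m ^ 2 = 4 * ((k + 1) * (1 * k + 0)) + 1 := by rw [hm]; ring
      rw [this]; omega
    · have : m ^ 2 = 4 * ((k + 1) * (1 * k + 1)) + 0 := by rw [hm]; ring
      rw [this]; omega
    · have : m ^ 2 = 8 * ((k + 1) * (2 * k + 0)) + 4 := by rw [hm]; ring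
      rw [this]; omega
    · exact absurd (hea rfl) (by norm_num)
    · have : m ^ 2 = 12 * ((k + 1) * (3 * k + 0)) + 9 := by rw [hm]; ring
      rw [this]; omega
    · exact absurd (hea rfl) (by norm_num)
  refine ⟨key, ?_⟩
  rw [key]
  rcases h4 with h | h | h <;> rcases h5 with h' | h' <;> subst h <;> subst h'
  · have : m ^ 2 = 4 * ((k + 1) * (1 * k + 0)) + 1 := by rw [hm]; ring
    rw [this]; omega
  · have : m ^ 2 = 4 * ((k + 1) * (1 * k + 1)) + 0 := by rw [hm]; ring
    rw [this]; omega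
  · have : m ^ 2 = 8 * ((k + 1) * (2 * k + 0)) + 4 := by rw [hm]; ring
    rw [this]; omega
  · exact absurd (hea rfl) (by norm_num)
  · have : m ^ 2 = 12 * ((k + 1) * (3 * k + 0)) + 9 := by rw [hm]; ring
    rw [this]; omega
  · exact absurd (hea rfl) (by norm_num)

section
variable {G : Type u} [AddCommGroup G] [DecidableEq G] [Fintype G]

/-- A half of a subgroup. -/
lemma half_le {T : AddSubgroup G} {B : Finset G} (hB : ∀ x ∈ B, x ∈ T) (hBz : ZSF B)
    (h2 : 2 * B.card = Nat.card T) : 1 ≤ B.card ∧ B.card ≤ 3 := by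
  classical
  have hT : IsSubgp (univ.filter (fun x => x ∈ T)) := by
    constructor
    · rw [mem_filter]; exact ⟨mem_univ _, T.zero_mem⟩
    · intro a ha b hb
      rw [mem_filter] at *
      exact ⟨mem_univ _, T.sub_mem ha.2 hb.2⟩
  have hBT : B ⊆ univ.filter (fun x => x ∈ T) := by
    intro x hx
    rw [mem_filter]; exact ⟨mem_univ _, hB x hx⟩
  have hc : (univ.filter (fun x => x ∈ T)).card = Nat.card T := by
    rw [Nat.card_eq_fintype_card, Fintype.card_subtype]
  have h1 := (tight_case hT hBT hBz (by rw [hc]; exact h2)).1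
  have h3 : 0 < Nat.card T := Nat.card_pos
  exact ⟨by omega, h1⟩

/-- The number `k` is not too large. -/
lemma k_lt {T : AddSubgroup G} {g : G} {k m : ℕ} {B E : Finset G}
    (hm : (shp T g k B E).card = m) (hm8 : 20 ≤ m) (hT6 : Nat.card T ≤ 6)
    (hH : ∀ j : ℕ, 1 ≤ j → j ≤ m ^ 2 / (2 * Nat.card T) → j • g ∉ T) :
    k + 1 ≤ m ^ 2 / (2 * Nat.card T) := by
  by_contra hcon
  push Not at hcon
  obtain ⟨H, hHd⟩ : ∃ H, H = m ^ 2 / (2 * Nat.card T) := ⟨_, rfl⟩
  rw [← hHd] at hcon hH
  have hTpos : 0 < Nat.card T := Nat.card_pos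
  have h1 := card_biUnion_cos' (n := H) hH le_rfl
  have h2 : (Icc 1 H).biUnion (cos' T g) ⊆ shp T g k B E := by
    intro x hx
    rw [mem_biUnion] at hx
    obtain ⟨i, hi, hx⟩ := hx
    rw [mem_Icc] at hi
    rw [mem_shp]
    exact Or.inl (Or.inr ⟨i, hi.1, by omega, mem_cos'.1 hx⟩)
  have h3 := card_le_card h2
  rw [h1, hm] at h3
  have h4 : m ^ 2 < 2 * Nat.card T * (H + 1) := by
    rw [hHd]; exact Nat.lt_mul_div_succ _ (by omega)
  have h5 : 2 * Nat.card T * (H + 1) = 2 * (H * Nat.card T) + 2 * Nat.card T := by ring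
  have h6 : 20 * m ≤ m ^ 2 := by rw [sq]; exact Nat.mul_le_mul_right _ hm8
  omega

/-- The shape is zero-sum-free with few sums. -/
theorem shape_good {T : AddSubgroup G} {g : G} {k : ℕ} {A B E : Finset G}
    (hAs : A = shp T g k B E) (hm8 : 20 ≤ A.card)
    (hB : ∀ x ∈ B, x ∈ T) (hBz : ZSF B) (h2 : 2 * B.card = Nat.card T)
    (hE : ∀ x ∈ E, x - (k + 1) • g ∈ T) (hE1 : E.card ≤ 1) (hE2 : E.card = 1 → Nat.card T = 2)
    (hH : ∀ j : ℕ, 1 ≤ j → j ≤ A.card ^ 2 / (2 * Nat.card T) → j • g ∉ T) :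
    ZSF A ∧ (SS A).card ≤ A.card ^ 2 / 2 + 2 ∧ A.card = B.card + k * (2 * B.card) + E.card := by
  classical
  obtain ⟨ha1, ha3⟩ := half_le hB hBz h2
  obtain ⟨m, hm⟩ : ∃ m, m = A.card := ⟨_, rfl⟩
  rw [← hm] at hm8 hH ⊢
  have hk := k_lt (T := T) (g := g) (k := k) (B := B) (E := E) (by rw [← hAs]; exact hm.symm) hm8
    (by omega) hH
  have hcard : m = B.card + k * (2 * B.card) + E.card := by
    rw [hm, hAs, card_shp hB hE hH hk, h2]
  have hnum := shp_num ha1 ha3 hE1 (fun h => by have := hE2 h; omega) hcard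
  rw [h2] at hnum
  have hsums := shp_sums hB hE hH hk
  have hle : ∀ S ⊆ A, ∑ x ∈ S, wt' T g x ≤ m ^ 2 / (2 * Nat.card T) := by
    intro S hS
    have h3 := (hsums S (by rw [← hAs]; exact hS)).2.2
    rw [hnum.1]
    have h4 : Nat.card T * (k * (k + 1)) + 2 * (E.card * (k + 1))
        = 2 * ((k + 1) * (B.card * k + E.card)) := by
      rw [← h2]; ring
    omega
  refine ⟨?_, ?_, hcard⟩
  · intro S hS h0
    obtain ⟨h3, h4, _⟩ := hsums S (by rw [← hAs]; exact hS)
    rw [h0, zero_sub, neg_mem_iff] at h3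
    have h5 : ∑ x ∈ S, wt' T g x = 0 := by
      by_contra hne
      exact hH _ (Nat.one_le_iff_ne_zero.2 hne) (hle S hS) h3
    have h6 : ∀ x ∈ S, wt' T g x = 0 := by
      intro x hx
      exact (sum_eq_zero_iff.1 h5) x hx
    exact hBz S (fun x hx => h4 x hx (h6 x hx)) h0
  · refine le_trans ?_ hnum.2
    have h3 : SS A ⊆ (range (m ^ 2 / (2 * Nat.card T) + 1)).biUnion (cos' T g) := by
      intro z hz
      obtain ⟨S, hS, rfl⟩ := mem_SS.1 hz
      rw [mem_biUnion]
      refine ⟨∑ x ∈ S, wt' T g x, ?_, ?_⟩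
      · rw [mem_range]
        exact Nat.lt_succ_of_le (hle S hS)
      · rw [mem_cos']
        exact (hsums S (by rw [← hAs]; exact hS)).1
    calc (SS A).card ≤ _ := card_le_card h3
      _ ≤ ∑ i ∈ range (m ^ 2 / (2 * Nat.card T) + 1), (cos' T g i).card := card_biUnion_le
      _ = (m ^ 2 / (2 * Nat.card T) + 1) * Nat.card T := by
        rw [sum_congr rfl fun i _ => card_cos' T g i, sum_const, card_range, smul_eq_mul]
      _ = Nat.card T * (m ^ 2 / (2 * Nat.card T) + 1) := by ring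

end

/-- Passing to the subgroup generated by `A`, with the embedding. -/
lemma exists_gen2 (K : Type u) [AddCommGroup K] [DecidableEq K] [Fintype K] (A : Finset K)
    (hA : ZSF A) : ∃ (K' : Type u) (_ : AddCommGroup K') (_ : DecidableEq K') (_ : Fintype K')
      (f : K' →+ K) (A' : Finset K'), Function.Injective f ∧ A'.image f = A ∧ ZSF A' ∧ Gn A' ∧
        A'.card = A.card ∧ (SS A').card = (SS A).card := by
  classical
  set H := AddSubgroup.closure (A : Set K) with hH
  set f : H →+ K := H.subtype with hf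
  have hinj : Function.Injective f := H.subtype_injective
  set A' : Finset H := A.preimage f (hinj.injOn) with hA'
  have himg : A'.image f = A := by
    rw [hA', image_preimage]
    ext z
    rw [mem_filter]
    constructor
    · exact fun h => h.1
    · intro h
      exact ⟨h, ⟨⟨z, AddSubgroup.subset_closure h⟩, rfl⟩⟩
  refine ⟨H, inferInstance, inferInstance, Fintype.ofFinite H, f, A', hinj, himg, ?_, ?_, ?_, ?_⟩
  · exact ZSF_of_image f hinj (by rw [himg]; exact hA)
  · intro S hS hAS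
    ext ⟨z, hz⟩
    simp only [mem_univ, iff_true]
    refine AddSubgroup.closure_induction (p := fun x hx => (⟨x, hx⟩ : H) ∈ S) ?_ ?_ ?_ ?_ hz
    · intro x hx
      apply hAS
      rw [hA', mem_preimage]
      exact hx
    · exact hS.zero
    · intro x y hx hy h1 h2
      exact hS.add h1 h2
    · intro x hx h1
      exact hS.neg h1
  · rw [← himg, card_image_of_injective _ hinj]
  · rw [← himg, SS_image f hinj, card_image_of_injective _ hinj]

/-- Extremal sets have the shape. -/
theorem good_shape : ∃ M0 : ℕ, ∀ (G : Type u) [AddCommGroup G] [DecidableEq G] [Fintype G]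
    (A : Finset G), ZSF A → M0 ≤ A.card → 2 * (SS A).card ≤ A.card ^ 2 + 4 →
    ∃ (T : AddSubgroup G) (g : G) (k : ℕ) (B E : Finset G),
      A = shp T g k B E ∧ (∀ x ∈ B, x ∈ T) ∧ ZSF B ∧ 2 * B.card = Nat.card T ∧
      (∀ x ∈ E, x - (k + 1) • g ∈ T) ∧ E.card ≤ 1 ∧ (E.card = 1 → Nat.card T = 2) ∧
      ∀ j : ℕ, 1 ≤ j → j ≤ A.card ^ 2 / (2 * Nat.card T) → j • g ∉ T := by
  classical
  obtain ⟨M0, hM0⟩ := inverse.{u} (1/4) (by norm_num) (by norm_num)
  refine ⟨max M0 20, fun G _ _ _ A hA hMA' hS => ?_⟩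
  have hMA : M0 ≤ A.card := (le_max_left _ _).trans hMA'
  have hMA2 : 20 ≤ A.card := (le_max_right _ _).trans hMA'
  have hSR : ((SS A).card : ℝ) ≤ (A.card : ℝ) ^ 2 / 2 + (1/2 - 1/4) * A.card + 1 := by
    have h1 : 2 * ((SS A).card : ℝ) ≤ (A.card : ℝ) ^ 2 + 4 := by exact_mod_cast hS
    have h2 : (20 : ℝ) ≤ A.card := by exact_mod_cast hMA2
    linarith
  obtain ⟨K, _, _, _, f, A', hinj, himg, hA', hG', hc, hs⟩ := exists_gen2 G A hA
  obtain ⟨ν, hν, ψ, hψ, h2, h3, -, hsg, htot, hlow⟩ :=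
    hM0 K A' hA' (by rw [hc]; exact hMA) hG' (by rw [hc, hs]; exact hSR)
  obtain ⟨k, r, hcard, hr1, hr2, hfull, hnext, htotk⟩ :=
    levels hψ hA' h2 h3 hsg hlow (by rw [hc, hs]; exact hS)
  obtain ⟨a, ha⟩ : ∃ a, a = (lev ψ A' 0).card := ⟨_, rfl⟩
  rw [← ha] at h2 h3 hcard hr2 htotk
  have hτpos : 0 < (fib ψ 0).card := card_pos.2 ⟨0, by rw [mem_fib, map_zero]⟩
  obtain ⟨g', hg'⟩ := hψ 1
  have hker : Nat.card ψ.ker = (fib ψ 0).card := by
    rw [Nat.card_eq_fintype_card, Fintype.card_subtype]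
    congr 1
    ext x
    rw [mem_filter, mem_fib, AddMonoidHom.mem_ker]
    simp
  have hT : Nat.card (ψ.ker.map f) = 2 * a := by
    rw [h2, ← hker]
    exact Nat.card_congr (ψ.ker.equivMapOfInjective f hinj).toEquiv.symm
  have hmemT : ∀ (x : K) (i : ℕ), f x - i • f g' ∈ ψ.ker.map f ↔ ψ x = (i : ZMod ν) := by
    intro x i
    rw [← map_nsmul, ← map_sub, AddSubgroup.mem_map_iff_mem hinj, AddMonoidHom.mem_ker, map_sub,
      map_nsmul, hg', sub_eq_zero, nsmul_one]
  -- the level `k + 1` has exactly `r` elements and there are no others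
  have hdisj : ∀ v w : ℕ, v ≠ w → Disjoint (lev ψ A' v) (lev ψ A' w) := by
    intro v w hvw
    rw [disjoint_left]
    intro x hx hx'
    rw [lev, mem_filter] at hx hx'
    omega
  have hU : (range (k + 2)).biUnion (lev ψ A') = A' := by
    apply eq_of_subset_of_card_le
    · intro x hx
      rw [mem_biUnion] at hx
      obtain ⟨i, _, hx⟩ := hx
      exact (mem_filter.1 hx).1
    · rw [card_biUnion (fun v _ w _ hvw => hdisj v w hvw), sum_range_succ, sum_range_succ']
      have h5 : ∑ i ∈ range k, (lev ψ A' (i + 1)).card = k * (2 * a) := by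
        rw [sum_congr rfl (g := fun _ => 2 * a), sum_const, card_range, smul_eq_mul]
        intro i hi
        rw [mem_range] at hi
        rw [hfull (i + 1) (by omega) (by omega), card_fib hψ, h2]
      rw [h5, ← ha, hcard]
      have h6 : 2 * a * k = k * (2 * a) := by ring
      omega
  have hEc : (lev ψ A' (k + 1)).card = r := by
    have h4 := congrArg Finset.card hU
    rw [card_biUnion (fun v _ w _ hvw => hdisj v w hvw), sum_range_succ, sum_range_succ'] at h4
    have h5 : ∑ i ∈ range k, (lev ψ A' (i + 1)).card = k * (2 * a) := by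
      rw [sum_congr rfl (g := fun _ => 2 * a), sum_const, card_range, smul_eq_mul]
      intro i hi
      rw [mem_range] at hi
      rw [hfull (i + 1) (by omega) (by omega), card_fib hψ, h2]
    rw [h5, ← ha, hcard] at h4
    have h6 : 2 * a * k = k * (2 * a) := by ring
    omega
  refine ⟨ψ.ker.map f, f g', k, (lev ψ A' 0).image f, (lev ψ A' (k + 1)).image f,
    ?_, ?_, ?_, ?_, ?_, ?_, ?_, ?_⟩
  · ext x
    rw [mem_shp]
    constructor
    · intro hx
      rw [← himg, mem_image] at hx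
      obtain ⟨y, hy, rfl⟩ := hx
      have hy' := hy
      rw [← hU, mem_biUnion] at hy'
      obtain ⟨i, hi, hyi⟩ := hy'
      rw [mem_range] at hi
      have h0 : i = 0 ∨ (1 ≤ i ∧ i ≤ k) ∨ i = k + 1 := by omega
      rcases h0 with h0 | h0 | h0
      · subst h0; exact Or.inl (Or.inl (mem_image_of_mem _ hyi))
      · left; right
        refine ⟨i, h0.1, h0.2, ?_⟩
        rw [hmemT]
        exact mem_fib.1 (lev_subset_fib hsg i hyi)
      · subst h0; exact Or.inr (mem_image_of_mem _ hyi)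
    · rintro ((h | ⟨i, hi1, hi2, h⟩) | h)
      · rw [← himg]
        exact image_subset_image (filter_subset _ _) h
      · obtain ⟨t, ht, htx⟩ := AddSubgroup.mem_map.1 h
        have hx : x = f (t + i • g') := by
          rw [map_add, htx, map_nsmul, sub_add_cancel]
        rw [hx, ← himg]
        apply mem_image_of_mem
        have h5 : t + i • g' ∈ fib ψ (i : ZMod ν) := by
          rw [mem_fib, map_add, map_nsmul, hg', AddMonoidHom.mem_ker.1 ht, zero_add, nsmul_one]
        rw [← hfull i hi1 hi2] at h5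
        exact (mem_filter.1 h5).1
      · rw [← himg]
        exact image_subset_image (filter_subset _ _) h
  · intro x hx
    rw [mem_image] at hx
    obtain ⟨y, hy, rfl⟩ := hx
    rw [AddSubgroup.mem_map_iff_mem hinj, AddMonoidHom.mem_ker]
    rw [lev, mem_filter, ht_eq_zero] at hy
    exact hy.2
  · exact hA.mono (by rw [← himg]; exact image_subset_image (filter_subset _ _))
  · rw [card_image_of_injective _ hinj, ← ha, hT]
  · intro x hx
    rw [mem_image] at hx
    obtain ⟨y, hy, rfl⟩ := hx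
    rw [hmemT]
    exact mem_fib.1 (lev_subset_fib hsg (k + 1) hy)
  · rw [card_image_of_injective _ hinj, hEc]; exact hr1
  · rw [card_image_of_injective _ hinj, hEc, hT]
    intro h
    have := hr2 h
    omega
  · intro j hj1 hj2 hjT
    rw [hT] at hj2
    have h5 := shp_num (a := a) (e := r) (k := k) (m := A.card) (by omega) h3 hr1 hr2 (by
      rw [← hc, hcard]; ring)
    rw [h5.1] at hj2
    have h6 := (hmemT 0 j)
    have h7 : ψ (j • g') = 0 := by
      have h8 : f (j • g') ∈ ψ.ker.map f := by rw [map_nsmul]; exact hjT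
      rw [AddSubgroup.mem_map_iff_mem hinj, AddMonoidHom.mem_ker] at h8
      exact h8
    rw [map_nsmul, hg', nsmul_one, ZMod.natCast_eq_zero_iff] at h7
    have h9 := Nat.le_of_dvd (by omega) h7
    omega

end Pool.Agent.Lib.MP_ee6709_co
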