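import Pool.Agent.Lib.MP_ee6709_co.Final1

/-!
# The counts, with a constant (MP_7710ee_co)

Copies of `count_general`, `count_tight` of `Lib/MP_ee6709_co` with the hypothesis
`2 |SS A| ≤ |A|² + C`.
-/

set_option linter.style.longLine false
set_option linter.unusedSectionVars false

namespace Pool.Agent.Lib.MP_ee6709_co

open Finset
open scoped Pointwise

universe u

lemma fin_num3C {m τ N c nL X S C : ℝ} (hCm : C ≤ m) (hm : 10 ≤ m) (hτ0 : 0 ≤ τ) (hc0 : 0 ≤ c)
    (hτ : τ ≤ 11/1000000 * m)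
    (hN : N ≤ 5/100000 * m) (hc : c * τ ≤ 10 * N + 10 * τ) (hnL : 99/100 * m ≤ nL)
    (hX : nL ^ 2 / 2 - 10 * (c * τ) ^ 2 ≤ X) (hS : 2 * S ≤ m ^ 2 + C) : S < 2 * X := by
  have h1 : c * τ ≤ 1/1000 * m := by linarith
  have h0 : 0 ≤ c * τ := by positivity
  have h2 : (c * τ) ^ 2 ≤ (1/1000 * m) ^ 2 := pow_le_pow_left₀ h0 h1 2
  have h3 : (99/100 * m) ^ 2 ≤ nL ^ 2 := pow_le_pow_left₀ (by linarith) hnL 2
  have h4 : (1/1000 * m) ^ 2 = 1/1000000 * m ^ 2 := by ring
  have h5 : (99/100 * m) ^ 2 = 9801/10000 * m ^ 2 := by ring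
  have h6 : 10 ^ 2 ≤ m ^ 2 := pow_le_pow_left₀ (by norm_num) hm 2
  have h7 : 10 * m ≤ m ^ 2 := by nlinarith
  rw [h4] at h2
  rw [h5] at h3
  linarith

lemma fin_num5 {W τ N c H Q X S : ℝ} (hcτ0 : 0 ≤ c * τ) (hc : c * τ ≤ 10 * N + 10 * τ)
    (hX : Q + H - 10 * (c * τ) ^ 2 ≤ X) (hXS : X ≤ S) (hH : W * N ≤ H) :
    Q + W * N - 2000 * N ^ 2 - 2000 * τ ^ 2 ≤ S := by
  have h2 : (c * τ) ^ 2 ≤ (10 * N + 10 * τ) ^ 2 := pow_le_pow_left₀ hcτ0 hc 2
  have h3 : (10 * N + 10 * τ) ^ 2 ≤ 200 * N ^ 2 + 200 * τ ^ 2 := by nlinarith [sq_nonneg (N - τ)]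
  linarith

section
variable {K : Type u} [AddCommGroup K] [DecidableEq K] [Fintype K]

/-- The general count. -/
theorem count_generalC (C : ℕ) {ν : ℕ} [NeZero ν] {ψ : K →+ ZMod ν} (hψ : Function.Surjective ψ)
    {A : Finset K} (hA : ZSF A) {L : ℕ} (hL : 100000 ≤ L)
    (hm10 : 10 ≤ A.card)
    (h1 : (1 - 1/50000) * (A.card : ℝ) ≤ (A.filter (fun x => ht (ψ x) ≤ L)).card)
    (h2 : ((fib ψ 0).card : ℝ) * L ≤ (1 + 1/50000) * A.card)
    (hCm : C ≤ A.card) (h3 : 2 * (SS A).card ≤ A.card ^ 2 + C) (ha : 2 * (lev ψ A 0).card ≤ (fib ψ 0).card)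
    {M : ℕ} (hM : M + (lev ψ A 0).card = A.card) {N : ℕ} (hN : N = ∑ v ∈ Icc 1 (L / 2), hole ψ A v) :
    ((M : ℝ) ^ 2 + (fib ψ 0).card * M) / 2 + 39/100 * A.card * N - 2000 * ((fib ψ 0).card : ℝ) ^ 2
      ≤ (SS A).card ∧
    ((M : ℝ) ^ 2 + (fib ψ 0).card * M) / 2 + (M - (fib ψ 0).card * L / 2) * N
      - 2000 * (N : ℝ) ^ 2 - 2000 * ((fib ψ 0).card : ℝ) ^ 2 ≤ (SS A).card := by
  have hτpos : 0 < (fib ψ 0).card := card_pos.2 ⟨0, by rw [mem_fib, map_zero]⟩
  have hLcount := holes_count hψ hA L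
  have hNle : N ≤ ∑ v ∈ Icc 1 L, hole ψ A v := by
    rw [hN]
    apply sum_le_sum_of_subset
    intro v hv
    rw [mem_Icc] at *
    omega
  -- real versions
  have hτ1 : (1 : ℝ) ≤ (fib ψ 0).card := by exact_mod_cast hτpos
  have hL' : (100000 : ℝ) ≤ L := by exact_mod_cast hL
  have hm' : (10 : ℝ) ≤ A.card := by exact_mod_cast hm10
  have hmpos : (0 : ℝ) < A.card := by linarith
  have ha' : 2 * ((lev ψ A 0).card : ℝ) ≤ (fib ψ 0).card := by exact_mod_cast ha
  obtain ⟨hτsmall, hasmall⟩ := fin_num1 hmpos h2 hL' (by linarith) ha'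
  have hNnn : (0 : ℝ) ≤ N := Nat.cast_nonneg _
  have hNsmall : (N : ℝ) ≤ 5/100000 * A.card := by
    have e1 : (A.filter (fun x => ht (ψ x) ≤ L)).card + N
      ≤ (lev ψ A 0).card + (fib ψ 0).card * L := by omega
    have e2 : ((A.filter (fun x => ht (ψ x) ≤ L)).card : ℝ) + N
      ≤ (lev ψ A 0).card + (fib ψ 0).card * L := by exact_mod_cast e1
    linarith
  have hAL : ((A.filter (fun x => ht (ψ x) ≤ L)).card : ℝ) ≤ (lev ψ A 0).card + (fib ψ 0).card * L := by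
    have e1 : (A.filter (fun x => ht (ψ x) ≤ L)).card ≤ (lev ψ A 0).card + (fib ψ 0).card * L := by omega
    exact_mod_cast e1
  -- c
  obtain ⟨c, hc⟩ : ∃ c : ℕ, c = 10 * N / (fib ψ 0).card + 10 := ⟨_, rfl⟩
  have hc10 : 10 ≤ c := by rw [hc]; exact Nat.le_add_left _ _
  have hcτ1 : c * (fib ψ 0).card ≤ 10 * N + 10 * (fib ψ 0).card := by
    rw [hc, add_mul]
    have := Nat.div_mul_le_self (10 * N) (fib ψ 0).card
    omega
  have hcτ2 : 10 * N + 9 * (fib ψ 0).card < c * (fib ψ 0).card := by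
    rw [hc]
    have h := Nat.lt_div_mul_add (a := 10 * N) hτpos
    have e : (10 * N / (fib ψ 0).card + 10) * (fib ψ 0).card
      = 10 * N / (fib ψ 0).card * (fib ψ 0).card + 10 * (fib ψ 0).card := by ring
    rw [e]
    omega
  have hcτ1' : (c : ℝ) * (fib ψ 0).card ≤ 10 * N + 10 * (fib ψ 0).card := by exact_mod_cast hcτ1
  have h32 : 32 * c ≤ L := by
    have := fin_num2 hmpos hL' hτ1 h1 hAL ha' hNsmall hcτ1'
    exact_mod_cast this
  have h10N : 10 * N ≤ c * (fib ψ 0).card := by omega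
  -- seeds
  have hseedN : ∑ v ∈ Icc 1 (4 * c), hole ψ A v ≤ N := by
    rw [hN]
    apply sum_le_sum_of_subset
    intro v hv
    rw [mem_Icc] at *
    omega
  have hseedc : 2 * N < (c - 2) * (fib ψ 0).card := by
    have e : (c - 2) * (fib ψ 0).card + 2 * (fib ψ 0).card = c * (fib ψ 0).card := by
      rw [← add_mul]; congr 1; omega
    omega
  obtain ⟨w, hw⟩ := seeds hψ hA hseedN hseedc
  obtain ⟨Z, hZ⟩ : ∃ Z, Z = A.filter (fun y => 1 ≤ ht (ψ y) ∧ ht (ψ y) ≤ 4 * c) := ⟨_, rfl⟩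
  rw [← hZ] at hw
  have hZA : Z ⊆ A := by rw [hZ]; exact filter_subset _ _
  have htotZ : tot ψ Z ≤ 10 * (fib ψ 0).card * c ^ 2 := by
    rw [hZ]; exact tot_seeds hψ hA c (by omega)
  -- y0
  have hy0 : ∃ y0 ∈ A, 4 * c < ht (ψ y0) ∧ ht (ψ y0) ≤ 5 * c := by
    by_contra hcon
    push Not at hcon
    have h4 := tot_low hψ hA (l := 4 * c) (t := 5 * c + 1) (L' := L / 2) (N := N) (by omega) (by omega)
      (by rw [hN])
    have h5 : A.filter (fun y => 4 * c < ht (ψ y) ∧ ht (ψ y) < 5 * c + 1) = ∅ := by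
      rw [filter_eq_empty_iff]
      rintro y hy ⟨h6, h7⟩
      have := hcon y hy h6
      omega
    rw [h5, tot, sum_empty, zero_add] at h4
    have h6 : (5 * c + 1 - 1 - 4 * c) * (fib ψ 0).card ≤ N := Nat.le_of_mul_le_mul_left h4 (by omega)
    have h7 : 5 * c + 1 - 1 - 4 * c = c := by omega
    rw [h7] at h6
    omega
  obtain ⟨y0, hy0A, hy01, hy02⟩ := hy0
  obtain ⟨F, hF⟩ : ∃ F, F = (A.filter (fun y => 4 * c < ht (ψ y))).erase y0 := ⟨_, rfl⟩
  have hFA : F ⊆ A := by rw [hF]; exact (erase_subset _ _).trans (filter_subset _ _)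
  have hFmem : ∀ y, y ∈ F ↔ y ≠ y0 ∧ y ∈ A ∧ 4 * c < ht (ψ y) := by
    intro y; rw [hF, mem_erase, mem_filter]
  have hZF : Disjoint Z F := by
    rw [disjoint_left]
    intro y hy hy'
    rw [hZ, mem_filter] at hy
    rw [hFmem] at hy'
    omega
  have hy0Z : y0 ∉ Z := by rw [hZ, mem_filter]; omega
  have hy0F : y0 ∉ F := by rw [hFmem]; tauto
  have hcond : ∀ y ∈ F, ht (ψ y) ≤ L →
      ht (ψ y) ≤ 5 * c + tot ψ (F.filter (fun y' => ht (ψ y') < ht (ψ y))) := by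
    intro y hy hyL
    by_cases h5c : ht (ψ y) ≤ 5 * c
    · omega
    · push Not at h5c
      obtain ⟨t, ht0⟩ : ∃ t, t = min (ht (ψ y)) (L / 2 + 1) := ⟨_, rfl⟩
      have ht1 : t ≤ ht (ψ y) := by rw [ht0]; exact min_le_left _ _
      have ht2 : t ≤ L / 2 + 1 := by rw [ht0]; exact min_le_right _ _
      have ht3 : 5 * c + 1 ≤ t := by rw [ht0]; exact le_min (by omega) (by omega)
      have h4 := tot_low hψ hA (l := 4 * c) (t := t) (L' := L / 2) (N := N) (by omega) ht2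
        (by rw [hN])
      obtain ⟨k, hk⟩ : ∃ k, k = t - 1 - 4 * c := ⟨_, rfl⟩
      rw [← hk] at h4
      have h5 := cond_nat hc10 hτpos (by omega : c ≤ k) h10N h4
      have h6 : tot ψ (A.filter (fun y' => 4 * c < ht (ψ y') ∧ ht (ψ y') < t))
          ≤ tot ψ (F.filter (fun y' => ht (ψ y') < ht (ψ y))) + ht (ψ y0) := by
        rw [← tot_singleton ψ y0]
        refine le_trans (tot_mono ψ ?_) (tot_union_le ψ _ _)
        intro x hx
        rw [mem_filter] at hx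
        rw [mem_union, mem_filter, mem_singleton, hFmem]
        by_cases hxy : x = y0
        · right; exact hxy
        · left; exact ⟨⟨hxy, hx.1, hx.2.1⟩, by omega⟩
      rcases min_choice (ht (ψ y)) (L / 2 + 1) with h7 | h7
      · rw [← ht0] at h7
        omega
      · rw [← ht0] at h7
        omega
  -- big
  have hLsplit : tot ψ (A.filter (fun x => ht (ψ x) ≤ L)) ≤
      tot ψ Z + (tot ψ (F.filter (fun y' => ht (ψ y') ≤ L)) + ht (ψ y0)) := by
    have hz : tot ψ (A.filter (fun x => ht (ψ x) ≤ L))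
        ≤ tot ψ ((A.filter (fun x => ht (ψ x) ≤ L)).filter (fun x => 1 ≤ ht (ψ x))) := by
      rw [tot, tot, sum_filter (s := A.filter (fun x => ht (ψ x) ≤ L))]
      apply sum_le_sum
      intro x _
      split_ifs with h
      · exact le_refl _
      · omega
    refine hz.trans ?_
    rw [← tot_singleton ψ y0]
    refine le_trans (tot_mono ψ ?_) ((tot_union_le ψ Z _).trans (Nat.add_le_add_left (tot_union_le ψ _ _) _))
    intro x hx
    rw [mem_filter, mem_filter] at hx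
    rw [mem_union, mem_union, mem_filter, mem_singleton, hFmem, hZ, mem_filter]
    by_cases hxy : x = y0
    · right; right; exact hxy
    · by_cases hx4 : ht (ψ x) ≤ 4 * c
      · left; exact ⟨hx.1.1, hx.2, hx4⟩
      · right; left; exact ⟨⟨hxy, hx.1.1, by omega⟩, hx.1.2⟩
  have hseedsq : ((tot ψ Z : ℕ) : ℝ) * (fib ψ 0).card ≤ 10 * ((c : ℝ) * (fib ψ 0).card) ^ 2 := by
    have e1 : ((tot ψ Z : ℕ) : ℝ) ≤ 10 * (fib ψ 0).card * (c : ℝ) ^ 2 := by exact_mod_cast htotZ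
    calc ((tot ψ Z : ℕ) : ℝ) * (fib ψ 0).card ≤ (10 * (fib ψ 0).card * (c : ℝ) ^ 2) * (fib ψ 0).card :=
          mul_le_mul_of_nonneg_right e1 (by linarith)
      _ = _ := by ring
  have hbig : (SS A).card < 2 * ((fib ψ 0).card * (5 * c + tot ψ (F.filter (fun y' => ht (ψ y') ≤ L)))) := by
    obtain ⟨nL, hnL⟩ : ∃ nL : ℕ, nL + (lev ψ A 0).card = (A.filter (fun x => ht (ψ x) ≤ L)).card := by
      refine ⟨(A.filter (fun x => ht (ψ x) ≤ L)).card - (lev ψ A 0).card, Nat.sub_add_cancel ?_⟩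
      apply card_le_card
      intro x hx
      rw [lev, mem_filter] at hx
      rw [mem_filter]; exact ⟨hx.1, by omega⟩
    have h4 := low_sq hψ hA L hnL
    have hnL' : (nL : ℝ) + (lev ψ A 0).card = (A.filter (fun x => ht (ψ x) ≤ L)).card := by
      exact_mod_cast hnL
    have h5 : ((tot ψ (A.filter (fun x => ht (ψ x) ≤ L)) : ℕ) : ℝ) ≤
        tot ψ Z + (5 * c + tot ψ (F.filter (fun y' => ht (ψ y') ≤ L))) := by
      have : tot ψ (A.filter (fun x => ht (ψ x) ≤ L)) ≤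
        tot ψ Z + (5 * c + tot ψ (F.filter (fun y' => ht (ψ y') ≤ L))) := by omega
      exact_mod_cast this
    have h6 : (nL : ℝ) ^ 2 / 2 - 10 * ((c : ℝ) * (fib ψ 0).card) ^ 2 ≤
        (fib ψ 0).card * (5 * c + tot ψ (F.filter (fun y' => ht (ψ y') ≤ L))) := by
      have h7 := mul_le_mul_of_nonneg_left h5 (by linarith : (0 : ℝ) ≤ (fib ψ 0).card)
      linarith
    have h8 := fin_num3C (C := C) (by exact_mod_cast hCm) (m := A.card) (nL := nL) hm' (by linarith) (Nat.cast_nonneg c) hτsmall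
      hNsmall hcτ1' (by linarith) h6 (S := (SS A).card) (by exact_mod_cast h3)
    exact_mod_cast h8
  obtain ⟨w', hw'⟩ := proc hψ hZA hFA hZF hw hcond hbig
  -- the window is shorter than ν
  have hqν : 5 * c + tot ψ F < ν := by
    by_contra hcon
    push Not at hcon
    have h4 := hw'.eq_univ hcon
    have h5 : -y0 ∉ SS (Z ∪ F) := hA.neg_notMem hy0A (union_subset hZA hFA) (by
      rw [mem_union, not_or]; exact ⟨hy0Z, hy0F⟩)
    apply h5
    rw [h4]; exact mem_univ _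
  have hcardw := hw'.card hψ hqν.le
  have hfin : (fib ψ 0).card * (5 * c + tot ψ F) ≤ (SS A).card :=
    hcardw.trans (card_le_card (SS_mono (union_subset hZA hFA)))
  -- total
  have htotA : tot ψ A ≤ tot ψ Z + (tot ψ F + ht (ψ y0)) := by
    have hz : tot ψ A ≤ tot ψ (A.filter (fun x => 1 ≤ ht (ψ x))) := by
      rw [tot, tot, sum_filter]
      apply sum_le_sum
      intro x _
      split_ifs with h
      · exact le_refl _
      · omega
    refine hz.trans ?_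
    rw [← tot_singleton ψ y0]
    refine le_trans (tot_mono ψ ?_) ((tot_union_le ψ Z _).trans (Nat.add_le_add_left (tot_union_le ψ _ _) _))
    intro x hx
    rw [mem_filter] at hx
    rw [mem_union, mem_union, mem_singleton, hFmem, hZ, mem_filter]
    by_cases hxy : x = y0
    · right; right; exact hxy
    · by_cases hx4 : ht (ψ x) ≤ 4 * c
      · left; exact ⟨hx.1, hx.2, hx4⟩
      · right; left; exact ⟨hxy, hx.1, by omega⟩
  obtain ⟨k, hk⟩ : ∃ k : ℕ, k = M / (fib ψ 0).card := ⟨_, rfl⟩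
  have hsq := tot_sq hψ hA hM hk
  -- holes part
  have hM' : (M : ℝ) + (lev ψ A 0).card = A.card := by exact_mod_cast hM
  have hk1 : (M : ℝ) ≤ (fib ψ 0).card * (k + 1) := by
    have e : M < (fib ψ 0).card * (M / (fib ψ 0).card + 1) := Nat.lt_mul_div_succ M hτpos
    rw [← hk] at e
    exact_mod_cast e.le
  have hL2 : ((L / 2 : ℕ) : ℝ) ≤ L / 2 := Nat.cast_div_le
  have hkL : 49/100 * (A.card : ℝ) ≤ (fib ψ 0).card * ((k : ℝ) + 1 - (L / 2 : ℕ)) := by
    have e1 : ((fib ψ 0).card : ℝ) * (L / 2 : ℕ) ≤ (fib ψ 0).card * (L / 2) :=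
      mul_le_mul_of_nonneg_left hL2 (by linarith)
    have e2 : ((fib ψ 0).card : ℝ) * (L / 2) = (fib ψ 0).card * L / 2 := by ring
    have e3 : ((fib ψ 0).card : ℝ) * ((k : ℝ) + 1 - (L / 2 : ℕ))
      = (fib ψ 0).card * (k + 1) - (fib ψ 0).card * (L / 2 : ℕ) := by ring
    rw [e3]
    linarith
  have hkge : L / 2 ≤ k := by
    by_contra hcon
    push Not at hcon
    have e1 : ((k : ℝ) + 1) ≤ (L / 2 : ℕ) := by exact_mod_cast hcon
    have e2 : ((fib ψ 0).card : ℝ) * ((k : ℝ) + 1 - (L / 2 : ℕ)) ≤ 0 :=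
      mul_nonpos_of_nonneg_of_nonpos (by linarith) (by linarith)
    linarith
  have hholes : ((k : ℝ) + 1 - (L / 2 : ℕ)) * N ≤ ∑ v ∈ Icc 1 k, ((k : ℝ) + 1 - v) * hole ψ A v := by
    have e1 : ∑ v ∈ Icc 1 (L / 2), ((k : ℝ) + 1 - v) * hole ψ A v
        ≤ ∑ v ∈ Icc 1 k, ((k : ℝ) + 1 - v) * hole ψ A v := by
      apply sum_le_sum_of_subset_of_nonneg
      · intro v hv
        rw [mem_Icc] at *
        omega
      · intro v hv _
        rw [mem_Icc] at hv
        apply mul_nonneg _ (Nat.cast_nonneg _)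
        have : (v : ℝ) ≤ k := by exact_mod_cast hv.2
        linarith
    refine le_trans ?_ e1
    rw [hN, Nat.cast_sum, mul_sum]
    apply sum_le_sum
    intro v hv
    rw [mem_Icc] at hv
    apply mul_le_mul_of_nonneg_right _ (Nat.cast_nonneg _)
    have : (v : ℝ) ≤ (L / 2 : ℕ) := by exact_mod_cast hv.2
    linarith
  have hHN : 49/100 * (A.card : ℝ) * N ≤
      (fib ψ 0).card * ∑ v ∈ Icc 1 k, ((k : ℝ) + 1 - v) * hole ψ A v := by
    calc 49/100 * (A.card : ℝ) * N ≤ ((fib ψ 0).card * ((k : ℝ) + 1 - (L / 2 : ℕ))) * N :=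
          mul_le_mul_of_nonneg_right hkL hNnn
      _ = (fib ψ 0).card * (((k : ℝ) + 1 - (L / 2 : ℕ)) * N) := by ring
      _ ≤ _ := mul_le_mul_of_nonneg_left hholes (by linarith)
  have hHN' : ((M : ℝ) - (fib ψ 0).card * L / 2) * N ≤
      (fib ψ 0).card * ∑ v ∈ Icc 1 k, ((k : ℝ) + 1 - v) * hole ψ A v := by
    have f1 : (M : ℝ) - (fib ψ 0).card * L / 2 ≤ (fib ψ 0).card * ((k : ℝ) + 1 - (L / 2 : ℕ)) := by
      have e1 : ((fib ψ 0).card : ℝ) * (L / 2 : ℕ) ≤ (fib ψ 0).card * (L / 2) :=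
        mul_le_mul_of_nonneg_left hL2 (by linarith)
      have e2 : ((fib ψ 0).card : ℝ) * (L / 2) = (fib ψ 0).card * L / 2 := by ring
      have e3 : ((fib ψ 0).card : ℝ) * ((k : ℝ) + 1 - (L / 2 : ℕ))
        = (fib ψ 0).card * (k + 1) - (fib ψ 0).card * (L / 2 : ℕ) := by ring
      rw [e3]
      linarith
    calc ((M : ℝ) - (fib ψ 0).card * L / 2) * N
        ≤ ((fib ψ 0).card * ((k : ℝ) + 1 - (L / 2 : ℕ))) * N :=
          mul_le_mul_of_nonneg_right f1 hNnn
      _ = (fib ψ 0).card * (((k : ℝ) + 1 - (L / 2 : ℕ)) * N) := by ring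
      _ ≤ _ := mul_le_mul_of_nonneg_left hholes (by linarith)
  have hXX : ((M : ℝ) ^ 2 + (fib ψ 0).card * M) / 2 +
      (fib ψ 0).card * ∑ v ∈ Icc 1 k, ((k : ℝ) + 1 - v) * hole ψ A v
      - 10 * ((c : ℝ) * (fib ψ 0).card) ^ 2 ≤ (fib ψ 0).card * (5 * c + tot ψ F) := by
    have e1 : ((tot ψ A : ℕ) : ℝ) ≤ tot ψ Z + (5 * c + tot ψ F) := by
      have : tot ψ A ≤ tot ψ Z + (5 * c + tot ψ F) := by omega
      exact_mod_cast this
    have e2 := mul_le_mul_of_nonneg_left e1 (by linarith : (0 : ℝ) ≤ (fib ψ 0).card)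
    linarith
  exact ⟨fin_num4 (Q := ((M : ℝ) ^ 2 + (fib ψ 0).card * M) / 2)
    (X := (fib ψ 0).card * (5 * c + tot ψ F)) hNnn (by linarith) (Nat.cast_nonneg c) hNsmall hcτ1'
    hXX (by exact_mod_cast hfin) hHN,
    fin_num5 (Q := ((M : ℝ) ^ 2 + (fib ψ 0).card * M) / 2)
    (X := (fib ψ 0).card * (5 * c + tot ψ F)) (by positivity) hcτ1' hXX (by exact_mod_cast hfin)
    hHN'⟩

/-- The count in the tight case without holes. -/
theorem count_tightC (C : ℕ) {ν : ℕ} [NeZero ν] {ψ : K →+ ZMod ν} (hψ : Function.Surjective ψ)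
    {A : Finset K} (hA : ZSF A) {L : ℕ} (hL : 100000 ≤ L)
    (hm10 : 10 ≤ A.card)
    (h1 : (1 - 1/50000) * (A.card : ℝ) ≤ (A.filter (fun x => ht (ψ x) ≤ L)).card)
    (h2 : ((fib ψ 0).card : ℝ) * L ≤ (1 + 1/50000) * A.card)
    (hCm : C ≤ A.card) (h3 : 2 * (SS A).card ≤ A.card ^ 2 + C) (ha : 2 * (lev ψ A 0).card = (fib ψ 0).card)
    (hN : ∑ v ∈ Icc 1 (L / 2), hole ψ A v = 0)
    (hSS : SS (lev ψ A 0) = fib ψ 0) :
    ∃ y0 ∈ A, ht (ψ y0) = 1 ∧ tot ψ A < ν ∧ (∃ w : ZMod ν, Win ψ (SS (A.erase y0)) w (tot ψ A)) ∧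
      (fib ψ 0).card * (tot ψ A + 1) ≤ (SS A).card := by
  have hτpos : 0 < (fib ψ 0).card := card_pos.2 ⟨0, by rw [mem_fib, map_zero]⟩
  have hτ2 : 2 ≤ (fib ψ 0).card := by omega
  -- real versions
  have hτ1 : (1 : ℝ) ≤ (fib ψ 0).card := by exact_mod_cast hτpos
  have hL' : (100000 : ℝ) ≤ L := by exact_mod_cast hL
  have hm' : (10 : ℝ) ≤ A.card := by exact_mod_cast hm10
  have hmpos : (0 : ℝ) < A.card := by linarith
  have ha' : 2 * ((lev ψ A 0).card : ℝ) ≤ (fib ψ 0).card := by exact_mod_cast ha.le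
  obtain ⟨hτsmall, hasmall⟩ := fin_num1 hmpos h2 hL' (by linarith) ha'
  -- start
  obtain ⟨Z, hZ⟩ : ∃ Z, Z = lev ψ A 0 := ⟨_, rfl⟩
  rw [← hZ] at hSS
  have hw : Win ψ (SS Z) (0 : ZMod ν) 1 := by
    intro i hi
    have : i = 0 := by omega
    subst this
    rw [Nat.cast_zero, add_zero, hSS]
  have hZA : Z ⊆ A := by rw [hZ]; exact filter_subset _ _
  -- y0
  have hy0 : ∃ y0 ∈ A, ht (ψ y0) = 1 := by
    by_contra hcon
    push Not at hcon
    have h4 : lev ψ A 1 = ∅ := by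
      rw [lev, filter_eq_empty_iff]
      exact hcon
    have h5 := hole_add hψ hA 1
    rw [h4, card_empty, add_zero] at h5
    have h6 : hole ψ A 1 ≤ ∑ v ∈ Icc 1 (L / 2), hole ψ A v :=
      single_le_sum (f := fun v => hole ψ A v) (fun _ _ => Nat.zero_le _) (by rw [mem_Icc]; omega)
    omega
  obtain ⟨y0, hy0A, hy01⟩ := hy0
  obtain ⟨F, hF⟩ : ∃ F, F = (A.filter (fun y => 1 ≤ ht (ψ y))).erase y0 := ⟨_, rfl⟩
  have hFA : F ⊆ A := by rw [hF]; exact (erase_subset _ _).trans (filter_subset _ _)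
  have hFmem : ∀ y, y ∈ F ↔ y ≠ y0 ∧ y ∈ A ∧ 1 ≤ ht (ψ y) := by
    intro y; rw [hF, mem_erase, mem_filter]
  have hZF : Disjoint Z F := by
    rw [disjoint_left]
    intro y hy hy'
    rw [hZ, lev, mem_filter] at hy
    rw [hFmem] at hy'
    omega
  have hy0Z : y0 ∉ Z := by rw [hZ, lev, mem_filter]; omega
  have hy0F : y0 ∉ F := by rw [hFmem]; tauto
  have hcond : ∀ y ∈ F, ht (ψ y) ≤ L →
      ht (ψ y) ≤ 1 + tot ψ (F.filter (fun y' => ht (ψ y') < ht (ψ y))) := by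
    intro y hy hyL
    by_cases hy1 : ht (ψ y) ≤ 1
    · omega
    · push Not at hy1
      by_cases hy2 : ht (ψ y) ≤ L / 2 + 1
      · have h4 := tot_low hψ hA (l := 0) (t := ht (ψ y)) (L' := L / 2) (N := 0) (by omega) hy2 hN.le
        have h6 : tot ψ (A.filter (fun y' => 0 < ht (ψ y') ∧ ht (ψ y') < ht (ψ y)))
            ≤ tot ψ (F.filter (fun y' => ht (ψ y') < ht (ψ y))) + ht (ψ y0) := by
          rw [← tot_singleton ψ y0]
          refine le_trans (tot_mono ψ ?_) (tot_union_le ψ _ _)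
          intro x hx
          rw [mem_filter] at hx
          rw [mem_union, mem_filter, mem_singleton, hFmem]
          by_cases hxy : x = y0
          · right; exact hxy
          · left; exact ⟨⟨hxy, hx.1, hx.2.1⟩, hx.2.2⟩
        have h7 : (ht (ψ y) - 1) * 2 ≤ (ht (ψ y) - 1) * (fib ψ 0).card := Nat.mul_le_mul_left _ hτ2
        simp only [Nat.sub_zero, zero_add, one_mul, mul_zero, add_zero] at h4
        omega
      · push Not at hy2
        have h4 := tot_low hψ hA (l := 1) (t := L / 2 + 1) (L' := L / 2) (N := 0) (by omega) (by omega) hN.le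
        have h6 : tot ψ (A.filter (fun y' => 1 < ht (ψ y') ∧ ht (ψ y') < L / 2 + 1))
            ≤ tot ψ (F.filter (fun y' => ht (ψ y') < ht (ψ y))) := by
          apply tot_mono
          intro x hx
          rw [mem_filter] at hx
          rw [mem_filter, hFmem]
          refine ⟨⟨?_, hx.1, by omega⟩, by omega⟩
          intro hxy
          rw [hxy] at hx
          omega
        have h7 : (L / 2 + 1 - 1 - 1) * 2 ≤ (L / 2 + 1 - 1 - 1) * (fib ψ 0).card := Nat.mul_le_mul_left _ hτ2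
        omega
  -- big
  have hLsplit : tot ψ (A.filter (fun x => ht (ψ x) ≤ L)) ≤
      1 + tot ψ (F.filter (fun y' => ht (ψ y') ≤ L)) := by
    have hz : tot ψ (A.filter (fun x => ht (ψ x) ≤ L))
        ≤ tot ψ ((A.filter (fun x => ht (ψ x) ≤ L)).filter (fun x => 1 ≤ ht (ψ x))) := by
      rw [tot, tot, sum_filter (s := A.filter (fun x => ht (ψ x) ≤ L))]
      apply sum_le_sum
      intro x _
      split_ifs with h
      · exact le_refl _
      · omega
    have hun := tot_union_le ψ ({y0} : Finset K) (F.filter (fun y' => ht (ψ y') ≤ L))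
    rw [tot_singleton, hy01] at hun
    refine hz.trans (le_trans (tot_mono ψ ?_) hun)
    intro x hx
    rw [mem_filter, mem_filter] at hx
    rw [mem_union, mem_filter, mem_singleton, hFmem]
    by_cases hxy : x = y0
    · left; exact hxy
    · right; exact ⟨⟨hxy, hx.1.1, hx.2⟩, hx.1.2⟩
  have hbig : (SS A).card < 2 * ((fib ψ 0).card * (1 + tot ψ (F.filter (fun y' => ht (ψ y') ≤ L)))) := by
    obtain ⟨nL, hnL⟩ : ∃ nL : ℕ, nL + (lev ψ A 0).card = (A.filter (fun x => ht (ψ x) ≤ L)).card := by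
      refine ⟨(A.filter (fun x => ht (ψ x) ≤ L)).card - (lev ψ A 0).card, Nat.sub_add_cancel ?_⟩
      apply card_le_card
      intro x hx
      rw [lev, mem_filter] at hx
      rw [mem_filter]; exact ⟨hx.1, by omega⟩
    have h4 := low_sq hψ hA L hnL
    have hnL' : (nL : ℝ) + (lev ψ A 0).card = (A.filter (fun x => ht (ψ x) ≤ L)).card := by
      exact_mod_cast hnL
    have h5 : ((tot ψ (A.filter (fun x => ht (ψ x) ≤ L)) : ℕ) : ℝ) ≤
        1 + tot ψ (F.filter (fun y' => ht (ψ y') ≤ L)) := by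
      exact_mod_cast hLsplit
    have h6 : (nL : ℝ) ^ 2 / 2 - 10 * (((0 : ℕ) : ℝ) * (fib ψ 0).card) ^ 2 ≤
        (fib ψ 0).card * (1 + tot ψ (F.filter (fun y' => ht (ψ y') ≤ L))) := by
      have h7 := mul_le_mul_of_nonneg_left h5 (by linarith : (0 : ℝ) ≤ (fib ψ 0).card)
      rw [Nat.cast_zero, zero_mul]
      linarith
    have h8 := fin_num3C (C := C) (by exact_mod_cast hCm) (m := A.card) (nL := nL) (N := 0) (c := ((0 : ℕ) : ℝ)) hm' (by linarith)
      (Nat.cast_nonneg 0) hτsmall (by linarith) (by rw [Nat.cast_zero, zero_mul]; linarith)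
      (by linarith) h6 (S := (SS A).card) (by exact_mod_cast h3)
    exact_mod_cast h8
  obtain ⟨w', hw'⟩ := proc hψ hZA hFA hZF hw hcond hbig
  -- the total
  have htotA : tot ψ A = 1 + tot ψ F := by
    have hz : tot ψ A = tot ψ (A.filter (fun x => 1 ≤ ht (ψ x))) := by
      rw [tot, tot, sum_filter]
      apply sum_congr rfl
      intro x _
      split_ifs with h
      · rfl
      · omega
    rw [hz, hF, tot, tot, add_comm, ← hy01]
    exact (sum_erase_add _ _ (by rw [mem_filter]; exact ⟨hy0A, by omega⟩)).symm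
  rw [← htotA] at hw'
  have hqν : tot ψ A < ν := by
    by_contra hcon
    push Not at hcon
    have h4 := hw'.eq_univ hcon
    have h5 : -y0 ∉ SS (Z ∪ F) := hA.neg_notMem hy0A (union_subset hZA hFA) (by
      rw [mem_union, not_or]; exact ⟨hy0Z, hy0F⟩)
    apply h5
    rw [h4]; exact mem_univ _
  -- add y0
  obtain ⟨w'', hw''⟩ := hw'.add (y := y0) (by omega)
  have hnot : y0 ∉ Z ∪ F := by rw [mem_union, not_or]; exact ⟨hy0Z, hy0F⟩
  rw [← SS_insert hnot, hy01] at hw''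
  have hcardw := hw''.card hψ (by omega)
  have hfin : (fib ψ 0).card * (tot ψ A + 1) ≤ (SS A).card :=
    hcardw.trans (card_le_card (SS_mono (insert_subset hy0A (union_subset hZA hFA))))
  have hZFe : Z ∪ F = A.erase y0 := by
    ext x
    rw [mem_union, hFmem, mem_erase, hZ, lev, mem_filter]
    constructor
    · rintro (h | h)
      · refine ⟨?_, h.1⟩
        intro hx
        rw [hx] at h
        omega
      · exact ⟨h.1, h.2.1⟩
    · rintro ⟨h, h'⟩
      by_cases hx : ht (ψ x) = 0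
      · exact Or.inl ⟨h', hx⟩
      · exact Or.inr ⟨h, h', by omega⟩
  rw [hZFe] at hw'
  exact ⟨y0, hy0A, hy01, hqν, ⟨w', hw'⟩, hfin⟩

end

end Pool.Agent.Lib.MP_ee6709_co
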