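import Pool.Agent.Lib.MP_ee6709_co.Defs
import Pool.Agent.Lib.MP_ee6709_co.Example

/-!
# MP_7710ee_co: cyclic groups attain `f(m)` for all large `m`

`rhoZ G m` is `ρ(G, m)` and `f m` is its minimum over all finite abelian groups (see `Defs.lean`).
In `m ^ 2 / 2` the division is the floor division of natural numbers.
-/

namespace Pool.Agent.Results.MP_7710ee_co.CyclicForLarge

open Pool.Agent.Lib.MP_ee6709_co

/-- There is `M` such that `f(m) = ρ(ℤ_n, m)` with `n = ⌊m²/2⌋ + 2` for every `m ≥ M`. -/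
theorem result : ∃ M : ℕ, ∀ m : ℕ, M ≤ m → f m = rhoZ (ZMod (m ^ 2 / 2 + 2)) m :=
  cyclic_attains'

end Pool.Agent.Results.MP_7710ee_co.CyclicForLarge
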