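import Pool.Agent.Lib.MP_7710ee_inv.Inverse

/-!
# The extremal sets, generating case (MP_7710ee_co)
-/

set_option linter.style.longLine false
set_option linter.unusedSectionVars false

namespace Pool.Agent.Lib.MP_ee6709_co

open Finset
open scoped Pointwise

universe u

/-- Numerical form of the exact count. -/
lemma ext_num {a k r m t S s1 : ℝ} (hm : m = a + (2 * a * k + r)) (hS : 2 * a * (t + 1) ≤ S)
    (hS2 : 2 * S ≤ m ^ 2 + 4)
    (ht : (k + 1) * (2 * a * k + r) - 2 * a * (k * (k + 1) / 2) + s1 ≤ t) (ha : 0 < a) :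
    4 * a * s1 + r * (2 * a - r) ≤ (a - 2) ^ 2 := by
  have h1 : 4 * a * ((k + 1) * (2 * a * k + r) - 2 * a * (k * (k + 1) / 2) + s1) ≤ 4 * a * t :=
    mul_le_mul_of_nonneg_left ht (by linarith)
  subst hm
  nlinarith

lemma ext_num2 {a k r m t S l : ℝ} (hm : m = a + (2 * a * k + r)) (hS : 2 * a * (t + 1) ≤ S)
    (hS2 : 2 * S ≤ m ^ 2 + 4)
    (ht : ((k + 1) + 1) * (2 * a * k + r) - 2 * a * ((k + 1) * ((k + 1) + 1) / 2) + (2 * a - l) ≤ t)
    (ha : 0 < a) :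
    6 * a * r - r ^ 2 ≤ 4 * a * l + (a - 2) ^ 2 := by
  have h1 : 4 * a * (((k + 1) + 1) * (2 * a * k + r) - 2 * a * ((k + 1) * ((k + 1) + 1) / 2)
      + (2 * a - l)) ≤ 4 * a * t :=
    mul_le_mul_of_nonneg_left ht (by linarith)
  subst hm
  nlinarith

section
variable {K : Type u} [AddCommGroup K] [DecidableEq K] [Fintype K]

lemma lev_subset_fib {ν : ℕ} {ψ : K →+ ZMod ν} {A : Finset K}
    (hs : ∀ y ∈ A, ψ y = (ht (ψ y) : ZMod ν)) (v : ℕ) : lev ψ A v ⊆ fib ψ (v : ZMod ν) := by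
  intro x hx
  rw [lev, mem_filter] at hx
  rw [mem_fib, hs x hx.1, hx.2]

/-- From the count to the levels. -/
theorem levels {ν : ℕ} {ψ : K →+ ZMod ν} (hψ : Function.Surjective ψ) {A : Finset K}
    (hA : ZSF A) (h2 : 2 * (lev ψ A 0).card = (fib ψ 0).card) (h3 : (lev ψ A 0).card ≤ 3)
    (hs : ∀ y ∈ A, ψ y = (ht (ψ y) : ZMod ν))
    (hlow : (fib ψ 0).card * (tot ψ A + 1) ≤ (SS A).card)
    (hS : 2 * (SS A).card ≤ A.card ^ 2 + 4) :
    ∃ k r : ℕ, A.card = (lev ψ A 0).card + (2 * (lev ψ A 0).card * k + r) ∧ r ≤ 1 ∧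
      (r = 1 → (lev ψ A 0).card = 1) ∧
      (∀ v, 1 ≤ v → v ≤ k → (lev ψ A v) = fib ψ (v : ZMod ν)) ∧
      r ≤ (lev ψ A (k + 1)).card ∧ (k + 1) * ((lev ψ A 0).card * k + r) ≤ tot ψ A := by
  obtain ⟨a, ha⟩ : ∃ a, a = (lev ψ A 0).card := ⟨_, rfl⟩
  rw [← ha] at h2 h3 ⊢
  have hτpos : 0 < (fib ψ 0).card := card_pos.2 ⟨0, by rw [mem_fib, map_zero]⟩
  have ha1 : 1 ≤ a := by omega
  obtain ⟨M, hM⟩ : ∃ M, a + M = A.card :=
    ⟨A.card - a, by rw [ha]; exact Nat.add_sub_cancel' (card_le_card (filter_subset _ _))⟩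
  obtain ⟨k, hk⟩ : ∃ k, k = M / (2 * a) := ⟨_, rfl⟩
  obtain ⟨r, hr⟩ : ∃ r, r = M % (2 * a) := ⟨_, rfl⟩
  have hMk : M = 2 * a * k + r := by rw [hk, hr]; exact (Nat.div_add_mod M (2 * a)).symm
  have hrlt : r < 2 * a := by rw [hr]; exact Nat.mod_lt _ (by omega)
  have hcard : A.card = a + (2 * a * k + r) := by rw [← hM, hMk]
  have hcard' : (A.card : ℝ) = a + (2 * a * k + r) := by exact_mod_cast hcard
  have haR : (0 : ℝ) < a := by exact_mod_cast ha1
  have hτR : ((fib ψ 0).card : ℝ) = 2 * a := by exact_mod_cast h2.symm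
  have hlow' : 2 * (a : ℝ) * ((tot ψ A : ℝ) + 1) ≤ (SS A).card := by
    rw [← hτR]; exact_mod_cast hlow
  have hS' : 2 * ((SS A).card : ℝ) ≤ (A.card : ℝ) ^ 2 + 4 := by exact_mod_cast hS
  have hg1 := tot_ge hψ hA k
  have hg2 := tot_ge hψ hA (k + 1)
  rw [← ha, hτR] at hg1 hg2
  have hsub : (A.card : ℝ) - a = 2 * a * k + r := by rw [hcard']; ring
  rw [hsub] at hg1 hg2
  obtain ⟨s1, hs1⟩ : ∃ s1 : ℕ, s1 = ∑ v ∈ Icc 1 k, (k + 1 - v) * hole ψ A v := ⟨_, rfl⟩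
  have hs1' : ∑ v ∈ Icc 1 k, ((k : ℝ) + 1 - v) * hole ψ A v = s1 := by
    rw [hs1, Nat.cast_sum]
    refine sum_congr rfl fun v hv => ?_
    rw [mem_Icc] at hv
    rw [Nat.cast_mul, Nat.cast_sub (by omega)]
    push_cast; ring
  rw [hs1'] at hg1
  have hn1 := ext_num hcard' hlow' hS' hg1 haR
  -- s1 = 0
  have hrR : (r : ℝ) ≤ 2 * a := by exact_mod_cast hrlt.le
  have hr0 : (0 : ℝ) ≤ r := Nat.cast_nonneg _
  have hrr : 0 ≤ (r : ℝ) * (2 * a - r) := mul_nonneg hr0 (by linarith)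
  have ha3R : (a : ℝ) ≤ 3 := by exact_mod_cast h3
  have ha1R : (1 : ℝ) ≤ a := by exact_mod_cast ha1
  have hs10 : s1 = 0 := by
    by_contra hne
    have h4 : (1 : ℝ) ≤ s1 := by exact_mod_cast Nat.one_le_iff_ne_zero.2 hne
    have h5 : 4 * (a : ℝ) * 1 ≤ 4 * a * s1 := mul_le_mul_of_nonneg_left h4 (by linarith)
    nlinarith
  have hrle : r ≤ 1 ∧ (r = 1 → a = 1) := by
    rw [hs10, Nat.cast_zero, mul_zero, zero_add] at hn1
    have h4 : a = 1 ∨ a = 2 ∨ a = 3 := by omega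
    rcases h4 with h | h | h
    · subst h; exact ⟨by omega, fun _ => rfl⟩
    · subst h
      have h5 : r = 0 := by
        by_contra hne
        have h6 : (1 : ℝ) ≤ r := by exact_mod_cast Nat.one_le_iff_ne_zero.2 hne
        have h7 : (r : ℝ) ≤ 3 := by exact_mod_cast (by omega : r ≤ 3)
        push_cast at hn1
        nlinarith
      exact ⟨by omega, by omega⟩
    · subst h
      have h5 : r = 0 := by
        by_contra hne
        have h6 : (1 : ℝ) ≤ r := by exact_mod_cast Nat.one_le_iff_ne_zero.2 hne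
        have h7 : (r : ℝ) ≤ 5 := by exact_mod_cast (by omega : r ≤ 5)
        push_cast at hn1
        nlinarith
      exact ⟨by omega, by omega⟩
  have hhole : ∀ v, 1 ≤ v → v ≤ k → hole ψ A v = 0 := by
    intro v hv1 hvk
    have h4 : (k + 1 - v) * hole ψ A v ≤ s1 := by
      rw [hs1]
      exact single_le_sum (f := fun v => (k + 1 - v) * hole ψ A v) (fun _ _ => Nat.zero_le _)
        (mem_Icc.2 ⟨hv1, hvk⟩)
    rw [hs10] at h4
    have h5 : (k + 1 - v) * hole ψ A v = 0 := by omega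
    rcases Nat.mul_eq_zero.1 h5 with h | h
    · omega
    · exact h
  refine ⟨k, r, hcard, hrle.1, hrle.2, ?_, ?_, ?_⟩
  · intro v hv1 hvk
    apply eq_of_subset_of_card_le (lev_subset_fib hs v)
    rw [card_fib hψ]
    have := hole_add hψ hA v
    rw [hhole v hv1 hvk, zero_add] at this
    exact this.ge
  · -- the next level
    have h4 : (2 * (a : ℝ) - (lev ψ A (k + 1)).card) ≤
        ∑ v ∈ Icc 1 (k + 1), (((k + 1 : ℕ) : ℝ) + 1 - v) * hole ψ A v := by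
      have h5 : (((k + 1 : ℕ) : ℝ) + 1 - ((k + 1 : ℕ) : ℝ)) * hole ψ A (k + 1) ≤
          ∑ v ∈ Icc 1 (k + 1), (((k + 1 : ℕ) : ℝ) + 1 - v) * hole ψ A v := by
        apply single_le_sum (f := fun v : ℕ => (((k + 1 : ℕ) : ℝ) + 1 - v) * hole ψ A v)
        · intro v hv
          rw [mem_Icc] at hv
          apply mul_nonneg _ (Nat.cast_nonneg _)
          have : (v : ℝ) ≤ ((k + 1 : ℕ) : ℝ) := by exact_mod_cast hv.2
          linarith
        · exact mem_Icc.2 ⟨by omega, le_refl _⟩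
      have h6 : (((k + 1 : ℕ) : ℝ) + 1 - ((k + 1 : ℕ) : ℝ)) = 1 := by ring
      rw [h6, one_mul] at h5
      have h7 := hole_add hψ hA (k + 1)
      have h8 : (hole ψ A (k + 1) : ℝ) + (lev ψ A (k + 1)).card = 2 * a := by
        rw [← hτR]; exact_mod_cast h7
      linarith
    have h5 : ((k : ℝ) + 1 + 1) * (2 * a * k + r) - 2 * a * (((k : ℝ) + 1) * ((k : ℝ) + 1 + 1) / 2)
        + (2 * a - (lev ψ A (k + 1)).card) ≤ tot ψ A := by
      push_cast at hg2 h4 ⊢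
      linarith
    have hn2 := ext_num2 hcard' hlow' hS' h5 haR
    have h6 : r = 0 ∨ r = 1 := by omega
    rcases h6 with h | h
    · omega
    · have h7 := hrle.2 h
      rw [h, h7] at hn2
      push_cast at hn2
      have h8 : (1 : ℝ) ≤ (lev ψ A (k + 1)).card := by linarith
      rw [h]
      exact_mod_cast h8
  · rw [hs10, Nat.cast_zero, add_zero] at hg1
    have h4 : (((k + 1) * (a * k + r) : ℕ) : ℝ) ≤ tot ψ A := by
      push_cast
      linarith
    exact_mod_cast h4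

end

end Pool.Agent.Lib.MP_ee6709_co
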