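import Pool.Agent.Lib.MP_7710ee_inv.Top

/-!
# The groups which attain `f(m)` (MP_7710ee_co)
-/

set_option linter.style.longLine false
set_option linter.unusedSectionVars false

namespace Pool.Agent.Lib.MP_ee6709_co

open Finset

section
variable {G : Type} [AddCommGroup G] [DecidableEq G]

lemma ZSF_empty : ZSF (∅ : Finset G) := fun S hS _ => subset_empty.1 hS

lemma ZSF_insert {A : Finset G} {x : G} (hA : ZSF A) (hx : -x ∉ SS A) :
    ZSF (insert x A) := by
  intro S hS h0
  by_cases hxS : x ∈ S
  · exfalso
    apply hx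
    rw [mem_SS]
    refine ⟨S.erase x, ?_, ?_⟩
    · intro y hy
      rw [mem_erase] at hy
      have := hS hy.2
      rw [mem_insert] at this
      exact this.resolve_left hy.1
    · rw [← add_sum_erase S (fun x => x) hxS] at h0
      exact (neg_eq_of_add_eq_zero_right h0).symm
  · apply hA S _ h0
    intro y hy
    have := hS hy
    rw [mem_insert] at this
    rcases this with h | h
    · subst h; exact absurd hy hxS
    · exact h

lemma exists_half [Finite G] {T : AddSubgroup G}
    (hT : Nat.card T = 2 ∨ Nat.card T = 4 ∨ Nat.card T = 6) :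
    ∃ B : Finset G, (∀ x ∈ B, x ∈ T) ∧ ZSF B ∧ 2 * B.card = Nat.card T := by
  classical
  have hfin : Finite T := inferInstance
  have : Fintype T := Fintype.ofFinite T
  have hp2 : Fact (Nat.Prime 2) := ⟨Nat.prime_two⟩
  have hp3 : Fact (Nat.Prime 3) := ⟨Nat.prime_three⟩
  obtain ⟨e0, he0⟩ := exists_prime_addOrderOf_dvd_card' (G := T) 2 (by
    rcases hT with h | h | h <;> rw [h] <;> norm_num)
  obtain ⟨e, he⟩ : ∃ e : G, e = e0 := ⟨_, rfl⟩
  have heT : e ∈ T := by rw [he]; exact e0.2
  have he2 : e + e = 0 := by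
    have h1 := addOrderOf_nsmul_eq_zero e0
    rw [he0, two_nsmul] at h1
    rw [he, ← AddSubgroup.coe_add, h1, AddSubgroup.coe_zero]
  have hne : e ≠ 0 := by
    intro h
    have h1 : e0 = 0 := by
      apply Subtype.ext
      rw [← he, h]; rfl
    rw [h1, addOrderOf_zero] at he0
    norm_num at he0
  have hneg : -e = e := by rw [neg_eq_iff_add_eq_zero]; exact he2
  have hz1 : ZSF ({e} : Finset G) := by
    have h1 := ZSF_insert (A := (∅ : Finset G)) (x := e) ZSF_empty (by
      rw [SS_empty, mem_singleton, hneg]; exact hne)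
    simpa using h1
  have hz2 : ∀ x : G, x ≠ 0 → x ≠ e → ZSF ({x, e} : Finset G) := by
    intro x hx0 hxe
    apply ZSF_insert hz1
    rw [SS_singleton, mem_insert, mem_singleton]
    rintro (h | h)
    · exact hx0 (neg_eq_zero.1 h)
    · apply hxe
      rw [← neg_neg x, h, hneg]
  rcases hT with h | h | h
  · exact ⟨{e}, by simpa using heT, hz1, by rw [card_singleton, h]⟩
  · -- order 4
    obtain ⟨x, hxT, hx0, hxe⟩ : ∃ x ∈ T, x ≠ 0 ∧ x ≠ e := by
      by_contra hcon
      push Not at hcon
      have h1 : (univ : Finset T) ⊆ {0, e0} := by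
        intro x _
        rw [mem_insert, mem_singleton]
        by_cases hx : x = 0
        · exact Or.inl hx
        · right
          apply Subtype.ext
          rw [← he]
          exact hcon x x.2 (fun h' => hx (Subtype.ext h'))
      have h2 := card_le_card h1
      rw [card_univ, ← Nat.card_eq_fintype_card, h] at h2
      have h3 := card_le_two (a := (0 : T)) (b := e0)
      omega
    refine ⟨{x, e}, ?_, hz2 x hx0 hxe, by rw [card_pair hxe, h]⟩
    intro y hy
    rw [mem_insert, mem_singleton] at hy
    rcases hy with rfl | rfl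
    · exact hxT
    · exact heT
  · -- order 6
    obtain ⟨x0, hx0⟩ := exists_prime_addOrderOf_dvd_card' (G := T) 3 (by rw [h]; norm_num)
    obtain ⟨x, hx⟩ : ∃ x : G, x = x0 := ⟨_, rfl⟩
    have hxT : x ∈ T := by rw [hx]; exact x0.2
    have hx3 : x + x + x = 0 := by
      have h1 := addOrderOf_nsmul_eq_zero x0
      rw [hx0] at h1
      have h2 : (3 : ℕ) • x = 0 := by
        rw [hx, ← AddSubgroup.coe_nsmul, h1, AddSubgroup.coe_zero]
      have h3 : (3 : ℕ) • x = x + x + x := by
        rw [succ_nsmul, two_nsmul]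
      rw [← h3, h2]
    have hxne : x ≠ 0 := by
      intro h'
      have h1 : x0 = 0 := by
        apply Subtype.ext
        rw [← hx, h']; rfl
      rw [h1, addOrderOf_zero] at hx0
      norm_num at hx0
    have hxx : x + x ≠ 0 := by
      intro h'
      rw [h', zero_add] at hx3
      exact hxne hx3
    have hxe : x ≠ e := by
      intro h'
      apply hxx
      rw [h', he2]
    have hex : e + x ∉ ({x, e} : Finset G) := by
      rw [mem_insert, mem_singleton, not_or]
      constructor
      · intro h'
        exact hne (by simpa using h')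
      · intro h'
        exact hxne (by simpa using h')
    have hz3 : ZSF (insert (e + x) ({x, e} : Finset G)) := by
      apply ZSF_insert (hz2 x hxne hxe)
      have h1 : x ∉ ({e} : Finset G) := by rw [mem_singleton]; exact hxe
      rw [show ({x, e} : Finset G) = insert x {e} from rfl, SS_insert h1, SS_singleton]
      simp only [mem_union, mem_tr, mem_insert, mem_singleton]
      rintro ((h2 | h2) | (h2 | h2))
      · rw [neg_eq_zero] at h2
        -- e + x = 0
        apply hxx
        have h3 : x = e := by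
          have : x = -e := by rw [eq_neg_iff_add_eq_zero, add_comm]; exact h2
          rw [this, hneg]
        exact absurd h3 hxe
      · -- -(e + x) = e
        apply hxne
        have h3 : e + x + e = 0 := by
          have h6 := add_neg_cancel (e + x)
          rwa [h2] at h6
        have h4 : e + x + e = e + e + x := by abel
        rw [h4, he2, zero_add] at h3
        exact h3
      · -- -(e + x) - x = 0
        have h3 : e + (x + x) = 0 := by
          have h4 : -(e + x) - x = -(e + (x + x)) := by abel
          rw [h4, neg_eq_zero] at h2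
          exact h2
        have h5 : x + x = e := by
          have : x + x = -e := by rw [eq_neg_iff_add_eq_zero, add_comm]; exact h3
          rw [this, hneg]
        have h8 : x + x + (x + x) = 0 := by rw [h5, he2]
        have h9 : x + x + (x + x) = x + x + x + x := by abel
        rw [h9, hx3, zero_add] at h8
        exact hxne h8
      · -- -(e + x) - x = e
        have h3 : e + e + (x + x) = 0 := by
          have h4 : -(e + x) - x = -(e + (x + x)) := by abel
          rw [h4] at h2
          have h5 : e + e + (x + x) = (e + (x + x)) + e := by abel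
          have h6 := add_neg_cancel (e + (x + x))
          rw [h2] at h6
          rw [h5, h6]
        rw [he2, zero_add] at h3
        exact hxx h3
    refine ⟨insert (e + x) {x, e}, ?_, hz3, ?_⟩
    · intro y hy
      rw [mem_insert, mem_insert, mem_singleton] at hy
      rcases hy with rfl | rfl | rfl
      · exact T.add_mem heT hxT
      · exact hxT
      · exact heT
    · rw [card_insert_of_notMem hex, card_pair hxe, h]

end

/-- The groups which attain `f(m)`. -/
theorem groups : ∃ M : ℕ, ∀ m : ℕ, M ≤ m → ∀ (G : Type) [AddCommGroup G] [Finite G],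
    (rhoZ G m = f m ↔ ∃ (T : AddSubgroup G) (g : G),
      (Nat.card T = 2 ∨ (Nat.card T = 4 ∧ m % 4 = 2) ∨ (Nat.card T = 6 ∧ m % 6 = 3)) ∧
      ∀ j : ℕ, 1 ≤ j → j ≤ m ^ 2 / (2 * Nat.card T) → j • g ∉ T) := by
  classical
  obtain ⟨M1, hM1⟩ := f_eq
  obtain ⟨M2, hM2⟩ := classification
  refine ⟨max (max M1 M2) 20, fun m hm G _ _ => ?_⟩
  have hm1 : M1 ≤ m := le_trans (le_trans (le_max_left _ _) (le_max_left _ _)) hm
  have hm2 : M2 ≤ m := le_trans (le_trans (le_max_right _ _) (le_max_left _ _)) hm
  have hm3 : 20 ≤ m := le_trans (le_max_right _ _) hm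
  have : Fintype G := Fintype.ofFinite G
  constructor
  · intro h
    rw [hM1 m hm1] at h
    obtain ⟨A, hA, hw, hAe⟩ := rho_attained h
    obtain ⟨T, g, k, B, E, hsh⟩ := (hM2 G A (by omega)).1 ⟨hw, by rw [hA, hM1 m hm1]; exact hAe⟩
    have hs := shp_of_shape hsh
    obtain ⟨-, hB, hBz, hB2, hE, hE1, hE2, hj⟩ := hsh
    obtain ⟨-, -, hc⟩ := shape_good hs (by omega) hB ((zsf_iff B).1 hBz) hB2 hE hE1 hE2 hj
    obtain ⟨ha1, ha3⟩ := half_le hB ((zsf_iff B).1 hBz) hB2
    rw [hA] at hc hj
    refine ⟨T, g, ?_, hj⟩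
    have h4 : B.card = 1 ∨ B.card = 2 ∨ B.card = 3 := by omega
    rcases h4 with h4 | h4 | h4
    · left; omega
    · right; left
      have h5 : E.card = 0 := by
        by_contra hne
        have := hE2 (by omega)
        omega
      rw [h4, h5] at hc
      exact ⟨by omega, by omega⟩
    · right; right
      have h5 : E.card = 0 := by
        by_contra hne
        have := hE2 (by omega)
        omega
      rw [h4, h5] at hc
      exact ⟨by omega, by omega⟩
  · rintro ⟨T, g, hT, hj⟩
    obtain ⟨B, hB, hBz, hB2⟩ := exists_half (T := T) (by omega)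
    obtain ⟨a, ha⟩ : ∃ a, a = B.card := ⟨_, rfl⟩
    rw [← ha] at hB2
    obtain ⟨e, he⟩ : ∃ e, e = (m - a) % (2 * a) := ⟨_, rfl⟩
    obtain ⟨k, hk⟩ : ∃ k, k = (m - a) / (2 * a) := ⟨_, rfl⟩
    have ha1 : 1 ≤ a := by omega
    have ha3 : a ≤ 3 := by omega
    have hdm : 2 * a * k + e = m - a := by rw [he, hk]; exact Nat.div_add_mod _ _
    have hmk : m = a + k * (2 * a) + e := by
      have : k * (2 * a) = 2 * a * k := by ring
      omega
    have he1 : e ≤ 1 ∧ (e = 1 → a = 1) := by
      have h4 : a = 1 ∨ a = 2 ∨ a = 3 := by omega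
      rcases h4 with h4 | h4 | h4
      · rw [h4] at he
        exact ⟨by omega, fun _ => h4⟩
      · rw [h4] at he hB2
        have : e = 0 := by omega
        exact ⟨by omega, by omega⟩
      · rw [h4] at he hB2
        have : e = 0 := by omega
        exact ⟨by omega, by omega⟩
    have hk1 : 1 ≤ k := by
      by_contra hc
      have hk0 : k = 0 := by omega
      rw [hk0] at hmk
      omega
    have hnum := shp_num ha1 ha3 he1.1 he1.2 hmk
    rw [hB2] at hnum
    obtain ⟨E, hE⟩ : ∃ E : Finset G, E = if e = 1 then {(k + 1) • g} else ∅ := ⟨_, rfl⟩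
    have hEc : E.card = e := by
      rw [hE]
      split_ifs with h
      · rw [card_singleton, h]
      · rw [card_empty]; omega
    have hEg : ∀ x ∈ E, x - (k + 1) • g ∈ T := by
      intro x hx
      rw [hE] at hx
      split_ifs at hx with h
      · rw [mem_singleton] at hx
        rw [hx, sub_self]; exact T.zero_mem
      · exact absurd hx (notMem_empty _)
    have hkH : k + 1 ≤ m ^ 2 / (2 * Nat.card T) := by
      rw [hnum.1]
      have h5 : 1 ≤ a * k + e := by
        have : 1 * 1 ≤ a * k := Nat.mul_le_mul ha1 hk1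
        omega
      calc k + 1 = (k + 1) * 1 := (mul_one _).symm
        _ ≤ _ := Nat.mul_le_mul_left _ h5
    have hcard : (shp T g k B E).card = m := by
      rw [card_shp hB hEg hj hkH, ← ha, hEc, ← hB2]
      omega
    have hsh : Shape (shp T g k B E) T g k B E := by
      refine ⟨?_, hB, (zsf_iff B).2 hBz, by rw [← ha]; exact hB2, hEg, by rw [hEc]; exact he1.1,
        ?_, by rw [hcard]; exact hj⟩
      · intro x
        rw [mem_shp, or_assoc]
      · rw [hEc]
        intro h
        have := he1.2 h
        omega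
    obtain ⟨hw, hf⟩ := (hM2 G (shp T g k B E) (by rw [hcard]; exact hm2)).2 ⟨T, g, k, B, E, hsh⟩
    rw [hcard] at hf
    apply le_antisymm
    · rw [← hf]
      exact iInf_le_of_le _ (iInf_le_of_le hcard (iInf_le_of_le hw le_rfl))
    · exact iInf_le_of_le G (iInf_le_of_le inferInstance (iInf_le_of_le inferInstance le_rfl))

/-- The cyclic groups which attain `f(m)`. -/
theorem cyclic_iff : ∃ M : ℕ, ∀ m : ℕ, M ≤ m → ∀ n : ℕ, 1 ≤ n →
    (f m = rhoZ (ZMod n) m ↔ Even n ∧ m ^ 2 / 2 + 2 ≤ n) := by
  classical
  obtain ⟨M1, hM1⟩ := f_eq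
  obtain ⟨M2, hM2⟩ := groups
  refine ⟨max (max M1 M2) 20, fun m hm n hn => ?_⟩
  have hm1 : M1 ≤ m := le_trans (le_trans (le_max_left _ _) (le_max_left _ _)) hm
  have hm2 : M2 ≤ m := le_trans (le_trans (le_max_right _ _) (le_max_left _ _)) hm
  have hm3 : 20 ≤ m := le_trans (le_max_right _ _) hm
  have : NeZero n := ⟨by omega⟩
  rw [eq_comm]
  constructor
  · intro h
    constructor
    · obtain ⟨T, g, hT, -⟩ := (hM2 m hm2 (ZMod n)).1 h
      have h1 : Nat.card T ∣ Nat.card (ZMod n) := T.card_addSubgroup_dvd_card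
      rw [Nat.card_eq_fintype_card (α := ZMod n), ZMod.card] at h1
      have h2 : 2 ∣ Nat.card T := by omega
      exact even_iff_two_dvd.2 (h2.trans h1)
    · rw [hM1 m hm1] at h
      obtain ⟨A, hA, hw, hAe⟩ := rho_attained h
      have h2 := encard_SigmaStar hw
      rw [hAe] at h2
      have h3 : m ^ 2 / 2 + 1 + 1 = (SS A).card := by exact_mod_cast h2
      have h4 := card_le_univ (SS A)
      rw [ZMod.card] at h4
      omega
  · rintro ⟨he, hn2⟩
    obtain ⟨h, hh⟩ := he
    have hh2 : n = 2 * h := by omega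
    rw [hM2 m hm2 (ZMod n)]
    have hpos : 0 < h := by omega
    refine ⟨AddSubgroup.zmultiples ((h : ℕ) : ZMod n), 1, Or.inl ?_, ?_⟩
    · rw [Nat.card_zmultiples, ZMod.addOrderOf_coe _ (by omega), hh2,
        Nat.gcd_eq_right (Dvd.intro_left 2 rfl), Nat.mul_div_cancel _ hpos]
    · intro j hj1 hj2
      have hc2 : Nat.card (AddSubgroup.zmultiples ((h : ℕ) : ZMod n)) = 2 := by
        rw [Nat.card_zmultiples, ZMod.addOrderOf_coe _ (by omega), hh2,
          Nat.gcd_eq_right (Dvd.intro_left 2 rfl), Nat.mul_div_cancel _ hpos]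
      rw [hc2] at hj2
      intro hmem
      obtain ⟨z, hz⟩ := AddSubgroup.mem_zmultiples_iff.1 hmem
      rw [nsmul_one, zsmul_eq_mul] at hz
      have h5 : ((z * h : ℤ) : ZMod n) = ((j : ℤ) : ZMod n) := by push_cast; exact hz
      rw [ZMod.intCast_eq_intCast_iff_dvd_sub] at h5
      have h6 : (h : ℤ) ∣ j := by
        have h7 : (h : ℤ) ∣ j - z * h := by
          refine dvd_trans ⟨2, ?_⟩ h5
          rw [hh2]; push_cast; ring
        have h8 : (j : ℤ) = (j - z * h) + h * z := by ring
        rw [h8]
        exact dvd_add h7 (dvd_mul_right _ _)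
      have h7 : h ∣ j := by exact_mod_cast h6
      have h8 := Nat.le_of_dvd hj1 h7
      have h9 : m ^ 2 / (2 * 2) ≤ m ^ 2 / 2 / 2 := by rw [Nat.div_div_eq_div_mul]
      omega

end Pool.Agent.Lib.MP_ee6709_co
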