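import Pool.Agent.Lib.MP_ee6709_co.Fibre

/-!
# Lemmas for the structure theorem (MP_7710ee_co), as in `Lib/MP_ee6709_co/Struct2.lean`
-/

set_option linter.style.longLine false
set_option linter.unusedSectionVars false

namespace Pool.Agent.Lib.MP_ee6709_co

open Finset
open scoped Pointwise

universe u

/-! ### Numerical lemmas -/

lemma str_num1D {δ ε j r n X : ℝ} (hδ : 0 < δ) (hε : ε = δ / 400) (hδ1 : δ ≤ 1/400)
    (hj : 1000 ≤ δ * j) (hr : 0 < r) (hn : n ≤ (2 + 4 * ε) * (j + 1) * r)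
    (hX : 1 + (2 - ε) * r ≤ X) : n < (2 * j - 9) * X := by
  have hj1 : 1000 ≤ j := by
    by_contra hc
    push Not at hc
    nlinarith
  have hε1 : ε ≤ 1/1000 := by rw [hε]; linarith
  have hε0 : 0 < ε := by rw [hε]; positivity
  have h1 : (2 + 4 * ε) * (j + 1) * r ≤ (201/100) * (j + 1) * r := by
    apply mul_le_mul_of_nonneg_right _ hr.le
    apply mul_le_mul_of_nonneg_right _ (by linarith)
    linarith
  have h2 : (199/100) * r ≤ X := by
    have : (2 - ε) * r ≥ (199/100) * r := mul_le_mul_of_nonneg_right (by linarith) hr.le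
    linarith
  have h3 : (2 * j - 9) * ((199/100) * r) ≤ (2 * j - 9) * X := mul_le_mul_of_nonneg_left h2 (by linarith)
  have h4 : (201/100) * (j + 1) * r < (2 * j - 9) * ((199/100) * r) := by
    have : (201/100) * (j + 1) < (2 * j - 9) * (199/100) := by linarith
    calc (201/100) * (j + 1) * r < (2 * j - 9) * (199/100) * r := mul_lt_mul_of_pos_right this hr
      _ = _ := by ring
  linarith

lemma str_num2D {δ ε j r n t : ℝ} (hδ : 0 < δ) (hε : ε = δ / 400) (hδ1 : δ ≤ 1/400)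
    (hj : 1000 ≤ δ * j) (hr : 0 < r) (hn : n ≤ (2 + 4 * ε) * (j + 1) * r)
    (ht : (2 * j - 9) * t ≤ n) : t ≤ (1 + δ / 4) * r := by
  have hj1 : 1000 ≤ j := by
    by_contra hc
    push Not at hc
    nlinarith
  have h1 : (2 + 4 * ε) * (j + 1) ≤ (1 + δ / 4) * (2 * j - 9) := by
    rw [hε]
    nlinarith
  have h2 : (2 * j - 9) * t ≤ (2 * j - 9) * ((1 + δ / 4) * r) := by
    calc (2 * j - 9) * t ≤ (2 + 4 * ε) * (j + 1) * r := ht.trans hn
      _ ≤ (1 + δ / 4) * (2 * j - 9) * r := mul_le_mul_of_nonneg_right h1 hr.le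
      _ = _ := by ring
  exact le_of_mul_le_mul_left h2 (by linarith)

lemma str_num3D {δ ε j r n t : ℝ} (hδ : 0 < δ) (hε : ε = δ / 400) (hδ1 : δ ≤ 1/400)
    (hj : 1000 ≤ δ * j) (hr : 0 < r) (hn : n ≤ (2 + 4 * ε) * ((j + 2) + 1) * r)
    (ht : 2 * j * t ≤ n) : t ≤ (1 + δ / 8) * r := by
  have hj1 : 1000 ≤ j := by
    by_contra hc
    push Not at hc
    nlinarith
  have h1 : (2 + 4 * ε) * ((j + 2) + 1) ≤ (1 + δ / 8) * (2 * j) := by
    rw [hε]
    nlinarith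
  have h2 : (2 * j) * t ≤ (2 * j) * ((1 + δ / 8) * r) := by
    calc (2 * j) * t ≤ (2 + 4 * ε) * ((j + 2) + 1) * r := ht.trans hn
      _ ≤ (1 + δ / 8) * (2 * j) * r := mul_le_mul_of_nonneg_right h1 hr.le
      _ = _ := by ring
  exact le_of_mul_le_mul_left h2 (by linarith)

lemma str_natD {j I L ν : ℕ} (h : 10 * j + 700 ≤ I) (h2 : I * L < 5 * ν) :
    100 * L ≤ ν ∧ 2 * (j * L) < ν := by
  have h3 : (10 * j + 700) * L ≤ I * L := Nat.mul_le_mul_right _ h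
  have h4 : (10 * j + 700) * L = 10 * (j * L) + 700 * L := by ring
  rw [h4] at h3
  obtain ⟨q, hq⟩ : ∃ q, q = j * L := ⟨_, rfl⟩
  rw [← hq] at h3 ⊢
  omega

section
variable {K : Type u} [AddCommGroup K] [DecidableEq K] [Fintype K]

lemma ZSF.le_of_fibD {ν : ℕ} (ψ : K →+ ZMod ν) (A : Finset K) :
    (SS (lev ψ A 0)).card ≤ (fib ψ 0).card := by
  apply card_le_card
  apply SS_subset_gp (fib_zero_isSubgp ψ)
  intro x hx
  rw [lev, mem_filter, ht_eq_zero] at hx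
  rw [mem_fib]; exact hx.2

/-- Removing few elements keeps the levels almost full. -/
lemma lev_lowerD {ν : ℕ} {ψ : K →+ ZMod ν} (hψ : Function.Surjective ψ) {A D1 D2 : Finset K}
    (hA : ZSF A) {L : ℕ} (hR : ∀ x ∈ A \ D1, ht (ψ x) ≤ L) {v : ℕ} (hv1 : 1 ≤ v) (hvL : v ≤ L) :
    (fib ψ 0).card + (A \ D1).card ≤ (lev ψ (A \ D2) v).card + D2.card + (lev ψ A 0).card
      + (fib ψ 0).card * L := by
  have h1 := card_eq_sum_lev ψ hR
  have h2 : ∑ u ∈ Icc 1 L, (lev ψ (A \ D1) u).card + (fib ψ 0).card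
      ≤ (lev ψ (A \ D1) v).card + (fib ψ 0).card * L := by
    have hmem : v ∈ Icc 1 L := mem_Icc.2 ⟨hv1, hvL⟩
    rw [← sum_erase_add _ _ hmem]
    have h3 : ∑ u ∈ (Icc 1 L).erase v, (lev ψ (A \ D1) u).card
        ≤ ((Icc 1 L).erase v).card * (fib ψ 0).card := by
      rw [← smul_eq_mul, ← sum_const]
      exact sum_le_sum fun u _ => card_lev_le hψ (hA.mono sdiff_subset) u
    rw [card_erase_of_mem hmem, Nat.card_Icc] at h3
    have h4 : (L + 1 - 1 - 1) * (fib ψ 0).card + (fib ψ 0).card = (fib ψ 0).card * L := by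
      obtain ⟨l, rfl⟩ : ∃ l, L = l + 1 := ⟨L - 1, by omega⟩
      simp; ring
    omega
  have h5 : (lev ψ (A \ D1) 0).card ≤ (lev ψ A 0).card :=
    card_le_card (filter_subset_filter _ sdiff_subset)
  have h6 : (lev ψ (A \ D1) v).card ≤ (lev ψ (A \ D2) v).card + D2.card := by
    have : lev ψ (A \ D1) v ⊆ lev ψ (A \ D2) v ∪ D2 := by
      intro x hx
      rw [lev, mem_filter, mem_sdiff] at hx
      rw [mem_union, lev, mem_filter, mem_sdiff]
      by_cases hxD : x ∈ D2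
      · right; exact hxD
      · left; exact ⟨⟨hx.1.1, hxD⟩, hx.2⟩
    exact (card_le_card this).trans (card_union_le _ _)
  omega

lemma str_num4D {m r1 a τ L L0 δ : ℝ} (hδ0 : 0 < δ) (hδ1 : δ ≤ 1/400) (hL0 : 0 ≤ L0)
    (hδL : δ * (400 * (L0 + 1)) ≤ 1) (hm : 0 < m) (hr : (1 - δ) * m ≤ r1)
    (ha : a ≤ 2/10 * (δ * m)) (hcount : r1 ≤ a + τ * L) (hLL0 : L ≤ L0) (hτ : 0 ≤ τ) :
    3 * (δ * m) + δ * m / 4 + a < τ / 2 := by
  have hδm1 : δ * m ≤ 1/400 * m := mul_le_mul_of_nonneg_right hδ1 hm.le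
  have h0 : τ * L ≤ τ * L0 := mul_le_mul_of_nonneg_left hLL0 hτ
  have h00 : (1 - δ) * m = m - δ * m := by ring
  have hτlow : (99/100) * m ≤ τ * L0 := by linarith
  have h1 : (δ * m) * (400 * (L0 + 1)) ≤ m := by
    calc (δ * m) * (400 * (L0 + 1)) = (δ * (400 * (L0 + 1))) * m := by ring
      _ ≤ 1 * m := mul_le_mul_of_nonneg_right hδL hm.le
      _ = m := one_mul _
  have h2 : (δ * m) * (400 * (L0 + 1)) * (99/100) ≤ τ * (L0 + 1) := by
    have : τ * L0 ≤ τ * (L0 + 1) := mul_le_mul_of_nonneg_left (by linarith) hτ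
    linarith
  have h3 : (δ * m) * 396 ≤ τ := by
    have e : (δ * m) * (400 * (L0 + 1)) * (99/100) = ((δ * m) * 396) * (L0 + 1) := by ring
    rw [e] at h2
    exact le_of_mul_le_mul_right h2 (by linarith)
  have hδmpos : 0 < δ * m := by positivity
  linarith

lemma str_num5D {m r1 r2 d2 a τ L δ : ℝ} (hδ0 : 0 < δ) (hm : 0 < m)
    (hr : (1 - δ) * m ≤ r1) (ha : a ≤ 2/10 * (δ * m)) (hcount : r1 ≤ a + τ * L)
    (hd2 : 2 * δ * m ≤ d2) (hr2 : r2 = m - d2) (hfin : τ * L ≤ (1 + δ / 8) * r2) : False := by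
  have h1 : (1 + δ / 8) * (m - d2) ≤ (1 + δ / 8) * (m - 2 * δ * m) :=
    mul_le_mul_of_nonneg_left (by linarith) (by positivity)
  have h2 : (1 + δ / 8) * (m - 2 * δ * m) = m - 15/8 * (δ * m) - δ * (δ * m) / 4 := by ring
  have h3 : 0 ≤ δ * (δ * m) / 4 := by positivity
  have hδmpos : 0 < δ * m := by positivity
  have h00 : (1 - δ) * m = m - δ * m := by ring
  rw [hr2] at hfin
  linarith

lemma L_largeD {ν : ℕ} [NeZero ν] {ψ : K →+ ZMod ν} (hsurj : Function.Surjective ψ)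
    {A D1 D2 : Finset K} (hA : ZSF A) {L0 L j : ℕ} {δ ε m : ℝ} (hδ0 : 0 < δ)
    (hδL : δ * (400 * ((L0 : ℝ) + 1)) ≤ 1) (hδ1 : δ ≤ 1/400) (hε : ε = δ / 400)
    (hj : 1000 ≤ δ * (j : ℝ)) (hm : 0 < m) (hr : (1 - δ) * m ≤ ((A \ D1).card : ℝ))
    (hrm : ((A \ D1).card : ℝ) ≤ m)
    (hD2a : 2 * δ * m ≤ D2.card) (hD2b : (D2.card : ℝ) ≤ 3 * δ * m)
    (hr2 : ((A \ D2).card : ℝ) = m - D2.card)
    (hψR : ∀ x ∈ A \ D1, ht (ψ x) ≤ L)
    (hτL : ((fib ψ 0).card : ℝ) * L ≤ (1 + δ / 4) * (A \ D1).card)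
    (ha : ((lev ψ A 0).card : ℝ) ≤ 2/10 * (δ * m)) (hL1 : 1 ≤ L) (hLL0 : L ≤ L0)
    (h2jL : 2 * (j * L) < ν)
    (hn2j : ((it (sym (A \ D2)) (j + 2)).card : ℝ) ≤ (2 + 4 * ε) * ((j + 2) + 1) * (A \ D2).card) :
    False := by
  have hLL0' : (L : ℝ) ≤ L0 := by exact_mod_cast hLL0
  have hτnn : (0 : ℝ) ≤ (fib ψ 0).card := Nat.cast_nonneg _
  have hcount : ((A \ D1).card : ℝ) ≤ (lev ψ A 0).card + (fib ψ 0).card * L := by
    have h1 := card_eq_sum_lev ψ hψR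
    have h2 : ∑ v ∈ Icc 1 L, (lev ψ (A \ D1) v).card ≤ L * (fib ψ 0).card := by
      have h3 : ∑ v ∈ Icc 1 L, (lev ψ (A \ D1) v).card ≤ (Icc 1 L).card * (fib ψ 0).card := by
        rw [← smul_eq_mul, ← sum_const]
        exact sum_le_sum fun u _ => card_lev_le hsurj (hA.mono sdiff_subset) u
      rw [Nat.card_Icc] at h3
      simpa using h3
    have h4 : (lev ψ (A \ D1) 0).card ≤ (lev ψ A 0).card :=
      card_le_card (filter_subset_filter _ sdiff_subset)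
    have h5 : (A \ D1).card ≤ (lev ψ A 0).card + L * (fib ψ 0).card := by omega
    have h6 : ((A \ D1).card : ℝ) ≤ (lev ψ A 0).card + L * (fib ψ 0).card := by exact_mod_cast h5
    rw [mul_comm ((fib ψ 0).card : ℝ)]
    exact h6
  have hτlow := str_num4D hδ0 hδ1 (Nat.cast_nonneg L0) hδL hm hr ha hcount hLL0' hτnn
  have hfull : ∀ v : ℕ, 1 ≤ v → v ≤ L →
      (fib ψ 0).card < 2 * ((sym (A \ D2)).filter (fun x => ψ x = (v : ZMod ν))).card := by
    intro v hv1 hvL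
    have h1 := lev_lowerD hsurj hA (D1 := D1) (D2 := D2) hψR hv1 hvL
    have h2 := card_lev_le_sym ψ (hA.mono (sdiff_subset : A \ D2 ⊆ A)) v
    have h3 : ((fib ψ 0).card : ℝ) + (A \ D1).card ≤ (lev ψ (A \ D2) v).card + D2.card
        + (lev ψ A 0).card + (fib ψ 0).card * L := by
      exact_mod_cast h1
    have h4 : ((fib ψ 0).card : ℝ) < 2 * (lev ψ (A \ D2) v).card := by
      have e : δ * ((A \ D1).card : ℝ) ≤ δ * m := mul_le_mul_of_nonneg_left hrm hδ0.le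
      have e2 : (1 + δ / 4) * ((A \ D1).card : ℝ) = (A \ D1).card + δ * (A \ D1).card / 4 := by ring
      have e3 : 3 * δ * m = 3 * (δ * m) := by ring
      rw [e2] at hτL
      rw [e3] at hD2b
      linarith
    have h5 : (fib ψ 0).card < 2 * (lev ψ (A \ D2) v).card := by exact_mod_cast h4
    omega
  have hbig := card_full_it hsurj hL1 hfull h2jL
  have hr2pos : (0 : ℝ) < (A \ D2).card := by
    have : δ * m ≤ 1/400 * m := mul_le_mul_of_nonneg_right hδ1 hm.le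
    rw [hr2]
    have e3 : 3 * δ * m = 3 * (δ * m) := by ring
    rw [e3] at hD2b
    linarith
  have hfin : ((fib ψ 0).card : ℝ) * L ≤ (1 + δ / 8) * (A \ D2).card := by
    refine str_num3D hδ0 hε hδ1 hj hr2pos hn2j ?_
    have h3 : (((fib ψ 0).card * (2 * (j * L) + 1) : ℕ) : ℝ) ≤ (it (sym (A \ D2)) (j + 2)).card := by
      exact_mod_cast hbig
    push_cast at h3
    have e : ((fib ψ 0).card : ℝ) * (2 * (j * L) + 1) = 2 * j * ((fib ψ 0).card * L) + (fib ψ 0).card := by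
      ring
    rw [e] at h3
    linarith
  exact str_num5D hδ0 hm hr ha hcount hD2a hr2 hfin

/-- Bound on `|A ∩ T|` from the crude bound. -/
lemma a_smallD {ν : ℕ} {ψ : K →+ ZMod ν} {A : Finset K} (hA : ZSF A) {M3 N' L L0 : ℕ} {δ m r : ℝ}
    (hδ0 : 0 < δ) (hδ1 : δ ≤ 1/400) (hN' : 8 / δ ≤ N') (hM3 : ∀ B : Finset K, ZSF B → M3 ≤ B.card → N' * B.card ≤ (SS B).card)
    (hL : 1 ≤ L) (hrm : r ≤ m) (hr0 : 0 ≤ r)
    (hτL : ((fib ψ 0).card : ℝ) * L ≤ (1 + δ / 4) * r)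
    (hM3m : (M3 : ℝ) * (1000 * ((L0 : ℝ) + 1)) ≤ δ * m) :
    ((lev ψ A 0).card : ℝ) ≤ 2/10 * (δ * m) := by
  have hL1' : (1 : ℝ) ≤ L := by exact_mod_cast hL
  have hτnn : (0 : ℝ) ≤ (fib ψ 0).card := Nat.cast_nonneg _
  have hτm : ((fib ψ 0).card : ℝ) ≤ 11/10 * m := by
    have h1 : ((fib ψ 0).card : ℝ) * 1 ≤ (fib ψ 0).card * L := mul_le_mul_of_nonneg_left hL1' hτnn
    have h2 : (1 + δ / 4) * r ≤ (11/10) * m := by
      apply mul_le_mul _ hrm hr0 (by norm_num)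
      linarith
    linarith
  have hcr : ((lev ψ A 0).card : ℝ) ≤ δ * (fib ψ 0).card / 8 + M3 := by
    by_cases h : M3 ≤ (lev ψ A 0).card
    · have h1 := hM3 (lev ψ A 0) (hA.mono (filter_subset _ _)) h
      have h2 := ZSF.le_of_fibD ψ A
      have h3 : (N' : ℝ) * (lev ψ A 0).card ≤ (fib ψ 0).card := by exact_mod_cast h1.trans h2
      have h4 : 8 / δ * ((lev ψ A 0).card : ℝ) ≤ (fib ψ 0).card :=
        (mul_le_mul_of_nonneg_right hN' (Nat.cast_nonneg _)).trans h3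
      rw [div_mul_eq_mul_div, div_le_iff₀ hδ0] at h4
      have : (0 : ℝ) ≤ M3 := Nat.cast_nonneg _
      linarith
    · push Not at h
      have : ((lev ψ A 0).card : ℝ) ≤ M3 := by exact_mod_cast h.le
      have : 0 ≤ δ * ((fib ψ 0).card : ℝ) / 8 := by positivity
      linarith
  have hM3small : (M3 : ℝ) ≤ δ * m / 1000 := by
    have h1 : (M3 : ℝ) * 1000 ≤ M3 * (1000 * ((L0 : ℝ) + 1)) := by
      apply mul_le_mul_of_nonneg_left _ (Nat.cast_nonneg _)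
      have : (0 : ℝ) ≤ L0 := Nat.cast_nonneg _
      linarith
    linarith
  have hδτ : δ * ((fib ψ 0).card : ℝ) ≤ δ * (11/10 * m) := mul_le_mul_of_nonneg_left hτm hδ0.le
  have : δ * (11/10 * m) = 11/10 * (δ * m) := by ring
  linarith

end

end Pool.Agent.Lib.MP_ee6709_co
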