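import Pool.Agent.Lib.MP_7710ee_inv.CountC
import Pool.Agent.Lib.MP_7710ee_inv.StructC

/-!
# The inverse theorem for zero-sum-free sets with few subset sums (MP_7710ee_co)

`inverse`: for every `ε > 0` there is `M` such that a zero-sum-free generating set `A` of a finite
abelian group with `|A| = m ≥ M` and `|SS A| ≤ m² / 2 + (1/2 - ε) m + 1` has heights with respect to
a subgroup of order `2`, `4` or `6`.
-/

set_option linter.style.longLine false
set_option linter.unusedSectionVars false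

namespace Pool.Agent.Lib.MP_ee6709_co

open Finset
open scoped Pointwise

universe u

section
variable {K : Type u} [AddCommGroup K] [DecidableEq K] [Fintype K]

/-- Total height of the elements whose image is not positive. -/
def neg' {ν : ℕ} (ψ : K →+ ZMod ν) (D : Finset K) : ℕ :=
  ∑ y ∈ D.filter (fun y => ¬ ψ y = (ht (ψ y) : ZMod ν)), ht (ψ y)

lemma neg'_le_tot {ν : ℕ} (ψ : K →+ ZMod ν) (D : Finset K) : neg' ψ D ≤ tot ψ D :=
  sum_le_sum_of_subset (filter_subset _ _)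

/-- The signed heights of the subset sums. -/
lemma range_heights {ν : ℕ} (ψ : K →+ ZMod ν) (D : Finset K) : ∀ z ∈ SS D,
    ∃ i ≤ tot ψ D, ψ z + (neg' ψ D : ZMod ν) = (i : ZMod ν) := by
  intro z hz
  obtain ⟨S, hS, rfl⟩ := mem_SS.1 hz
  refine ⟨∑ y ∈ S.filter (fun y => ψ y = (ht (ψ y) : ZMod ν)), ht (ψ y) +
    ∑ y ∈ (D \ S).filter (fun y => ¬ ψ y = (ht (ψ y) : ZMod ν)), ht (ψ y), ?_, ?_⟩
  · have h1 : tot ψ D = tot ψ S + tot ψ (D \ S) := by
      rw [tot, tot, tot, add_comm, sum_sdiff hS]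
    rw [h1]
    apply add_le_add
    · exact sum_le_sum_of_subset (filter_subset _ _)
    · exact sum_le_sum_of_subset (filter_subset _ _)
  · have h2 : neg' ψ D = ∑ y ∈ S.filter (fun y => ¬ ψ y = (ht (ψ y) : ZMod ν)), ht (ψ y) +
        ∑ y ∈ (D \ S).filter (fun y => ¬ ψ y = (ht (ψ y) : ZMod ν)), ht (ψ y) := by
      rw [neg', ← sum_union]
      · congr 1
        rw [← filter_union, union_sdiff_of_subset hS]
      · exact disjoint_filter_filter disjoint_sdiff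
    have h3 : ψ (∑ x ∈ S, x) + ((∑ y ∈ S.filter (fun y => ¬ ψ y = (ht (ψ y) : ZMod ν)),
        ht (ψ y) : ℕ) : ZMod ν) = ((∑ y ∈ S.filter (fun y => ψ y = (ht (ψ y) : ZMod ν)),
        ht (ψ y) : ℕ) : ZMod ν) := by
      rw [map_sum, ← sum_filter_add_sum_filter_not S (fun y => ψ y = (ht (ψ y) : ZMod ν))]
      have e1 : ∑ x ∈ S.filter (fun y => ψ y = (ht (ψ y) : ZMod ν)), ψ x =
          ((∑ y ∈ S.filter (fun y => ψ y = (ht (ψ y) : ZMod ν)), ht (ψ y) : ℕ) : ZMod ν) := by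
        rw [Nat.cast_sum]
        exact sum_congr rfl fun x hx => (mem_filter.1 hx).2
      have e2 : ∑ x ∈ S.filter (fun y => ¬ ψ y = (ht (ψ y) : ZMod ν)), ψ x =
          -((∑ y ∈ S.filter (fun y => ¬ ψ y = (ht (ψ y) : ZMod ν)), ht (ψ y) : ℕ) : ZMod ν) := by
        rw [Nat.cast_sum, ← sum_neg_distrib]
        refine sum_congr rfl fun x hx => ?_
        rcases eq_of_ht (rfl : ht (ψ x) = ht (ψ x)) with h | h
        · exact absurd h (mem_filter.1 hx).2
        · exact h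
      rw [e1, e2]
      abel
    rw [h2, Nat.cast_add, ← add_assoc, h3, Nat.cast_add]

/-- A window of maximal length is the whole interval of heights. -/
lemma interval_full {ν : ℕ} {ψ : K →+ ZMod ν} {D : Finset K} {w : ZMod ν}
    (hψ : Function.Surjective ψ) (hq : tot ψ D + 1 ≤ ν) (hw : Win ψ (SS D) w (tot ψ D + 1)) :
    ∀ i < tot ψ D + 1, ∀ z : K, ψ z + (neg' ψ D : ZMod ν) = (i : ZMod ν) → z ∈ SS D := by
  classical
  obtain ⟨q, hqd⟩ : ∃ q, q = tot ψ D + 1 := ⟨_, rfl⟩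
  rw [← hqd] at hq hw ⊢
  set W := (range q).image (fun i : ℕ => w + (i : ZMod ν)) with hW
  set I := (range q).image (fun i : ℕ => -(neg' ψ D : ZMod ν) + (i : ZMod ν)) with hI
  have hsub : W ⊆ I := by
    intro c hc
    rw [hW, mem_image] at hc
    obtain ⟨i, hi, rfl⟩ := hc
    obtain ⟨z, hz⟩ := hψ (w + (i : ZMod ν))
    have h1 : z ∈ SS D := hw i (mem_range.1 hi) (mem_fib.2 hz)
    obtain ⟨j, hj, hj'⟩ := range_heights ψ D z h1
    rw [hI, mem_image]
    refine ⟨j, mem_range.2 (by omega), ?_⟩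
    rw [← hj', ← hz]
    abel
  have hcard : I.card ≤ W.card := by
    rw [hW, hI, card_image_cast hq, card_image_cast hq]
  have heq : W = I := eq_of_subset_of_card_le hsub hcard
  intro i hi z hz
  have h1 : ψ z ∈ I := by
    rw [hI, mem_image]
    exact ⟨i, mem_range.2 hi, by rw [← hz]; abel⟩
  rw [← heq, hW, mem_image] at h1
  obtain ⟨j, hj, hj'⟩ := h1
  exact hw j (mem_range.1 hj) (mem_fib.2 hj'.symm)

lemma lev_neg {ν : ℕ} (ψ : K →+ ZMod ν) (A : Finset K) (v : ℕ) : lev (-ψ) A v = lev ψ A v := by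
  rw [lev, lev]
  congr 1
  ext x
  rw [AddMonoidHom.neg_apply, ht_neg]

lemma fib_neg {ν : ℕ} (ψ : K →+ ZMod ν) : fib (-ψ) 0 = fib ψ 0 := by
  ext x
  rw [mem_fib, mem_fib, AddMonoidHom.neg_apply, neg_eq_zero]

lemma tot_neg {ν : ℕ} (ψ : K →+ ZMod ν) (A : Finset K) : tot (-ψ) A = tot ψ A := by
  rw [tot, tot]
  refine sum_congr rfl fun x _ => ?_
  rw [AddMonoidHom.neg_apply, ht_neg]

/-- All signs are equal. -/
lemma signs {ν : ℕ} [NeZero ν] {ψ : K →+ ZMod ν} {A : Finset K} (hψ : Function.Surjective ψ)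
    (hA : ZSF A) {y0 : K} (hy0 : y0 ∈ A) (hy1 : ht (ψ y0) = 1) (htot : tot ψ A < ν)
    {w : ZMod ν} (hw : Win ψ (SS (A.erase y0)) w (tot ψ A)) :
    (∀ y ∈ A, ψ y = (ht (ψ y) : ZMod ν)) ∨ (∀ y ∈ A, -ψ y = (ht (ψ y) : ZMod ν)) := by
  have htot1 : tot ψ A = tot ψ (A.erase y0) + 1 := by
    rw [tot, tot, ← hy1]; exact (sum_erase_add _ _ hy0).symm
  have hnot : -y0 ∉ SS (A.erase y0) := hA.neg_notMem hy0 (erase_subset _ _) (notMem_erase _ _)
  rw [htot1] at hw htot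
  have hfull := interval_full hψ (by omega) hw
  obtain ⟨N, hN⟩ : ∃ N, N = neg' ψ (A.erase y0) := ⟨_, rfl⟩
  have hNle : N ≤ tot ψ (A.erase y0) := by rw [hN]; exact neg'_le_tot _ _
  rw [← hN] at hfull
  rcases eq_of_ht hy1 with h1 | h1
  · left
    have hN0 : N = 0 := by
      by_contra hne
      apply hnot
      refine hfull (N - 1) (by omega) _ ?_
      rw [map_neg, h1, Nat.cast_sub (by omega : 1 ≤ N)]
      abel
    intro y hy
    by_cases hyy : y = y0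
    · rw [hyy, hy1]; exact h1
    · by_contra hcon
      have h2 : y ∈ (A.erase y0).filter (fun y => ¬ ψ y = (ht (ψ y) : ZMod ν)) := by
        rw [mem_filter, mem_erase]; exact ⟨⟨hyy, hy⟩, hcon⟩
      have h3 : ht (ψ y) ≤ neg' ψ (A.erase y0) :=
        single_le_sum (f := fun y => ht (ψ y)) (fun _ _ => Nat.zero_le _) h2
      have h4 : ht (ψ y) = 0 := by omega
      apply hcon
      rw [h4, Nat.cast_zero]
      exact ht_eq_zero.1 h4
  · right
    -- positive part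
    have hpos : N = tot ψ (A.erase y0) := by
      by_contra hne
      apply hnot
      refine hfull (N + 1) (by omega) _ ?_
      rw [map_neg, h1, Nat.cast_add]
      abel
    intro y hy
    by_cases hyy : y = y0
    · rw [hyy, hy1, h1, neg_neg]
    · by_cases hcon : ψ y = (ht (ψ y) : ZMod ν)
      · have h2 : y ∈ (A.erase y0).filter (fun y => ψ y = (ht (ψ y) : ZMod ν)) := by
          rw [mem_filter, mem_erase]; exact ⟨⟨hyy, hy⟩, hcon⟩
        have h3 : ht (ψ y) ≤ ∑ y ∈ (A.erase y0).filter (fun y => ψ y = (ht (ψ y) : ZMod ν)),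
            ht (ψ y) := single_le_sum (f := fun y => ht (ψ y)) (fun _ _ => Nat.zero_le _) h2
        have h4 := sum_filter_add_sum_filter_not (A.erase y0)
          (fun y => ψ y = (ht (ψ y) : ZMod ν)) (fun y => ht (ψ y))
        have h5 : neg' ψ (A.erase y0) = ∑ y ∈ (A.erase y0).filter
          (fun y => ¬ ψ y = (ht (ψ y) : ZMod ν)), ht (ψ y) := rfl
        have h6 : tot ψ (A.erase y0) = ∑ y ∈ A.erase y0, ht (ψ y) := rfl
        have h7 : ht (ψ y) = 0 := by omega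
        rw [h7, Nat.cast_zero, ht_eq_zero.1 h7, neg_zero]
      · rcases eq_of_ht (rfl : ht (ψ y) = ht (ψ y)) with h | h
        · exact absurd h hcon
        · rw [neg_eq_iff_eq_neg]; exact h

end

lemma concl_num1C {m M a τ N S c1 L0 L ε : ℝ} (hM : M + a = m) (ha : 2 * a + 1 ≤ τ) (ha0 : 0 ≤ a)
    (hτ1 : 1 ≤ τ) (hm : 0 < m) (hN : 0 ≤ N) (hc1 : 0 < c1) (hL0 : 6000 ≤ c1 * L0) (hL0' : 0 ≤ L0)
    (hLL0 : L0 ≤ L) (hε : 0 < ε) (hε1 : ε ≤ 1/2)
    (hεm : 2010 * (1 / c1 + 1) ^ 2 ≤ ε * m)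
    (hL : 100000 ≤ L) (hτL : τ * L ≤ (1 + 1/50000) * m) (hgap : c1 * τ ≤ τ / 2 - a)
    (hm10 : 100 ≤ m)
    (hS : (M ^ 2 + τ * M) / 2 + 39/100 * m * N - 2000 * τ ^ 2 ≤ S) :
    m ^ 2 / 2 + (1/2 - ε) * m + 1 < S := by
  have hτ0 : 0 ≤ τ := by linarith
  have hτs : τ * 100000 ≤ τ * L := mul_le_mul_of_nonneg_left hL hτ0
  have hMm : 99/100 * m ≤ M := by linarith
  have h1 : τ * L0 ≤ 101/100 * m := by
    have : τ * L0 ≤ τ * L := mul_le_mul_of_nonneg_left hLL0 hτ0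
    linarith
  have h6 : a ^ 2 ≤ (τ / 2) ^ 2 := pow_le_pow_left₀ ha0 (by linarith) 2
  have h8 : (M ^ 2 + τ * M) / 2 = m ^ 2 / 2 + (τ / 2 - a) * M - a ^ 2 / 2 := by
    rw [← hM]; ring
  have h9 : 0 ≤ 39/100 * m * N := by positivity
  rw [h8] at hS
  by_cases hτc : τ ≤ 1 / c1
  · have h10 : (1/2) * M ≤ (τ / 2 - a) * M := mul_le_mul_of_nonneg_right (by linarith) (by linarith)
    have h11 : τ ^ 2 ≤ (1 / c1) ^ 2 := pow_le_pow_left₀ hτ0 hτc 2
    have h12 : 0 ≤ 1 / c1 := by positivity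
    have h13 : (1 / c1 + 1) ^ 2 = (1 / c1) ^ 2 + 2 * (1 / c1) + 1 := by ring
    rw [h13] at hεm
    have h14 : M = m - a := by linarith
    rw [h14] at h10 hS
    have h15 : (1/2 - ε) * m = m / 2 - ε * m := by ring
    rw [h15]
    nlinarith
  · push Not at hτc
    have h10 : c1 * τ * (99/100 * m) ≤ (τ / 2 - a) * M :=
      mul_le_mul hgap hMm (by positivity) (by nlinarith)
    have h11 : 1 ≤ c1 * τ := by
      rw [div_lt_iff₀ hc1] at hτc
      linarith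
    -- τ² ≤ (101/100) m τ / L0
    have h12 : τ * (τ * 6000) ≤ τ * (τ * (c1 * L0)) :=
      mul_le_mul_of_nonneg_left (mul_le_mul_of_nonneg_left hL0 hτ0) hτ0
    have h13 : τ * (τ * (c1 * L0)) = (c1 * τ) * (τ * L0) := by ring
    have h14 : (c1 * τ) * (τ * L0) ≤ (c1 * τ) * (101/100 * m) :=
      mul_le_mul_of_nonneg_left h1 (by linarith)
    have h15 : 1 * m ≤ (c1 * τ) * m := mul_le_mul_of_nonneg_right h11 hm.le
    have h16 : c1 * τ * (99/100 * m) = 99/100 * ((c1 * τ) * m) := by ring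
    have h17 : (c1 * τ) * (101/100 * m) = 101/100 * ((c1 * τ) * m) := by ring
    rw [h16] at h10
    rw [h17] at h14
    have h18 : (1/2 - ε) * m = m / 2 - ε * m := by ring
    have h19 : 0 < ε * m := by positivity
    rw [h18]
    nlinarith

lemma concl_num2C {m M a τ N S W ε : ℝ} (hM : M + a = m) (ha : 2 * a = τ) (ha0 : 0 ≤ a)
    (ha3 : a ≤ 3) (hm : 1000000 ≤ m) (hε : 0 < ε) (hε1 : ε ≤ 1/2) (hεm : 1000000 ≤ ε * m)
    (hN : N = 1 ∨ 2 ≤ N) (hW : W ≤ (1 + ε) * m)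
    (hS : (M ^ 2 + τ * M) / 2 + 39/100 * m * N - 2000 * τ ^ 2 ≤ S)
    (hS2 : (M ^ 2 + τ * M) / 2 + (M - W / 2) * N - 2000 * N ^ 2 - 2000 * τ ^ 2 ≤ S) :
    m ^ 2 / 2 + (1/2 - ε) * m + 1 < S := by
  have h8 : (M ^ 2 + τ * M) / 2 = m ^ 2 / 2 - a ^ 2 / 2 := by
    rw [← hM, ← ha]; ring
  have h2 : a ^ 2 ≤ 3 ^ 2 := pow_le_pow_left₀ ha0 ha3 2
  have h3 : τ ^ 2 = 4 * a ^ 2 := by rw [← ha]; ring
  rw [h8, h3] at hS hS2
  have h15 : (1/2 - ε) * m = m / 2 - ε * m := by ring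
  rw [h15]
  rcases hN with h | h
  · rw [h] at hS2
    have h16 : (1 + ε) * m = m + ε * m := by ring
    rw [h16] at hW
    linarith
  · have h1 : 39/100 * m * 2 ≤ 39/100 * m * N := mul_le_mul_of_nonneg_left h (by linarith)
    linarith

/-- The inverse theorem for generating sets. -/
theorem inverse (ε : ℝ) (hε : 0 < ε) (hε1 : ε ≤ 1/2) : ∃ M0 : ℕ, ∀ (K : Type u) [AddCommGroup K]
    [DecidableEq K] [Fintype K] (A : Finset K), ZSF A → M0 ≤ A.card → Gn A →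
    ((SS A).card : ℝ) ≤ (A.card : ℝ) ^ 2 / 2 + (1/2 - ε) * A.card + 1 →
    ∃ ν : ℕ, 0 < ν ∧ ∃ ψ : K →+ ZMod ν, Function.Surjective ψ ∧
      2 * (lev ψ A 0).card = (fib ψ 0).card ∧ (lev ψ A 0).card ≤ 3 ∧ SS (lev ψ A 0) = fib ψ 0 ∧
      (∀ y ∈ A, ψ y = (ht (ψ y) : ZMod ν)) ∧ tot ψ A < ν ∧
      (fib ψ 0).card * (tot ψ A + 1) ≤ (SS A).card := by
  obtain ⟨c1, hc1, hgap⟩ := gap_const.{u}
  obtain ⟨L0, hL0⟩ := exists_nat_ge (6000 / c1)
  obtain ⟨θ, hθ⟩ : ∃ θ : ℝ, θ = min ε (1/50000) := ⟨_, rfl⟩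
  have hθ0 : 0 < θ := by rw [hθ]; exact lt_min hε (by norm_num)
  have hθε : θ ≤ ε := by rw [hθ]; exact min_le_left _ _
  have hθ1 : θ ≤ 1/50000 := by rw [hθ]; exact min_le_right _ _
  obtain ⟨M1, hM1⟩ := structureC.{u} (max L0 100000) θ hθ0
  obtain ⟨M2, hM2⟩ := exists_nat_ge ((2010 * (1 / c1 + 1) ^ 2 + 1000000) / ε)
  refine ⟨max (max M1 M2) 1000000, fun K _ _ _ A hA hMA hG hSS3 => ?_⟩
  have hA1 : M1 ≤ A.card := le_trans (le_trans (le_max_left _ _) (le_max_left _ _)) hMA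
  have hA3 : M2 ≤ A.card := le_trans (le_trans (le_max_right _ _) (le_max_left _ _)) hMA
  have hA2 : 1000000 ≤ A.card := le_trans (le_max_right _ _) hMA
  have hm' : (1000000 : ℝ) ≤ A.card := by exact_mod_cast hA2
  have hεm : 2010 * (1 / c1 + 1) ^ 2 + 1000000 ≤ ε * A.card := by
    have h1 : (2010 * (1 / c1 + 1) ^ 2 + 1000000) / ε ≤ (A.card : ℝ) :=
      hM2.trans (by exact_mod_cast hA3)
    rw [div_le_iff₀ hε] at h1
    linarith
  have hsq : 0 ≤ 2010 * (1 / c1 + 1) ^ 2 := by positivity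
  have hSSm : 2 * (SS A).card ≤ A.card ^ 2 + A.card := by
    have h1 : 2 * ((SS A).card : ℝ) ≤ (A.card : ℝ) ^ 2 + A.card := by
      have h2 : (1/2 - ε) * (A.card : ℝ) = A.card / 2 - ε * A.card := by ring
      rw [h2] at hSS3
      linarith
    exact_mod_cast h1
  obtain ⟨ν, hν, ψ, hψ, L, hLL0, hL1, h100, h1', h2'⟩ := hM1 K A hA hA1 hG hSSm
  have : NeZero ν := ⟨hν.ne'⟩
  have hθm : θ * (A.card : ℝ) ≤ 1/50000 * A.card := mul_le_mul_of_nonneg_right hθ1 (by linarith)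
  have h1 : (1 - 1/50000) * (A.card : ℝ) ≤ (A.filter (fun x => ht (ψ x) ≤ L)).card := by
    linarith
  have h2 : ((fib ψ 0).card : ℝ) * L ≤ (1 + 1/50000) * A.card := by
    linarith
  have hLa : L0 ≤ L := le_trans (le_max_left _ _) hLL0
  have hLb : 100000 ≤ L := le_trans (le_max_right _ _) hLL0
  have hT := fib_zero_isSubgp ψ
  have hBT : lev ψ A 0 ⊆ fib ψ 0 := by
    intro x hx
    rw [lev, mem_filter, ht_eq_zero] at hx
    rw [mem_fib]; exact hx.2
  have hB : ZSF (lev ψ A 0) := hA.mono (filter_subset _ _)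
  have ha := two_card_le hT hBT hB
  obtain ⟨M, hM⟩ : ∃ M, M + (lev ψ A 0).card = A.card :=
    ⟨A.card - (lev ψ A 0).card, Nat.sub_add_cancel (card_le_card (filter_subset _ _))⟩
  have hM' : (M : ℝ) + (lev ψ A 0).card = A.card := by exact_mod_cast hM
  have hτpos : 0 < (fib ψ 0).card := card_pos.2 ⟨0, by rw [mem_fib, map_zero]⟩
  have hτ1 : (1 : ℝ) ≤ (fib ψ 0).card := by exact_mod_cast hτpos
  obtain ⟨hcount, hcount2⟩ := count_generalC A.card hψ hA hLb (by omega) h1 h2 le_rfl hSSm ha hM rfl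
  have htight : 2 * (lev ψ A 0).card = (fib ψ 0).card := by
    by_contra htight
    have hg := hgap K (fib ψ 0) (lev ψ A 0) hT hBT hB htight
    have ha' : 2 * ((lev ψ A 0).card : ℝ) + 1 ≤ (fib ψ 0).card := by
      exact_mod_cast (by omega : 2 * (lev ψ A 0).card + 1 ≤ (fib ψ 0).card)
    rw [div_le_iff₀ hc1] at hL0
    have := concl_num1C (c1 := c1) (L0 := L0) (L := L) (ε := ε) hM' ha' (Nat.cast_nonneg _) hτ1
      (by linarith) (Nat.cast_nonneg _) hc1 (by linarith) (Nat.cast_nonneg _)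
      (by exact_mod_cast hLa) hε hε1 (by linarith)
      (by exact_mod_cast hLb) h2 hg (by linarith) hcount
    linarith
  obtain ⟨ha3, hSS⟩ := tight_case hT hBT hB htight
  have ha3' : ((lev ψ A 0).card : ℝ) ≤ 3 := by exact_mod_cast ha3
  have htight' : 2 * ((lev ψ A 0).card : ℝ) = (fib ψ 0).card := by exact_mod_cast htight
  have hN : ∑ v ∈ Icc 1 (L / 2), hole ψ A v = 0 := by
    by_contra hN
    have hN1 : ((∑ v ∈ Icc 1 (L / 2), hole ψ A v : ℕ) : ℝ) = 1 ∨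
        (2 : ℝ) ≤ ((∑ v ∈ Icc 1 (L / 2), hole ψ A v : ℕ) : ℝ) := by
      have h3 : ∑ v ∈ Icc 1 (L / 2), hole ψ A v = 1 ∨ 2 ≤ ∑ v ∈ Icc 1 (L / 2), hole ψ A v := by
        omega
      rcases h3 with h3 | h3
      · left; exact_mod_cast h3
      · right; exact_mod_cast h3
    have := concl_num2C (ε := ε) (W := (fib ψ 0).card * L) hM' htight' (Nat.cast_nonneg _) ha3' hm'
      hε hε1 (by linarith) hN1 (by
        have h4 : θ * (A.card : ℝ) ≤ ε * A.card := mul_le_mul_of_nonneg_right hθε (by linarith)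
        linarith) hcount hcount2
    linarith
  obtain ⟨y0, hy0, hy1, htot, ⟨w, hw⟩, hlow⟩ :=
    count_tightC A.card hψ hA hLb (by omega) h1 h2 le_rfl hSSm htight hN hSS
  rcases signs hψ hA hy0 hy1 htot hw with hs | hs
  · exact ⟨ν, hν, ψ, hψ, htight, ha3, hSS, hs, htot, hlow⟩
  · refine ⟨ν, hν, -ψ, ?_, ?_, ?_, ?_, ?_, ?_, ?_⟩
    · intro c
      obtain ⟨z, hz⟩ := hψ (-c)
      exact ⟨z, by rw [AddMonoidHom.neg_apply, hz, neg_neg]⟩
    · rw [lev_neg, fib_neg]; exact htight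
    · rw [lev_neg]; exact ha3
    · rw [lev_neg, fib_neg]; exact hSS
    · intro y hy
      rw [AddMonoidHom.neg_apply, ht_neg]
      exact hs y hy
    · rw [tot_neg]; exact htot
    · rw [tot_neg, fib_neg]; exact hlow

end Pool.Agent.Lib.MP_ee6709_co
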