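import Mathlib

/-!
Heights of a finite family with at most `τ` elements of each height: if the total height is
near the least possible one, then there is no gap among the partial sums of the heights.
-/

set_option autoImplicit false

open Finset

namespace Pool.Agent.Lib.MP_ee6709_co

/-- few elements of small height -/
theorem ng_count {α : Type*} [DecidableEq α] (F : Finset α) (h : α → ℕ) (τ v : ℕ)
    (hv : ∀ x ∈ F, v ≤ h x) (hcnt : ∀ j, (F.filter (fun x => h x = j)).card ≤ τ) (i : ℕ) :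
    (F.filter (fun x => h x ≤ v + i)).card ≤ τ * (i + 1) := by
  induction i with
  | zero =>
    have : F.filter (fun x => h x ≤ v + 0) ⊆ F.filter (fun x => h x = v) := by
      intro x hx
      rw [mem_filter] at hx ⊢
      have := hv x hx.1
      exact ⟨hx.1, by omega⟩
    have h1 := card_le_card this
    have h2 := hcnt v
    omega
  | succ i ih =>
    have : F.filter (fun x => h x ≤ v + (i + 1)) ⊆
        F.filter (fun x => h x ≤ v + i) ∪ F.filter (fun x => h x = v + (i + 1)) := by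
      intro x hx
      rw [mem_filter] at hx
      rw [mem_union, mem_filter, mem_filter]
      by_cases hc : h x ≤ v + i
      · exact Or.inl ⟨hx.1, hc⟩
      · exact Or.inr ⟨hx.1, by omega⟩
    have h1 := card_le_card this
    have h2 := card_union_le (F.filter (fun x => h x ≤ v + i))
      (F.filter (fun x => h x = v + (i + 1)))
    have h3 := hcnt (v + (i + 1))
    calc (F.filter (fun x => h x ≤ v + (i + 1))).card ≤ τ * (i + 1) + τ := by omega
      _ = τ * (i + 1 + 1) := by ring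

/-- truncated heights -/
theorem ng_layer {α : Type*} [DecidableEq α] (F : Finset α) (h : α → ℕ) (τ v : ℕ)
    (hv : ∀ x ∈ F, v ≤ h x) (hcnt : ∀ j, (F.filter (fun x => h x = j)).card ≤ τ) (K : ℕ) :
    2 * K * F.card ≤ 2 * ∑ x ∈ F, min (h x - v) K + τ * (K * (K + 1)) := by
  induction K with
  | zero => simp
  | succ K ih =>
    have h1 : ∑ x ∈ F, min (h x - v) (K + 1) =
        ∑ x ∈ F, min (h x - v) K + (F.filter (fun x => ¬ h x ≤ v + K)).card := by
      rw [card_filter, ← sum_add_distrib]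
      refine sum_congr rfl ?_
      intro x hx
      have := hv x hx
      by_cases hc : h x ≤ v + K
      · rw [if_neg (by simpa using hc)]
        omega
      · rw [if_pos hc]
        omega
    have h2 := ng_count F h τ v hv hcnt K
    have h3 := card_filter_add_card_filter_not (s := F) (fun x => h x ≤ v + K)
    rw [h1]
    nlinarith

/-- the least total height of `n` elements of height at least `v` -/
theorem ng_low {α : Type*} [DecidableEq α] (F : Finset α) (h : α → ℕ) (τ v : ℕ) (hτ : 0 < τ)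
    (hv : ∀ x ∈ F, v ≤ h x) (hcnt : ∀ j, (F.filter (fun x => h x = j)).card ≤ τ) :
    2 * τ * v * F.card + F.card ^ 2 ≤ 2 * τ * ∑ x ∈ F, h x + τ * F.card := by
  set n := F.card with hn
  set K := n / τ with hK
  have h1 := ng_layer F h τ v hv hcnt K
  have h2 : ∑ x ∈ F, min (h x - v) K + v * n ≤ ∑ x ∈ F, h x := by
    have : ∑ x ∈ F, (min (h x - v) K + v) ≤ ∑ x ∈ F, h x := by
      refine sum_le_sum ?_
      intro x hx
      have := hv x hx
      omega
    rw [sum_add_distrib, sum_const, smul_eq_mul] at this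
    rw [mul_comm v n]
    exact this
  obtain ⟨r, hr, hr2⟩ : ∃ r, n = τ * K + r ∧ r < τ :=
    ⟨n % τ, (Nat.div_add_mod n τ).symm, Nat.mod_lt _ hτ⟩
  rw [← hn] at h1
  generalize (∑ x ∈ F, min (h x - v) K) = A at h1 h2
  generalize (∑ x ∈ F, h x) = B at h2
  obtain ⟨s, hs⟩ : ∃ s, τ = r + s := ⟨τ - r, by omega⟩
  have h4 : 2 * τ * (A + v * n) ≤ 2 * τ * B := Nat.mul_le_mul_left _ h2
  have h5 : τ * (2 * K * n) ≤ τ * (2 * A + τ * (K * (K + 1))) := Nat.mul_le_mul_left _ h1
  have h6 : n ^ 2 + τ * (τ * (K * (K + 1))) + r * s = τ * (2 * K * n) + τ * n := by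
    rw [hr, hs]
    ring
  nlinarith

theorem no_gap_step {α : Type*} [DecidableEq α] (F : Finset α) (h : α → ℕ) (τ m : ℕ)
    (hτ : τ = 2 ∨ τ = 4 ∨ τ = 6) (hpos : ∀ x ∈ F, 1 ≤ h x)
    (hcnt : ∀ j, (F.filter (fun x => h x = j)).card ≤ τ) (hm : 2 * F.card + τ = 2 * m)
    (hH : 2 * τ * (∑ x ∈ F, h x + 1) ≤ m ^ 2 + m + 2) (y : α) (hy : y ∈ F) :
    h y ≤ 1 + ∑ x ∈ F.filter (fun x => h x < h y), h x := by
  by_contra hcon
  push Not at hcon
  have hτ0 : 0 < τ := by omega
  set v := h y with hv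
  set F1 := F.filter (fun x => h x < v) with hF1
  set F2 := F.filter (fun x => ¬ h x < v) with hF2
  have hc1 : ∀ j, (F1.filter (fun x => h x = j)).card ≤ τ := fun j =>
    (card_le_card (filter_subset_filter _ (filter_subset _ _))).trans (hcnt j)
  have hc2 : ∀ j, (F2.filter (fun x => h x = j)).card ≤ τ := fun j =>
    (card_le_card (filter_subset_filter _ (filter_subset _ _))).trans (hcnt j)
  have h1 := ng_low F1 h τ 1 hτ0 (fun x hx => hpos x (mem_of_mem_filter x hx)) hc1
  have h2 := ng_low F2 h τ v hτ0 (fun x hx => by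
    rw [hF2, mem_filter] at hx
    omega) hc2
  have h3 : F1.card + F2.card = F.card := card_filter_add_card_filter_not _
  have h4 : ∑ x ∈ F1, h x + ∑ x ∈ F2, h x = ∑ x ∈ F, h x := sum_filter_add_sum_filter_not _ _ _
  have h5 : 1 ≤ F2.card := by
    refine card_pos.2 ⟨y, ?_⟩
    rw [hF2, mem_filter]
    exact ⟨hy, by omega⟩
  rw [← h4] at hH
  rw [← h3] at hm
  generalize (∑ x ∈ F1, h x) = P at h1 hH hcon
  generalize (∑ x ∈ F2, h x) = Q at h2 hH
  generalize F1.card = n at h1 hm
  generalize F2.card = x at h2 hm h5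
  clear_value v
  clear hc1 hc2 hcnt hpos h3 h4 hF1 hF2
  obtain ⟨w, rfl⟩ : ∃ w, v = P + 2 + w := ⟨v - (P + 2), by omega⟩
  obtain ⟨z, rfl⟩ : ∃ z, x = z + 1 := ⟨x - 1, by omega⟩
  rcases hτ with rfl | rfl | rfl
  · obtain rfl : m = z + 1 + n + 1 := by omega
    nlinarith [mul_nonneg (Nat.zero_le z) (Nat.zero_le n), Nat.zero_le (z * n ^ 2),
      Nat.zero_le (w * z), Nat.mul_le_mul_left (z + 1) h1]
  · obtain rfl : m = z + 1 + n + 2 := by omega
    nlinarith [mul_nonneg (Nat.zero_le z) (Nat.zero_le n), Nat.zero_le (z * n ^ 2),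
      Nat.zero_le (w * z), Nat.mul_le_mul_left (z + 1) h1]
  · obtain rfl : m = z + 1 + n + 3 := by omega
    nlinarith [mul_nonneg (Nat.zero_le z) (Nat.zero_le n), Nat.zero_le (z * n ^ 2),
      Nat.zero_le (w * z), Nat.mul_le_mul_left (z + 1) h1]

/-- partial sums without gaps -/
theorem no_gap_sums {α : Type*} [DecidableEq α] (h : α → ℕ) (F : Finset α)
    (hF : ∀ y ∈ F, h y ≤ 1 + ∑ x ∈ F.filter (fun x => h x < h y), h x) :
    ∀ k ≤ ∑ x ∈ F, h x, ∃ S ⊆ F, ∑ x ∈ S, h x = k := by
  induction F using Finset.induction_on_max_value h with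
  | empty =>
    intro k hk
    rw [sum_empty] at hk
    exact ⟨∅, subset_rfl, by rw [sum_empty]; omega⟩
  | insert a s has hmax ih =>
    have h1 : ∀ y ∈ s, h y ≤ 1 + ∑ x ∈ s.filter (fun x => h x < h y), h x := by
      intro y hy
      have h2 := hF y (mem_insert_of_mem hy)
      rw [filter_insert, if_neg (by have := hmax y hy; omega)] at h2
      exact h2
    have h3 := ih h1
    have h4 : h a ≤ 1 + ∑ x ∈ s, h x := by
      have h2 := hF a (mem_insert_self a s)
      rw [filter_insert, if_neg (lt_irrefl _)] at h2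
      have h5 : ∑ x ∈ s.filter (fun x => h x < h a), h x ≤ ∑ x ∈ s, h x :=
        sum_le_sum_of_subset (filter_subset _ _)
      omega
    intro k hk
    rw [sum_insert has] at hk
    by_cases hc : k ≤ ∑ x ∈ s, h x
    · obtain ⟨S, hS, hS2⟩ := h3 k hc
      exact ⟨S, hS.trans (subset_insert _ _), hS2⟩
    · obtain ⟨S, hS, hS2⟩ := h3 (k - h a) (by omega)
      refine ⟨insert a S, insert_subset_insert _ hS, ?_⟩
      rw [sum_insert (fun hm => has (hS hm)), hS2]
      omega

theorem no_gap {α : Type*} [DecidableEq α] (F : Finset α) (h : α → ℕ) (τ m : ℕ)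
    (hτ : τ = 2 ∨ τ = 4 ∨ τ = 6) (hpos : ∀ x ∈ F, 1 ≤ h x)
    (hcnt : ∀ j, (F.filter (fun x => h x = j)).card ≤ τ) (hm : 2 * F.card + τ = 2 * m)
    (hH : 2 * τ * (∑ x ∈ F, h x + 1) ≤ m ^ 2 + m + 2) :
    ∀ k ≤ ∑ x ∈ F, h x, ∃ S ⊆ F, ∑ x ∈ S, h x = k :=
  no_gap_sums h F (fun y hy => no_gap_step F h τ m hτ hpos hcnt hm hH y hy)

end Pool.Agent.Lib.MP_ee6709_co
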