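import Pool.Agent.Lib.MP_ee6709_co.Example

/-!
# The sets `{1, ..., m}` in cyclic groups of odd order (MP_7710ee_co)
-/

set_option linter.style.longLine false

namespace Pool.Agent.Lib.MP_ee6709_co

open Finset

lemma subset_sum_Icc (m : ℕ) : ∀ k ≤ m * (m + 1) / 2, ∃ S ⊆ Icc 1 m, ∑ x ∈ S, x = k := by
  induction m with
  | zero =>
    intro k hk
    refine ⟨∅, by simp, ?_⟩
    simp at hk
    simp [hk]
  | succ m ih =>
    intro k hk
    have e : (m + 1) * (m + 1 + 1) / 2 = m * (m + 1) / 2 + (m + 1) := by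
      have : (m + 1) * (m + 1 + 1) = m * (m + 1) + 2 * (m + 1) := by ring
      rw [this]; omega
    rw [e] at hk
    by_cases h : k ≤ m * (m + 1) / 2
    · obtain ⟨S, hS, hs⟩ := ih k h
      exact ⟨S, hS.trans (Icc_subset_Icc_right (by omega)), hs⟩
    · have hge : m ≤ m * (m + 1) / 2 := by
        rcases m with _ | m
        · simp
        · have : (m + 1) * 2 ≤ (m + 1) * (m + 1 + 1) := Nat.mul_le_mul_left _ (by omega)
          omega
      obtain ⟨S, hS, hs⟩ := ih (k - (m + 1)) (by omega)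
      refine ⟨insert (m + 1) S, ?_, ?_⟩
      · intro x hx
        rw [mem_insert] at hx
        rw [mem_Icc]
        rcases hx with hx | hx
        · omega
        · have := mem_Icc.1 (hS hx)
          omega
      · rw [sum_insert, hs]
        · omega
        · intro hx
          have := mem_Icc.1 (hS hx)
          omega

lemma sum_Icc_id (m : ℕ) : ∑ x ∈ Icc 1 m, x = m * (m + 1) / 2 := by
  induction m with
  | zero => simp
  | succ m ih =>
    rw [sum_Icc_succ_top (by omega), ih]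
    have : (m + 1) * (m + 1 + 1) = m * (m + 1) + 2 * (m + 1) := by ring
    rw [this]; omega

/-- The sets `{1, ..., m}` in the cyclic group of odd order `m (m + 1) + 1`. -/
theorem sharp_zmod (m : ℕ) : ∃ (n : ℕ) (A : Finset (ZMod n)), Odd n ∧ A.card = m ∧
    WeaklyZeroSumFree A ∧ (SigmaStar A).encard = ((m * (m + 1) / 2 : ℕ) : ℕ∞) := by
  obtain ⟨s, hs⟩ : ∃ s, s = m * (m + 1) / 2 := ⟨_, rfl⟩
  obtain ⟨n, hn⟩ : ∃ n, n = m * (m + 1) + 1 := ⟨_, rfl⟩
  have hev : Even (m * (m + 1)) := Nat.even_mul_succ_self m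
  have hodd : Odd n := by rw [hn]; exact hev.add_one
  have hsn : s < n := by omega
  have hms : m ≤ s := by
    have h1 := sum_Icc_id m
    rw [hs, ← h1]
    rcases Nat.eq_zero_or_pos m with h | h
    · omega
    · exact single_le_sum (f := fun x => x) (fun _ _ => Nat.zero_le _) (mem_Icc.2 ⟨h, le_rfl⟩)
  have : NeZero n := ⟨by omega⟩
  have hinj : ∀ a ≤ s, ∀ b ≤ s, ((a : ℕ) : ZMod n) = (b : ZMod n) → a = b := by
    intro a ha b hb hab
    rw [ZMod.natCast_eq_natCast_iff'] at hab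
    rwa [Nat.mod_eq_of_lt (by omega), Nat.mod_eq_of_lt (by omega)] at hab
  have hinjI : Set.InjOn (fun a : ℕ => (a : ZMod n)) (Icc 1 m : Finset ℕ) := by
    intro a ha b hb hab
    rw [mem_coe, mem_Icc] at ha hb
    exact hinj a (by omega) b (by omega) hab
  have hsum : ∀ S ⊆ Icc 1 m, ∑ x ∈ S, x ≤ s := by
    intro S hS
    rw [hs, ← sum_Icc_id m]
    exact sum_le_sum_of_subset hS
  -- the sums
  have hsig : SigmaStar ((Icc 1 m).image (fun a : ℕ => (a : ZMod n))) =
      (fun a : ℕ => (a : ZMod n)) '' (Icc 1 s : Finset ℕ) := by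
    ext z
    constructor
    · rintro ⟨B, hB, hne, rfl⟩
      obtain ⟨S, hS, rfl⟩ := subset_image_iff.1 hB
      rw [sum_image (fun a ha b hb hab => hinjI (hS ha) (hS hb) hab), ← Nat.cast_sum]
      refine ⟨∑ x ∈ S, x, ?_, rfl⟩
      rw [mem_coe, mem_Icc]
      refine ⟨?_, hsum S hS⟩
      rw [image_nonempty] at hne
      obtain ⟨x, hx⟩ := hne
      have h1 : x ≤ ∑ x ∈ S, x :=
        single_le_sum (f := fun x : ℕ => x) (fun _ _ => Nat.zero_le _) hx
      have h2 := mem_Icc.1 (hS hx)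
      omega
    · rintro ⟨k, hk, rfl⟩
      rw [mem_coe, mem_Icc] at hk
      obtain ⟨S, hS, hSk⟩ := subset_sum_Icc m k (by rw [← hs]; exact hk.2)
      refine ⟨S.image (fun a : ℕ => (a : ZMod n)), image_subset_image hS, ?_, ?_⟩
      · rw [image_nonempty, nonempty_iff_ne_empty]
        intro h
        rw [h, sum_empty] at hSk
        omega
      · rw [sum_image (fun a ha b hb hab => hinjI (hS ha) (hS hb) hab), ← Nat.cast_sum, hSk]
  refine ⟨n, (Icc 1 m).image (fun a : ℕ => (a : ZMod n)), hodd, ?_, ?_, ?_⟩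
  · rw [card_image_of_injOn hinjI, Nat.card_Icc, Nat.add_sub_cancel]
  · rw [WeaklyZeroSumFree, hsig]
    rintro ⟨k, hk, h0⟩
    rw [mem_coe, mem_Icc] at hk
    have := hinj k hk.2 0 (Nat.zero_le _) (by simpa using h0)
    omega
  · rw [hsig, Set.InjOn.encard_image, Set.encard_coe_eq_coe_finsetCard, Nat.card_Icc,
      Nat.add_sub_cancel, hs]
    intro a ha b hb hab
    rw [mem_coe, mem_Icc] at ha hb
    exact hinj a ha.2 b hb.2 hab

end Pool.Agent.Lib.MP_ee6709_co
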