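import Pool.Agent.Lib.MP_7710ee_inv.Class2
import Pool.Agent.Lib.MP_7710ee_inv.NoGap

/-!
# The stability theorem (MP_7710ee_co)

For `2 |Σ*A| ≤ m² + (1 - 2 ε) m` the set `A` has the structure described by a subgroup of order
`2`, `4` or `6` and heights, and conversely every such structure gives a set with the given number
of subset sums.
-/

set_option linter.style.longLine false
set_option linter.unusedSectionVars false

namespace Pool.Agent.Lib.MP_ee6709_co

open Finset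

universe u

section
variable {G : Type u} [AddCommGroup G] [DecidableEq G] [Fintype G]

/-- The structure: `B` is a zero-sum-free half of `T`, the elements of `A` lie in the cosets
`h x • g + T` and the total height is less than the order of `g` modulo `T`. -/
structure Hts (A : Finset G) (T : AddSubgroup G) (g : G) (h : G → ℕ) (B : Finset G) : Prop where
  mem : ∀ x, x ∈ B ↔ x ∈ A ∧ x ∈ T
  zsf : ZSF B
  half : 2 * B.card = Nat.card T
  hts : ∀ x ∈ A, x - h x • g ∈ T
  tot : ∀ j : ℕ, 1 ≤ j → j ≤ ∑ x ∈ A, h x → j • g ∉ T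

namespace Hts
variable {A : Finset G} {T : AddSubgroup G} {g : G} {h : G → ℕ} {B : Finset G}

lemma zero_iff (H : Hts A T g h B) {x : G} (hx : x ∈ A) : h x = 0 ↔ x ∈ B := by
  constructor
  · intro h0
    have := H.hts x hx
    rw [h0, zero_nsmul, sub_zero] at this
    exact (H.mem x).2 ⟨hx, this⟩
  · intro hB
    by_contra h0
    have h1 : h x ≤ ∑ x ∈ A, h x := single_le_sum (f := h) (fun _ _ => Nat.zero_le _) hx
    apply H.tot (h x) (Nat.one_le_iff_ne_zero.2 h0) h1
    have h2 := T.sub_mem ((H.mem x).1 hB).2 (H.hts x hx)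
    rwa [sub_sub_cancel] at h2

lemma sum_mem (H : Hts A T g h B) {S : Finset G} (hS : S ⊆ A) :
    ∑ x ∈ S, x - (∑ x ∈ S, h x) • g ∈ T := by
  rw [← Finset.sum_nsmul_assoc, ← sum_sub_distrib]
  exact T.sum_mem fun x hx => H.hts x (hS hx)

lemma sum_le {S : Finset G} (hS : S ⊆ A) : ∑ x ∈ S, h x ≤ ∑ x ∈ A, h x :=
  sum_le_sum_of_subset hS

lemma zsfA (H : Hts A T g h B) : ZSF A := by
  intro S hS h0
  have h3 := H.sum_mem hS
  rw [h0, zero_sub, neg_mem_iff] at h3
  have h5 : ∑ x ∈ S, h x = 0 := by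
    by_contra hne
    exact H.tot _ (Nat.one_le_iff_ne_zero.2 hne) (sum_le hS) h3
  refine H.zsf S (fun x hx => ?_) h0
  exact (H.zero_iff (hS hx)).1 (sum_eq_zero_iff.1 h5 x hx)

lemma upper (H : Hts A T g h B) : (SS A).card ≤ Nat.card T * (∑ x ∈ A, h x + 1) := by
  classical
  have h3 : SS A ⊆ (range (∑ x ∈ A, h x + 1)).biUnion (cos' T g) := by
    intro z hz
    obtain ⟨S, hS, rfl⟩ := mem_SS.1 hz
    rw [mem_biUnion]
    refine ⟨∑ x ∈ S, h x, ?_, ?_⟩
    · rw [mem_range]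
      exact Nat.lt_succ_of_le (sum_le hS)
    · rw [mem_cos']
      exact H.sum_mem hS
  calc (SS A).card ≤ _ := card_le_card h3
    _ ≤ ∑ i ∈ range (∑ x ∈ A, h x + 1), (cos' T g i).card := card_biUnion_le
    _ = (∑ x ∈ A, h x + 1) * Nat.card T := by
      rw [sum_congr rfl fun i _ => card_cos' T g i, sum_const, card_range, smul_eq_mul]
    _ = Nat.card T * (∑ x ∈ A, h x + 1) := by ring

lemma le3 (H : Hts A T g h B) : 1 ≤ B.card ∧ B.card ≤ 3 :=
  half_le (fun x hx => ((H.mem x).1 hx).2) H.zsf H.half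

lemma SSB (H : Hts A T g h B) {t : G} (ht : t ∈ T) : t ∈ SS B := by
  classical
  have hT : IsSubgp (univ.filter (fun x => x ∈ T)) := by
    constructor
    · rw [mem_filter]; exact ⟨mem_univ _, T.zero_mem⟩
    · intro a ha b hb
      rw [mem_filter] at *
      exact ⟨mem_univ _, T.sub_mem ha.2 hb.2⟩
  have hBT : B ⊆ univ.filter (fun x => x ∈ T) := by
    intro x hx
    rw [mem_filter]; exact ⟨mem_univ _, ((H.mem x).1 hx).2⟩
  have hc : (univ.filter (fun x => x ∈ T)).card = Nat.card T := by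
    rw [Nat.card_eq_fintype_card, Fintype.card_subtype]
  rw [(tight_case hT hBT H.zsf (by rw [hc]; exact H.half)).2, mem_filter]
  exact ⟨mem_univ _, ht⟩

lemma lower (H : Hts A T g h B)
    (hA : 2 * (Nat.card T * (∑ x ∈ A, h x + 1)) ≤ A.card ^ 2 + A.card + 2) :
    Nat.card T * (∑ x ∈ A, h x + 1) ≤ (SS A).card := by
  classical
  have hBA : B ⊆ A := fun x hx => ((H.mem x).1 hx).1
  obtain ⟨F, hF⟩ : ∃ F, F = A \ B := ⟨_, rfl⟩
  have hFA : F ⊆ A := by rw [hF]; exact sdiff_subset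
  have hFmem : ∀ x ∈ F, x ∈ A ∧ x ∉ B := by
    intro x hx
    rw [hF, mem_sdiff] at hx
    exact hx
  have hsumF : ∑ x ∈ F, h x = ∑ x ∈ A, h x := by
    refine sum_subset hFA fun x hx hxF => ?_
    rw [H.zero_iff hx]
    by_contra hxB
    exact hxF (by rw [hF, mem_sdiff]; exact ⟨hx, hxB⟩)
  have hcard : F.card + B.card = A.card := by
    rw [hF, card_sdiff_add_card_eq_card hBA]
  have hhalf := H.half
  obtain ⟨h1, h2⟩ := H.le3
  have hgap := no_gap F h (Nat.card T) A.card (by omega)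
    (fun x hx => by
      have := hFmem x hx
      have h3 : h x ≠ 0 := fun h0 => this.2 ((H.zero_iff this.1).1 h0)
      omega)
    (fun j => by
      rw [← card_cos' T g j]
      refine card_le_card fun x hx => ?_
      rw [mem_filter] at hx
      rw [mem_cos', ← hx.2]
      exact H.hts x (hFA hx.1))
    (by omega)
    (by rw [hsumF]; calc _ = 2 * (Nat.card T * (∑ x ∈ A, h x + 1)) := by ring
          _ ≤ _ := hA)
  rw [hsumF] at hgap
  have hsub : (range (∑ x ∈ A, h x + 1)).biUnion (cos' T g) ⊆ SS A := by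
    intro z hz
    rw [mem_biUnion] at hz
    obtain ⟨k, hk, hz⟩ := hz
    rw [mem_range] at hk
    rw [mem_cos'] at hz
    obtain ⟨S, hS, hSk⟩ := hgap k (by omega)
    have h3 := H.sum_mem (hS.trans hFA)
    rw [hSk] at h3
    have h4 := T.sub_mem hz h3
    have h5 : z - k • g - (∑ x ∈ S, x - k • g) = z - ∑ x ∈ S, x := by abel
    rw [h5] at h4
    obtain ⟨S', hS', hs'⟩ := mem_SS.1 (H.SSB h4)
    refine mem_SS.2 ⟨S ∪ S', union_subset (hS.trans hFA) (hS'.trans hBA), ?_⟩
    rw [sum_union, hs']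
    · abel
    · rw [disjoint_left]
      intro x hx hx'
      exact (hFmem x (hS hx)).2 (hS' hx')
  refine le_trans (le_of_eq ?_) (card_le_card hsub)
  rw [card_biUnion]
  · rw [sum_congr rfl fun i _ => card_cos' T g i, sum_const, card_range, smul_eq_mul, mul_comm]
  · intro i hi j hj hij
    rw [mem_coe, mem_range] at hi hj
    exact cos'_disjoint H.tot (by omega) (by omega) hij

end Hts

end

/-- The inverse theorem: few subset sums give the structure. -/
theorem stab_fwd (ε : ℝ) (hε : 0 < ε) (hε1 : ε ≤ 1/2) :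
    ∃ M0 : ℕ, ∀ (G : Type u) [AddCommGroup G] [DecidableEq G] [Fintype G]
    (A : Finset G), ZSF A → M0 ≤ A.card →
    ((SS A).card : ℝ) ≤ (A.card : ℝ) ^ 2 / 2 + (1/2 - ε) * A.card + 1 →
    ∃ (T : AddSubgroup G) (g : G) (h : G → ℕ) (B : Finset G), Hts A T g h B ∧
      (SS A).card = Nat.card T * (∑ x ∈ A, h x + 1) := by
  classical
  obtain ⟨M0, hM0⟩ := inverse.{u} ε hε hε1
  refine ⟨M0, fun G _ _ _ A hA hMA hS => ?_⟩
  obtain ⟨K, _, _, _, f, A', hinj, himg, hA', hG', hc, hs⟩ := exists_gen2 G A hA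
  obtain ⟨ν, hν, ψ, hψ, h2, h3, -, hsg, htot, hlow⟩ :=
    hM0 K A' hA' (by rw [hc]; exact hMA) hG' (by rw [hc, hs]; exact hS)
  obtain ⟨g', hg'⟩ := hψ 1
  have hker : Nat.card ψ.ker = (fib ψ 0).card := by
    rw [Nat.card_eq_fintype_card, Fintype.card_subtype]
    congr 1
    ext x
    rw [mem_filter, mem_fib, AddMonoidHom.mem_ker]
    simp
  have hT : Nat.card (ψ.ker.map f) = (fib ψ 0).card := by
    rw [← hker]
    exact Nat.card_congr (ψ.ker.equivMapOfInjective f hinj).toEquiv.symm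
  have hmemT : ∀ (x : K) (i : ℕ), f x - i • f g' ∈ ψ.ker.map f ↔ ψ x = (i : ZMod ν) := by
    intro x i
    rw [← map_nsmul, ← map_sub, AddSubgroup.mem_map_iff_mem hinj, AddMonoidHom.mem_ker, map_sub,
      map_nsmul, hg', sub_eq_zero, nsmul_one]
  have hnj : ∀ j : ℕ, 1 ≤ j → j ≤ tot ψ A' → j • f g' ∉ ψ.ker.map f := by
    intro j hj1 hj2 hjT
    have h7 : ψ (j • g') = 0 := by
      have h8 : f (j • g') ∈ ψ.ker.map f := by rw [map_nsmul]; exact hjT
      rw [AddSubgroup.mem_map_iff_mem hinj, AddMonoidHom.mem_ker] at h8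
      exact h8
    rw [map_nsmul, hg', nsmul_one, ZMod.natCast_eq_zero_iff] at h7
    have h9 := Nat.le_of_dvd (by omega) h7
    omega
  have hht : ∀ y ∈ A', wt' (ψ.ker.map f) (f g') (f y) = ht (ψ y) := by
    intro y hy
    refine wt'_eq hnj ?_ ((hmemT y _).2 (hsg y hy))
    exact single_le_sum (f := fun y => ht (ψ y)) (fun _ _ => Nat.zero_le _) hy
  have hsum : ∑ x ∈ A, wt' (ψ.ker.map f) (f g') x = tot ψ A' := by
    rw [← himg, sum_image (fun a _ b _ hab => hinj hab), tot]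
    exact sum_congr rfl hht
  have hlev : (lev ψ A' 0).image f = A.filter (fun x => x ∈ ψ.ker.map f) := by
    ext x
    rw [mem_image, mem_filter]
    constructor
    · rintro ⟨y, hy, rfl⟩
      rw [lev, mem_filter, ht_eq_zero] at hy
      refine ⟨by rw [← himg]; exact mem_image_of_mem _ hy.1, ?_⟩
      rw [AddSubgroup.mem_map_iff_mem hinj, AddMonoidHom.mem_ker]
      exact hy.2
    · rintro ⟨hx, hxT⟩
      rw [← himg, mem_image] at hx
      obtain ⟨y, hy, rfl⟩ := hx
      rw [AddSubgroup.mem_map_iff_mem hinj, AddMonoidHom.mem_ker] at hxT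
      refine ⟨y, ?_, rfl⟩
      rw [lev, mem_filter, ht_eq_zero]
      exact ⟨hy, hxT⟩
  have hH : Hts A (ψ.ker.map f) (f g') (wt' (ψ.ker.map f) (f g'))
      (A.filter (fun x => x ∈ ψ.ker.map f)) := by
    refine ⟨fun x => by rw [mem_filter], hA.mono (filter_subset _ _), ?_, ?_, ?_⟩
    · rw [← hlev, card_image_of_injective _ hinj, h2, hT]
    · intro x hx
      rw [← himg, mem_image] at hx
      obtain ⟨y, hy, rfl⟩ := hx
      exact wt'_mem ((hmemT y _).2 (hsg y hy))
    · rw [hsum]; exact hnj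
  refine ⟨_, _, _, _, hH, le_antisymm hH.upper ?_⟩
  rw [hsum, hT, ← hs]
  exact hlow

/-- **Stability.** -/
theorem stability (ε : ℝ) (hε : 0 < ε) :
    ∃ M0 : ℕ, ∀ (G : Type u) [AddCommGroup G] [DecidableEq G] [Fintype G] (A : Finset G) (s : ℕ),
    M0 ≤ A.card → (s : ℝ) ≤ (A.card : ℝ) ^ 2 / 2 + (1/2 - ε) * A.card →
    ((ZSF A ∧ (SS A).card = s + 1) ↔
      ∃ (T : AddSubgroup G) (g : G) (h : G → ℕ) (B : Finset G), Hts A T g h B ∧
        s + 1 = Nat.card T * (∑ x ∈ A, h x + 1)) := by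
  obtain ⟨M0, hM0⟩ := stab_fwd.{u} (min ε (1/2)) (lt_min hε (by norm_num)) (min_le_right _ _)
  refine ⟨M0, fun G _ _ _ A s hMA hs => ?_⟩
  have hm0 : (0 : ℝ) ≤ A.card := Nat.cast_nonneg _
  constructor
  · rintro ⟨hA, hS⟩
    have h1 : ((SS A).card : ℝ) ≤ (A.card : ℝ) ^ 2 / 2 + (1/2 - min ε (1/2)) * A.card + 1 := by
      rw [hS]
      push_cast
      have h2 : (1/2 - ε) * (A.card : ℝ) ≤ (1/2 - min ε (1/2)) * A.card :=
        mul_le_mul_of_nonneg_right (by linarith [min_le_left ε (1/2 : ℝ)]) hm0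
      linarith
    obtain ⟨T, g, h, B, hH, heq⟩ := hM0 G A hA hMA h1
    exact ⟨T, g, h, B, hH, by rw [← heq, hS]⟩
  · rintro ⟨T, g, h, B, hH, heq⟩
    refine ⟨hH.zsfA, le_antisymm (by rw [heq]; exact hH.upper) ?_⟩
    rw [heq]
    apply hH.lower
    rw [← heq]
    have h1 : 2 * ((s : ℝ) + 1) ≤ (A.card : ℝ) ^ 2 + A.card + 2 := by
      have h2 : (1/2 - ε) * (A.card : ℝ) ≤ 1/2 * A.card :=
        mul_le_mul_of_nonneg_right (by linarith) hm0
      linarith
    exact_mod_cast h1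

end Pool.Agent.Lib.MP_ee6709_co
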