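import Pool.Agent.Lib.MP_7710ee_inv.Class2
import Pool.Agent.Lib.MP_ee6709_co.Example

/-!
# The classification of the extremal sets and of the groups (MP_7710ee_co)
-/

set_option linter.style.longLine false
set_option linter.unusedSectionVars false

namespace Pool.Agent.Lib.MP_ee6709_co

open Finset

/-- The shape of the extremal sets: `A` consists of a weakly zero-sum-free half `B` of the subgroup
`T`, of the cosets `g + T, ..., k g + T` and of a set `E` of at most one element of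
`(k + 1) g + T`, empty unless `|T| = 2`; the multiples `j g`, `1 ≤ j ≤ |A|² / (2 |T|)`, are not in
`T`. -/
def Shape {G : Type} [AddCommGroup G] (A : Finset G) (T : AddSubgroup G) (g : G) (k : ℕ)
    (B E : Finset G) : Prop :=
  (∀ x, x ∈ A ↔ x ∈ B ∨ (∃ i : ℕ, 1 ≤ i ∧ i ≤ k ∧ x - i • g ∈ T) ∨ x ∈ E) ∧
    (∀ x ∈ B, x ∈ T) ∧ WeaklyZeroSumFree B ∧ 2 * B.card = Nat.card T ∧
    (∀ x ∈ E, x - (k + 1) • g ∈ T) ∧ E.card ≤ 1 ∧ (E.card = 1 → Nat.card T = 2) ∧
    ∀ j : ℕ, 1 ≤ j → j ≤ A.card ^ 2 / (2 * Nat.card T) → j • g ∉ T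

lemma shp_of_shape {G : Type} [AddCommGroup G] [DecidableEq G] [Fintype G] {A : Finset G}
    {T : AddSubgroup G} {g : G} {k : ℕ} {B E : Finset G} (h : Shape A T g k B E) :
    A = shp T g k B E := by
  ext x
  rw [h.1 x, mem_shp, or_assoc]

lemma f_le {G : Type} [AddCommGroup G] [Finite G] {A : Finset G} (hA : WeaklyZeroSumFree A) :
    f A.card ≤ (SigmaStar A).encard :=
  iInf_le_of_le G (iInf_le_of_le inferInstance (iInf_le_of_le inferInstance
    (iInf_le_of_le A (iInf_le_of_le rfl (iInf_le_of_le hA le_rfl)))))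

/-- The classification of the extremal sets. -/
theorem classification : ∃ M : ℕ, ∀ (G : Type) [AddCommGroup G] [Finite G] (A : Finset G),
    M ≤ A.card → ((WeaklyZeroSumFree A ∧ (SigmaStar A).encard = f A.card) ↔
      ∃ (T : AddSubgroup G) (g : G) (k : ℕ) (B E : Finset G), Shape A T g k B E) := by
  classical
  obtain ⟨M1, hM1⟩ := f_eq
  obtain ⟨M2, hM2⟩ := good_shape.{0}
  refine ⟨max (max M1 M2) 20, fun G _ _ A hMA => ?_⟩
  have hm1 : M1 ≤ A.card := le_trans (le_trans (le_max_left _ _) (le_max_left _ _)) hMA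
  have hm2 : M2 ≤ A.card := le_trans (le_trans (le_max_right _ _) (le_max_left _ _)) hMA
  have hm3 : 20 ≤ A.card := le_trans (le_max_right _ _) hMA
  have : Fintype G := Fintype.ofFinite G
  constructor
  · rintro ⟨hw, hf⟩
    rw [hM1 _ hm1] at hf
    have h1 := encard_SigmaStar hw
    rw [hf] at h1
    have h2 : A.card ^ 2 / 2 + 1 + 1 = (SS A).card := by exact_mod_cast h1
    obtain ⟨T, g, k, B, E, hs, hB, hBz, hB2, hE, hE1, hE2, hj⟩ :=
      hM2 G A ((zsf_iff A).1 hw) hm2 (by omega)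
    refine ⟨T, g, k, B, E, ?_, hB, (zsf_iff B).2 hBz, hB2, hE, hE1, hE2, hj⟩
    intro x
    rw [← or_assoc, ← mem_shp, ← hs]
  · rintro ⟨T, g, k, B, E, hsh⟩
    have hs := shp_of_shape hsh
    obtain ⟨-, hB, hBz, hB2, hE, hE1, hE2, hj⟩ := hsh
    obtain ⟨h1, h2, -⟩ := shape_good hs hm3 hB ((zsf_iff B).1 hBz) hB2 hE hE1 hE2 hj
    have hw := (zsf_iff A).2 h1
    refine ⟨hw, le_antisymm ?_ (f_le hw)⟩
    rw [hM1 _ hm1]
    have h3 := encard_SigmaStar hw
    have h4 : (SigmaStar A).encard + 1 ≤ ((A.card ^ 2 / 2 + 1 : ℕ) : ℕ∞) + 1 := by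
      rw [h3]
      exact_mod_cast h2
    exact (ENat.add_le_add_iff_right (by simp)).1 h4

/-- The minimum `ρ(G, m)` is attained. -/
lemma rho_attained {G : Type} [AddCommGroup G] {m n : ℕ} (h : rhoZ G m = (n : ℕ∞)) :
    ∃ A : Finset G, A.card = m ∧ WeaklyZeroSumFree A ∧ (SigmaStar A).encard = n := by
  by_contra hcon
  push Not at hcon
  have h1 : ((n + 1 : ℕ) : ℕ∞) ≤ rhoZ G m := by
    refine le_iInf fun A => le_iInf fun hA => le_iInf fun hw => ?_
    have h2 : (n : ℕ∞) ≤ (SigmaStar A).encard := by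
      rw [← h]
      exact iInf_le_of_le A (iInf_le_of_le hA (iInf_le_of_le hw le_rfl))
    have h3 : (n : ℕ∞) < (SigmaStar A).encard := lt_of_le_of_ne h2 (Ne.symm (hcon A hA hw))
    have h4 := Order.add_one_le_of_lt h3
    push_cast
    exact h4
  rw [h] at h1
  have : n + 1 ≤ n := by exact_mod_cast h1
  omega

end Pool.Agent.Lib.MP_ee6709_co
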