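import Pool.Agent.Lib.MP_ee6709_co.Mann

/-!
# Numerical lemmas for the growth control (MP_7710ee_co)
-/

set_option linter.style.longLine false
set_option linter.unusedSectionVars false

namespace Pool.Agent.Lib.MP_ee6709_co

open Finset
open scoped Pointwise

universe u

lemma win_num1D {m d s η β : ℝ} (hd : d ≤ β * m) (hβ0 : 0 ≤ β) (hβ : β ≤ 1/50)
    (hη0 : 0 ≤ η) (hη : η ≤ 1/1000) (hm : 0 ≤ m) (hs : (1/2 - η) * (m - d) ^ 2 ≤ s) :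
    (1/2 - η - β) * m ^ 2 ≤ s := by
  have h1 : (1 - β) * m ≤ m - d := by linarith
  have h0 : 0 ≤ (1 - β) * m := mul_nonneg (by linarith) hm
  have h2 : ((1 - β) * m) ^ 2 ≤ (m - d) ^ 2 := pow_le_pow_left₀ h0 h1 2
  have h3 : (1/2 - η) * ((1 - β) * m) ^ 2 ≤ (1/2 - η) * (m - d) ^ 2 :=
    mul_le_mul_of_nonneg_left h2 (by linarith)
  have e0 : (1/2 - η) * ((1 - β) * m) ^ 2 - (1/2 - η - β) * m ^ 2
        = (2 * η * β + (1/2 - η) * β ^ 2) * m ^ 2 := by ring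
  have e1 : 0 ≤ 2 * η * β := by positivity
  have e2 : 0 ≤ (1/2 - η) * β ^ 2 := mul_nonneg (by linarith) (sq_nonneg _)
  have e3 : 0 ≤ (2 * η * β + (1/2 - η) * β ^ 2) * m ^ 2 :=
    mul_nonneg (by linarith) (sq_nonneg m)
  linarith

lemma win_num2C {m la n ε w η ζ SDa SDb S' S C : ℝ} (hC : 0 ≤ C) (hm : 0 < m) (hn0 : 0 ≤ n) (hla : 0 ≤ la)
    (hlb : la + n ≤ m / 50) (hn : w / 2 * m ≤ n) (hε : 0 < ε) (hw : 0 < w)
    (hη : η = ε * w / 40) (hζ : ζ = ε * w / 200) (hbig : 2 * C + 5 < ε * w * m ^ 2)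
    (h1 : la * m - la ^ 2 / 2 - 5 * ζ * m ^ 2 ≤ SDa)
    (h2 : SDa + (1 + ε) * (n * (m - la) - n ^ 2 / 2) ≤ SDb)
    (h3 : (1/2 - η) * (m - (la + n)) ^ 2 ≤ S') (h4 : SDb + S' ≤ S + 1)
    (h5 : 2 * S ≤ m ^ 2 + C) : False := by
  have e1 : n * (49/50 * m) ≤ n * (m - (la + n)) := mul_le_mul_of_nonneg_left (by linarith) hn0
  have e2 : n * (m - (la + n)) ≤ n * (m - la) - n ^ 2 / 2 := by nlinarith [sq_nonneg n]
  have e3 : w / 2 * m * (49/50 * m) ≤ n * (49/50 * m) := mul_le_mul_of_nonneg_right hn (by positivity)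
  have e4 : ε * (w / 2 * m * (49/50 * m)) ≤ ε * (n * (m - la) - n ^ 2 / 2) :=
    mul_le_mul_of_nonneg_left (by linarith) hε.le
  have e5 : η * (m - (la + n)) ^ 2 ≤ η * m ^ 2 := by
    apply mul_le_mul_of_nonneg_left _ (by rw [hη]; positivity)
    exact pow_le_pow_left₀ (by linarith) (by linarith) 2
  have e6 : la * m - la ^ 2 / 2 + (n * (m - la) - n ^ 2 / 2) + (m - (la + n)) ^ 2 / 2 = m ^ 2 / 2 := by
    ring
  have e7 : ε * (w / 2 * m * (49/50 * m)) = 49/100 * (ε * w * m ^ 2) := by ring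
  have e8 : η * m ^ 2 = 1/40 * (ε * w * m ^ 2) := by rw [hη]; ring
  have e9 : 5 * ζ * m ^ 2 = 1/40 * (ε * w * m ^ 2) := by rw [hζ]; ring
  rw [e7] at e4
  rw [e8] at e5
  rw [e9] at h1
  linarith

lemma win_num3D {b r J0 nJ t κ ε : ℝ} (hb : 0 < b) (hr : 0 < r) (hJ0 : 0 ≤ J0)
    (hε : 0 < ε) (hε1 : ε ≤ 1)
    (ht0 : 0 ≤ t) (ht : t ≤ (1 + ε ^ 2 / 36) * r) (hκ : (2 - ε ^ 2 / 36) * r ≤ κ)
    (hrb : 2 * r ≤ ε ^ 2 / 36 * b) (hn : nJ < 2 * b)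
    (h : b ^ 2 ≤ t * (2 * b * (J0 + 1) - κ * ((J0 + 1) * (J0 + 1 - 1)) / 2)) :
    nJ ≤ (2 + ε) * r * J0 := by
  by_contra hcon
  push Not at hcon
  set y := r * J0 with hy
  have hy0 : 0 ≤ y := by positivity
  have hyb : (2 + ε) * y < 2 * b := by
    have : (2 + ε) * y = (2 + ε) * r * J0 := by rw [hy]; ring
    linarith
  have hy1 : y ≤ b * (1 - ε / 3) := by
    -- (2+ε)(1-ε/3) ≥ 2 for ε ≤ 1
    have : 2 * b ≤ (2 + ε) * (b * (1 - ε / 3)) := by nlinarith [mul_pos hb hε]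
    by_contra hc
    push Not at hc
    nlinarith
  set br := 2 * b * (J0 + 1) - κ * ((J0 + 1) * (J0 + 1 - 1)) / 2 with hbr
  have hbrpos : 0 < br := by
    by_contra hc
    push Not at hc
    nlinarith [sq_pos_of_pos hb]
  have h1 : b ^ 2 ≤ (1 + ε ^ 2 / 36) * (r * br) := by
    have : t * br ≤ (1 + ε ^ 2 / 36) * r * br := mul_le_mul_of_nonneg_right ht hbrpos.le
    linarith
  have h2 : r * br ≤ 2 * b * y + 2 * r * b - (1 - ε ^ 2 / 72) * y ^ 2 := by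
    have e1 : r * br = 2 * b * y + 2 * r * b - (r * κ * ((J0 + 1) * J0)) / 2 := by
      rw [hbr, hy]; ring
    have e2 : (2 - ε ^ 2 / 36) * y ^ 2 ≤ r * κ * ((J0 + 1) * J0) := by
      have f1 : (2 - ε ^ 2 / 36) * r * (r * ((J0 + 1) * J0)) ≤ κ * (r * ((J0 + 1) * J0)) :=
        mul_le_mul_of_nonneg_right hκ (by positivity)
      have f2 : (2 - ε ^ 2 / 36) * y ^ 2 ≤ (2 - ε ^ 2 / 36) * r * (r * ((J0 + 1) * J0)) := by
        have g1 : (2 - ε ^ 2 / 36) * r * (r * ((J0 + 1) * J0))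
            = (2 - ε ^ 2 / 36) * (y ^ 2 + r ^ 2 * J0) := by rw [hy]; ring
        rw [g1]
        apply mul_le_mul_of_nonneg_left _ (by nlinarith)
        have : 0 ≤ r ^ 2 * J0 := by positivity
        linarith
      linarith
    rw [e1]; linarith
  have h3 : (ε / 3 * b) ^ 2 ≤ (b - y) ^ 2 := pow_le_pow_left₀ (by positivity) (by linarith) 2
  have h4 : y ^ 2 ≤ b ^ 2 := by
    apply pow_le_pow_left₀ hy0
    nlinarith [mul_pos hb hε]
  have h5 : 2 * r * b ≤ ε ^ 2 / 36 * b * b := mul_le_mul_of_nonneg_right hrb hb.le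
  have h6 : ε ^ 2 / 72 * y ^ 2 ≤ ε ^ 2 / 72 * b ^ 2 := mul_le_mul_of_nonneg_left h4 (by positivity)
  have h7 : r * br ≤ (1 - 5 * (ε ^ 2 / 72)) * b ^ 2 := by
    have e1 : 2 * b * y + 2 * r * b - (1 - ε ^ 2 / 72) * y ^ 2
        = b ^ 2 - (b - y) ^ 2 + 2 * r * b + ε ^ 2 / 72 * y ^ 2 := by ring
    have e2 : (ε / 3 * b) ^ 2 = 8 * (ε ^ 2 / 72) * b ^ 2 := by ring
    rw [e2] at h3
    have e3 : ε ^ 2 / 36 * b * b = 2 * (ε ^ 2 / 72) * b ^ 2 := by ring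
    rw [e3] at h5
    rw [e1] at h2
    linarith
  have h8 : (1 + ε ^ 2 / 36) * (r * br) ≤ (1 + ε ^ 2 / 36) * ((1 - 5 * (ε ^ 2 / 72)) * b ^ 2) :=
    mul_le_mul_of_nonneg_left h7 (by positivity)
  have h9 : (1 + ε ^ 2 / 36) * (1 - 5 * (ε ^ 2 / 72)) < 1 := by
    have : 0 < ε ^ 2 := by positivity
    nlinarith
  have h10 : 0 < b ^ 2 := by positivity
  have h11 : (1 + ε ^ 2 / 36) * (1 - 5 * (ε ^ 2 / 72)) * b ^ 2 < 1 * b ^ 2 :=
    mul_lt_mul_of_pos_right h9 h10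
  linarith

lemma Grows.monoD {K : Type u} [AddCommGroup K] [DecidableEq K] {G X : Finset K} {κ κ' : ℝ}
    (h : Grows G X κ) (h' : κ' ≤ κ) : Grows G X κ' := by
  intro Y hY hne
  rcases h Y hY hne with h1 | h1
  · exact Or.inl h1
  · right; linarith

end Pool.Agent.Lib.MP_ee6709_co
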