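import Pool.Agent.Lib.MP_ee6709_co.Asymp2
import Pool.Agent.Lib.MP_7710ee_inv.WinBase

/-!
# Growth control in windows, larger sets of sums (MP_7710ee_co)

Copy of `Lib/MP_ee6709_co/Window.lean` with the hypothesis `2 |SS A| ≤ |A|² + |A|`.
-/

set_option linter.style.longLine false
set_option linter.unusedSectionVars false

namespace Pool.Agent.Lib.MP_ee6709_co

open Finset
open scoped Pointwise

universe u

/-- Growth control. -/
theorem windowC (α β ε : ℝ) (hα : 0 < α) (hαβ : α < β) (hβ : β ≤ 1/100) (hε : 0 < ε) (hε1 : ε ≤ 1) :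
    ∃ M : ℕ, ∀ (K : Type u) [AddCommGroup K] [DecidableEq K] [Fintype K] (A : Finset K),
    ZSF A → M ≤ A.card → Gn A → 2 * (SS A).card ≤ A.card ^ 2 + A.card →
    (∀ D ⊆ A, (D.card : ℝ) ≤ β * A.card → Gn (A \ D) ∧
      Grows (univ : Finset K) (sym (A \ D)) ((2 - ε) * (A \ D).card)) ∧
    ∃ D ⊆ A, α * A.card ≤ D.card ∧ (D.card : ℝ) ≤ β * A.card ∧
      ∃ J0 : ℕ, α ^ 2 / 10 * A.card ≤ J0 ∧
        ((it (sym (A \ D)) J0).card : ℝ) ≤ (2 + ε) * (A \ D).card * J0 ∧
        20 * (it (sym (A \ D)) J0).card ≤ Fintype.card K := by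
  -- parameters
  obtain ⟨e, he⟩ : ∃ e : ℝ, e = ε ^ 2 / 36 := ⟨_, rfl⟩
  have he0 : 0 < e := by rw [he]; positivity
  have he1 : e ≤ 1/36 := by
    rw [he]
    have : ε ^ 2 ≤ 1 := by nlinarith
    linarith
  have heε : e ≤ ε := by
    rw [he]
    have : ε ^ 2 ≤ ε * 1 := by rw [sq]; exact mul_le_mul_of_nonneg_left hε1 hε.le
    linarith
  obtain ⟨w, hw⟩ : ∃ w : ℝ, w = β - α := ⟨_, rfl⟩
  have hw0 : 0 < w := by rw [hw]; linarith
  have hw1 : w ≤ 1/100 := by rw [hw]; linarith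
  -- η, ζ for the chain: with e, w; also need them small compared with α
  obtain ⟨w', hw'⟩ : ∃ w' : ℝ, w' = min w α := ⟨_, rfl⟩
  have hw'0 : 0 < w' := by rw [hw']; exact lt_min hw0 hα
  have hw'w : w' ≤ w := by rw [hw']; exact min_le_left _ _
  have hw'α : w' ≤ α := by rw [hw']; exact min_le_right _ _
  obtain ⟨η, hη⟩ : ∃ η : ℝ, η = e * w' / 40 := ⟨_, rfl⟩
  have hη0 : 0 < η := by rw [hη]; positivity
  have hη1 : η ≤ 1/1000 := by
    rw [hη]
    have : e * w' ≤ 1 * (1/100) := mul_le_mul (by linarith) (by linarith) hw'0.le (by norm_num)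
    linarith
  obtain ⟨ζ, hζ⟩ : ∃ ζ : ℝ, ζ = e * w' / 200 := ⟨_, rfl⟩
  have hζ0 : 0 < ζ := by rw [hζ]; positivity
  have hζα : ζ ≤ α := by
    rw [hζ]
    have : e * w' ≤ 1 * w' := mul_le_mul_of_nonneg_right (by linarith) hw'0.le
    linarith
  have hζ1 : ζ ≤ 1/10 := by linarith
  obtain ⟨M1, hM1⟩ := asymp.{u} η hη0 (by linarith)
  obtain ⟨M2, hM2⟩ := greedy_alt.{u} ζ hζ0 hζ1
  obtain ⟨M3, hM3⟩ := kappa.{u} (e/3) (by positivity)
  obtain ⟨M4, hM4⟩ := ord2_bound (e/6) (by positivity)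
  obtain ⟨M5, hM5⟩ := exists_nat_ge (2 * ((M1 : ℝ) + M3) + (M1 + 10) / α + 10 / w' + 10 / (e * w')
    + 5 / (e * α ^ 2) + 10000 + 300 / α ^ 2)
  refine ⟨max (max M1 M2) (max M4 M5), fun K _ _ _ A hA hMA hG hSS => ?_⟩
  have hA1 : M1 ≤ A.card := le_trans (le_trans (le_max_left _ _) (le_max_left _ _)) hMA
  have hA2 : M2 ≤ A.card := le_trans (le_trans (le_max_right _ _) (le_max_left _ _)) hMA
  have hA4 : M4 ≤ A.card := le_trans (le_trans (le_max_left _ _) (le_max_right _ _)) hMA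
  have hA5 : M5 ≤ A.card := le_trans (le_trans (le_max_right _ _) (le_max_right _ _)) hMA
  obtain ⟨m, hm⟩ : ∃ m : ℕ, m = A.card := ⟨_, rfl⟩
  rw [← hm] at hA1 hA2 hA4 hA5 hSS ⊢
  have hmnn : (0 : ℝ) ≤ m := Nat.cast_nonneg _
  have hmbig : 2 * ((M1 : ℝ) + M3) + (M1 + 10) / α + 10 / w' + 10 / (e * w')
    + 5 / (e * α ^ 2) + 10000 + 300 / α ^ 2 ≤ m := hM5.trans (by exact_mod_cast hA5)
  have p1 : (0 : ℝ) ≤ 2 * ((M1 : ℝ) + M3) := by positivity
  have p2 : (0 : ℝ) ≤ (M1 + 10) / α := by positivity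
  have p3 : (0 : ℝ) ≤ 10 / w' := by positivity
  have p4 : (0 : ℝ) ≤ 10 / (e * w') := by positivity
  have p5 : (0 : ℝ) ≤ 5 / (e * α ^ 2) := by positivity
  have p6 : (0 : ℝ) ≤ 300 / α ^ 2 := by positivity
  have q1 : 2 * ((M1 : ℝ) + M3) ≤ m := by linarith
  have q2 : (M1 : ℝ) + 10 ≤ α * m := by
    have : ((M1 : ℝ) + 10) / α ≤ m := by linarith
    rw [div_le_iff₀ hα] at this; linarith
  have q3 : 10 ≤ w' * m := by
    have : 10 / w' ≤ m := by linarith
    rw [div_le_iff₀ hw'0] at this; linarith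
  have q4 : 10 ≤ e * w' * m := by
    have : 10 / (e * w') ≤ m := by linarith
    rw [div_le_iff₀ (by positivity)] at this; linarith
  have q5 : 5 ≤ e * α ^ 2 * m := by
    have : 5 / (e * α ^ 2) ≤ m := by linarith
    rw [div_le_iff₀ (by positivity)] at this; linarith
  have q6 : (10000 : ℝ) ≤ m := by linarith
  have q7 : 300 ≤ α ^ 2 * m := by
    have : 300 / α ^ 2 ≤ m := by linarith
    rw [div_le_iff₀ (by positivity)] at this; linarith
  have hmpos : (0 : ℝ) < m := by linarith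
  have hSS' : 2 * ((SS A).card : ℝ) ≤ (m : ℝ) ^ 2 + m := by exact_mod_cast hSS
  have hm2 : (10000 : ℝ) * m ≤ (m : ℝ) ^ 2 := by
    rw [sq]; exact mul_le_mul_of_nonneg_right q6 hmnn
  have hSSm : (SS A).card ≤ m ^ 2 := by
    have : ((SS A).card : ℝ) ≤ (m : ℝ) ^ 2 := by linarith
    exact_mod_cast this
  -- lower bound for complements of small sets
  have hlow : ∀ D ⊆ A, (D.card : ℝ) ≤ m / 50 →
      (1/2 - η) * ((m : ℝ) - D.card) ^ 2 ≤ (SS (A \ D)).card := by
    intro D hDA hD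
    have h1 : (A \ D).card + D.card = m := by rw [hm]; exact card_sdiff_add_card_eq_card hDA
    have h1' : ((A \ D).card : ℝ) = m - D.card := by
      have : ((A \ D).card : ℝ) + D.card = m := by exact_mod_cast h1
      linarith
    have h2 : M1 ≤ (A \ D).card := by
      have : (M1 : ℝ) ≤ (A \ D).card := by
        rw [h1']
        have : (0 : ℝ) ≤ M3 := Nat.cast_nonneg _
        linarith
      exact_mod_cast this
    have h3 := hM1 K (A \ D) (hA.mono sdiff_subset) h2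
    rw [h1'] at h3
    exact h3
  have hSSlow : (1/2 - η) * (m : ℝ) ^ 2 ≤ (SS A).card := by
    have := hlow ∅ (empty_subset _) (by
      rw [card_empty, Nat.cast_zero]; positivity)
    simpa using this
  -- (a)
  have hgen : ∀ D ⊆ A, (D.card : ℝ) ≤ m / 50 → Gn (A \ D) := by
    intro D hDA hD
    by_contra hcon
    obtain ⟨x, hxA, hxR, hx⟩ := exists_double hG hcon
    have h1 : (SS (insert x (A \ D))).card ≤ (SS A).card :=
      card_le_card (SS_mono (insert_subset hxA sdiff_subset))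
    have h2 := win_num1D (by linarith : (D.card : ℝ) ≤ (1/50) * m) (by norm_num) le_rfl hη0.le hη1 hmnn
      (hlow D hDA hD)
    have h3 : 2 * ((SS (A \ D)).card : ℝ) ≤ (SS A).card := by
      exact_mod_cast (by omega : 2 * (SS (A \ D)).card ≤ (SS A).card)
    have h4 : (47/100) * (m : ℝ) ^ 2 ≤ (1/2 - η - 1/50) * (m : ℝ) ^ 2 :=
      mul_le_mul_of_nonneg_right (by linarith) (sq_nonneg _)
    linarith
  -- ord2
  have hord : ∀ D ⊆ A, (D.card : ℝ) ≤ m / 50 → ((ord2 (A \ D)).card : ℝ) ≤ e/3 * (A \ D).card := by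
    intro D hDA hD
    have h1 : (ord2 (A \ D)).card ≤ (ord2 A).card := card_le_card (filter_subset_filter _ sdiff_subset)
    have h2 : 2 ^ (ord2 A).card ≤ (SS (ord2 A)).card := by
      apply (hA.mono (filter_subset _ _)).two_pow_card
      intro x hx
      exact (mem_filter.1 hx).2
    have h3 : (SS (ord2 A)).card ≤ (SS A).card := card_le_card (SS_mono (filter_subset _ _))
    have h4 := hM4 m hA4 _ (h2.trans (h3.trans hSSm))
    have h5 : ((ord2 (A \ D)).card : ℝ) ≤ (ord2 A).card := by exact_mod_cast h1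
    have h6 : (A \ D).card + D.card = m := by rw [hm]; exact card_sdiff_add_card_eq_card hDA
    have h6' : ((A \ D).card : ℝ) + D.card = m := by exact_mod_cast h6
    have h7 : m / 2 ≤ ((A \ D).card : ℝ) := by linarith
    have h8 : e / 3 * (m / 2) ≤ e / 3 * (A \ D).card := mul_le_mul_of_nonneg_left h7 (by positivity)
    linarith
  have hgrow : ∀ D ⊆ A, (D.card : ℝ) ≤ m / 50 →
      Grows (univ : Finset K) (sym (A \ D)) ((2 - e) * (A \ D).card) := by
    intro D hDA hD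
    have h6 : (A \ D).card + D.card = m := by rw [hm]; exact card_sdiff_add_card_eq_card hDA
    have h6' : ((A \ D).card : ℝ) + D.card = m := by exact_mod_cast h6
    have h7 : M3 ≤ (A \ D).card := by
      have h0 : (0 : ℝ) ≤ M1 := Nat.cast_nonneg _
      have : (M3 : ℝ) ≤ (A \ D).card := by linarith
      exact_mod_cast this
    have h8 := hM3 K (A \ D) (hA.mono sdiff_subset) h7 (hgen D hDA hD) (hord D hDA hD)
    have e1 : 2 - 3 * (e/3) = 2 - e := by ring
    rwa [e1] at h8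
  have hβm : β * m ≤ m / 50 := by
    have : β * (m : ℝ) ≤ 1/100 * m := mul_le_mul_of_nonneg_right hβ hmnn
    linarith
  refine ⟨fun D hDA hD => ⟨hgen D hDA (hD.trans hβm), Grows.monoD (hgrow D hDA (hD.trans hβm)) ?_⟩, ?_⟩
  · exact mul_le_mul_of_nonneg_right (by linarith) (Nat.cast_nonneg _)
  -- existence of a good D in the window
  have hexD : ∃ D ⊆ A, α * m ≤ (D.card : ℝ) ∧ (D.card : ℝ) ≤ β * m ∧
      ∀ x ∈ A \ D, (lam (SS D) x : ℝ) ≤ (1 + e) * (A \ D).card := by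
    by_contra hcon
    push Not at hcon
    obtain ⟨la, hla⟩ : ∃ la : ℕ, la = ⌈α * (m : ℝ)⌉₊ := ⟨_, rfl⟩
    have hla1 : α * (m : ℝ) ≤ la := by rw [hla]; exact Nat.le_ceil _
    have hla2 : (la : ℝ) < α * m + 1 := by rw [hla]; exact Nat.ceil_lt_add_one (by positivity)
    have hαm : α * (m : ℝ) ≤ 1/100 * m := mul_le_mul_of_nonneg_right (by linarith) hmnn
    have hζm : ζ * (m : ℝ) ≤ α * m := mul_le_mul_of_nonneg_right hζα hmnn
    have hζm2 : ζ * (m : ℝ) ≤ 1/10 * m := mul_le_mul_of_nonneg_right hζ1 hmnn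
    have hwm : w' * (m : ℝ) ≤ w * m := mul_le_mul_of_nonneg_right hw'w hmnn
    have hαw : α * (m : ℝ) + w * m = β * m := by rw [hw]; ring
    -- initial set
    have hinit : ∃ D ⊆ A, D.card = la ∧
        (la : ℝ) * m - (la : ℝ) ^ 2 / 2 - 5 * ζ * (m : ℝ) ^ 2 ≤ (SS D).card := by
      have key := hM2 K A hA (by rw [← hm]; exact hA2) hG (by rw [← hm]; exact hSSm) la
        (by rw [← hm]; linarith) (by rw [← hm]; linarith)
      rw [← hm] at key
      rcases key with ⟨D, hDA, hDc, _, hD⟩ | ⟨D, D', hDD', hD'A, hDi, hD'c, hD, hSSD⟩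
      · exact ⟨D, hDA, hDc, hD⟩
      · exfalso
        have h1 : (D'.card : ℝ) ≤ la + 1 := by exact_mod_cast (by omega : D'.card ≤ la + 1)
        have h2 := win_num1D (by linarith : (D'.card : ℝ) ≤ (1/50) * m) (by norm_num) le_rfl hη0.le hη1 hmnn
          (hlow D' hD'A (by linarith))
        have h3 : 2 * ((SS (A \ D')).card : ℝ) ≤ (SS A).card + 2 := by exact_mod_cast hSSD
        have h4 : (47/100) * (m : ℝ) ^ 2 ≤ (1/2 - η - 1/50) * (m : ℝ) ^ 2 :=
          mul_le_mul_of_nonneg_right (by linarith) (sq_nonneg _)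
        linarith
    obtain ⟨Da, hDaA, hDac, hDa⟩ := hinit
    have hchain : ∀ n : ℕ, (la : ℝ) + n ≤ β * m → ∃ D ⊆ A, D.card = la + n ∧
        ((SS Da).card : ℝ) + (1 + e) * (n * (m - la) - (n : ℝ) ^ 2 / 2) ≤ (SS D).card := by
      intro n
      induction n with
      | zero => intro _; exact ⟨Da, hDaA, by rw [hDac, add_zero], by simp⟩
      | succ n ih =>
        intro hn
        push_cast at hn
        obtain ⟨D, hDA, hDc, hD⟩ := ih (by linarith)
        have hDc' : (D.card : ℝ) = la + n := by exact_mod_cast hDc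
        obtain ⟨x, hx, hlam⟩ := hcon D hDA (by rw [hDc']; have : (0 : ℝ) ≤ n := Nat.cast_nonneg _
                                               linarith) (by rw [hDc']; linarith)
        rw [mem_sdiff] at hx
        refine ⟨insert x D, insert_subset hx.1 hDA, by rw [card_insert_of_notMem hx.2, hDc]; ring, ?_⟩
        rw [card_SS_insert hx.2]
        have h6 : (A \ D).card + D.card = m := by rw [hm]; exact card_sdiff_add_card_eq_card hDA
        have h6' : ((A \ D).card : ℝ) = m - (la + n) := by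
          have : ((A \ D).card : ℝ) + D.card = m := by exact_mod_cast h6
          linarith
        rw [h6'] at hlam
        push_cast
        have e1 : (1 + e) * (((n : ℝ) + 1) * (m - la) - ((n : ℝ) + 1) ^ 2 / 2)
          = (1 + e) * (n * (m - la) - (n : ℝ) ^ 2 / 2) + (1 + e) * (m - (la + n)) - (1 + e) / 2 := by ring
        rw [e1]
        linarith
    obtain ⟨n, hn⟩ : ∃ n : ℕ, n = ⌊β * (m : ℝ) - la⌋₊ := ⟨_, rfl⟩
    have hnn : 0 ≤ β * (m : ℝ) - la := by linarith
    have hn1 : (n : ℝ) ≤ β * m - la := by rw [hn]; exact Nat.floor_le hnn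
    have hn2 : β * (m : ℝ) - la < n + 1 := by rw [hn]; exact Nat.lt_floor_add_one _
    obtain ⟨D, hDA, hDc, hD⟩ := hchain n (by linarith)
    have hDc' : (D.card : ℝ) = la + n := by exact_mod_cast hDc
    have h3 := hlow D hDA (by rw [hDc']; linarith)
    rw [hDc'] at h3
    have h4 := hA.card_SS_sdiff hDA
    have h4' : ((SS D).card : ℝ) + (SS (A \ D)).card ≤ (SS A).card + 1 := by exact_mod_cast h4
    refine win_num2C (C := m) hmnn (m := m) (la := la) (n := n) (ε := e) (w := w') (η := η) (ζ := ζ)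
      hmpos (Nat.cast_nonneg _) (Nat.cast_nonneg _) (by linarith) (by linarith) he0 hw'0 hη hζ ?_
      hDa hD h3 h4' hSS'
    have : 10 * (m : ℝ) ≤ e * w' * m * m := mul_le_mul_of_nonneg_right q4 hmnn
    have e2 : e * w' * (m : ℝ) * m = e * w' * (m : ℝ) ^ 2 := by ring
    rw [e2] at this
    linarith
  obtain ⟨D, hDA, hD1, hD2, hlam⟩ := hexD
  refine ⟨D, hDA, hD1, hD2, ?_⟩
  have h6 : (A \ D).card + D.card = m := by rw [hm]; exact card_sdiff_add_card_eq_card hDA
  have h6' : ((A \ D).card : ℝ) + D.card = m := by exact_mod_cast h6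
  have hDm : (D.card : ℝ) ≤ m / 50 := hD2.trans hβm
  have hrpos : (0 : ℝ) < (A \ D).card := by linarith
  -- size of SS D
  have hblow : (1/2 - η) * (D.card : ℝ) ^ 2 ≤ (SS D).card := by
    apply hM1 K D (hA.mono hDA)
    have : (M1 : ℝ) ≤ D.card := by linarith
    exact_mod_cast this
  have hblow2 : 2/5 * (α ^ 2 * m ^ 2) ≤ ((SS D).card : ℝ) := by
    have h1 : (α * m) ^ 2 ≤ (D.card : ℝ) ^ 2 := pow_le_pow_left₀ (by positivity) hD1 2
    have h2 : 2/5 * (D.card : ℝ) ^ 2 ≤ (1/2 - η) * (D.card : ℝ) ^ 2 :=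
      mul_le_mul_of_nonneg_right (by linarith) (sq_nonneg _)
    have h3 : (α * m) ^ 2 = α ^ 2 * m ^ 2 := by ring
    linarith
  have hbup : 40 * ((SS D).card : ℝ) ≤ 48/100 * m ^ 2 := by
    have h4 := hA.card_SS_sdiff hDA
    have h4' : ((SS D).card : ℝ) + (SS (A \ D)).card ≤ (SS A).card + 1 := by exact_mod_cast h4
    have h5 := win_num1D hD2 (by linarith) (by linarith) hη0.le hη1 hmnn (hlow D hDA hDm)
    have h7 : (489/1000) * (m : ℝ) ^ 2 ≤ (1/2 - η - β) * (m : ℝ) ^ 2 :=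
      mul_le_mul_of_nonneg_right (by linarith) (sq_nonneg _)
    linarith
  have hKbig : ((SS A).card : ℝ) ≤ Fintype.card K := by exact_mod_cast card_le_univ _
  have hSSlow2 : (48/100) * (m : ℝ) ^ 2 ≤ (SS A).card := by
    have : (48/100) * (m : ℝ) ^ 2 ≤ (1/2 - η) * (m : ℝ) ^ 2 :=
      mul_le_mul_of_nonneg_right (by linarith) (sq_nonneg _)
    linarith
  have h40 : 40 * (SS D).card ≤ Fintype.card K := by
    have : 40 * ((SS D).card : ℝ) ≤ Fintype.card K := by linarith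
    exact_mod_cast this
  have hne : (A \ D).Nonempty := by
    rw [← card_pos]; exact_mod_cast hrpos
  obtain ⟨x, hx, hmax⟩ := exists_max_image (A \ D) (fun x => lam (SS D) x) hne
  have hb1 : 1 ≤ (SS D).card := card_pos.2 ⟨0, zero_mem_SS D⟩
  obtain ⟨J, hJ1, hJlt, hJ⟩ := incr (hgen D hDA hDm) (hgrow D hDA hDm) hb1 (by omega)
    (t := lam (SS D) x) hmax
  obtain ⟨J0, rfl⟩ : ∃ J0, J = J0 + 1 := ⟨J - 1, by omega⟩
  rw [Nat.add_sub_cancel] at hJlt
  push_cast at hJ
  have hJlt' : ((it (sym (A \ D)) J0).card : ℝ) < 2 * (SS D).card := by exact_mod_cast hJlt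
  have ht := hlam x hx
  have hbpos : (0 : ℝ) < (SS D).card := by exact_mod_cast hb1
  have hm1 : ((A \ D).card : ℝ) ≤ m := by
    have : (0 : ℝ) ≤ D.card := Nat.cast_nonneg _
    linarith
  refine ⟨J0, ?_, ?_, by omega⟩
  · -- lower bound on J0
    have h1 : ((SS D).card : ℝ) ^ 2 ≤ (1 + e) * (A \ D).card * (2 * (SS D).card * (J0 + 1)) := by
      have t0 : (0 : ℝ) ≤ lam (SS D) x := Nat.cast_nonneg _
      have t1 : (0 : ℝ) ≤ (2 - e) * (A \ D).card * (((J0 : ℝ) + 1) * ((J0 : ℝ) + 1 - 1)) / 2 := by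
        have : (0 : ℝ) ≤ J0 := Nat.cast_nonneg _
        have h2e : 0 ≤ 2 - e := by linarith
        have h3 : ((J0 : ℝ) + 1 - 1) = J0 := by ring
        rw [h3]; positivity
      calc ((SS D).card : ℝ) ^ 2 ≤ _ := hJ
        _ ≤ (lam (SS D) x : ℝ) * (2 * (SS D).card * (J0 + 1)) :=
          mul_le_mul_of_nonneg_left (by linarith) t0
        _ ≤ _ := mul_le_mul_of_nonneg_right ht (by positivity)
    have h2 : ((SS D).card : ℝ) ≤ 3 * m * (J0 + 1) := by
      have h3 : ((SS D).card : ℝ) * (SS D).card ≤ (3 * m * (J0 + 1)) * (SS D).card := by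
        have e1 : (1 + e) * (A \ D).card * (2 * (SS D).card * ((J0 : ℝ) + 1))
          ≤ (3/2) * m * (2 * (SS D).card * (J0 + 1)) := by
          apply mul_le_mul_of_nonneg_right _ (by positivity)
          exact mul_le_mul (by linarith) hm1 hrpos.le (by norm_num)
        rw [sq] at h1
        linarith
      exact le_of_mul_le_mul_right h3 hbpos
    have h3 : 2/5 * (α ^ 2 * m) ≤ 3 * ((J0 : ℝ) + 1) := by
      have h4 : (2/5 * (α ^ 2 * m)) * m ≤ (3 * ((J0 : ℝ) + 1)) * m := by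
        have : (2/5 * (α ^ 2 * m)) * (m : ℝ) = 2/5 * (α ^ 2 * m ^ 2) := by ring
        rw [this]; linarith
      exact le_of_mul_le_mul_right h4 hmpos
    linarith
  · refine win_num3D (t := (lam (SS D) x : ℝ)) (κ := (2 - e) * (A \ D).card) hbpos hrpos
      (Nat.cast_nonneg _) hε hε1 (Nat.cast_nonneg _) (by rw [← he]; exact ht)
      (by rw [← he]) ?_ hJlt' hJ
    rw [← he]
    have h1 : 5 * (m : ℝ) ≤ e * α ^ 2 * m * m := mul_le_mul_of_nonneg_right q5 hmnn
    have h2 : e * (2/5 * (α ^ 2 * m ^ 2)) ≤ e * (SS D).card := mul_le_mul_of_nonneg_left hblow2 he0.le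
    have h3 : e * (2/5 * (α ^ 2 * (m : ℝ) ^ 2)) = 2/5 * (e * α ^ 2 * m * m) := by ring
    rw [h3] at h2
    linarith

end Pool.Agent.Lib.MP_ee6709_co
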